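import Mathlib
import Pool.Agent.Run7.h462.BPD.Stm

/-!
# Project PR (helper994): pairs of primes `F(n) + a`, `F(n) + a + h` for a positive proportion of the pairs
`a ≤ A`, `h ≤ H`, with `H ≥ C log N`

`F` is an integer polynomial of degree `d = 2, 3, 4` with positive leading coefficient. Statements; every statement is a `Prop`
with a complete proof in its docstring.
-/

set_option autoImplicit false

namespace Run7.h994.PR

open Finset Filter Topology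
open Pool.Agent.H373R2.T7 (pz Vz)
open Pool.Agent.TH204.WR (rho hh)
open scoped Polynomial

/-- the product of the two polynomials `F + a`, `F + b` -/
noncomputable def Q (F : ℤ[X]) (a b : ℤ) : ℤ[X] := (F + Polynomial.C a) * (F + Polynomial.C b)

/-- the number of the residues `n` modulo `p` with `p ∣ (F(n) + a) (F(n) + b)` -/
noncomputable def r2 (F : ℤ[X]) (a b : ℤ) (p : ℕ) : ℕ := rho (Q F a b) 0 p

/-- the truncated singular series of the pair -/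
noncomputable def g2 (F : ℤ[X]) (a b : ℤ) (z : ℕ) : ℝ :=
  (∏ p ∈ pz z, (1 - (r2 F a b p : ℝ) / p)) / Vz z ^ 2

/-- the number of the `1 ≤ n ≤ N` for which `F(n) + a` and `F(n) + b` are primes -/
def P2 (F : ℤ[X]) (a b N : ℕ) : ℕ :=
  #((Icc 1 N).filter (fun n : ℕ => Nat.Prime (F.eval (n : ℤ) + a).toNat ∧ Nat.Prime (F.eval (n : ℤ) + b).toNat))

/-- **FM2**: the lower bound for the pairs, on average. Proof. From `Run7.h462.BPD.S_FM F` for `A' = A - H` (and an upper bound for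
the shifts `a ≤ H`) by the Cauchy-Schwarz inequality for the numbers `ψ(n, y)` of the primes `F(n) + a`, `y < a ≤ y + H`,
`n ≤ N`, `y < A - H`: the sum of the squares is at most `H ∑_a P_a + 2 ∑_h (H - h) ∑_a P_{a, a + h}`, and the diagonal is small
for `H ≥ B log N`. -/
def S_FM2 (F : ℤ[X]) : Prop := ∀ η : ℝ, 0 < η → ∃ c₀ B : ℝ, 0 < c₀ ∧ 0 < B ∧ ∀ ε : ℝ, 0 < ε → ∃ N₀ : ℕ, ∀ N : ℕ, N₀ ≤ N →
  ∀ A H : ℕ, (N : ℝ) ^ (3 / 4 * (F.natDegree : ℝ) - 1 + ε) ≤ A → (A : ℝ) ≤ c₀ * (N : ℝ) ^ (F.natDegree - 1) →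
  B * Real.log N ≤ H → (H : ℝ) ≤ c₀ * A →
  (1 - η) * (A * ((H : ℝ) ^ 2 / 2) * (N / (F.natDegree * Real.log N) ^ 2)) ≤
    ∑ h ∈ Ico 1 H, ((H : ℝ) - h) * ∑ a ∈ Icc 1 A, (P2 F a (a + h) N : ℝ)

/-- **UP2**: pointwise upper bound with the sieve product. Proof: as `Run7.h704.BPD.up` (`Pool/Agent/Run7/h704/BPD/UP.lean`) with
`flp (2 d)` for the polynomial `Q F a b` and `t = 0`. If `F(n) + a > z` and `F(n) + b > z` are primes then no `p ≤ z` divides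
their product; the `n` with `F(n) + a ≤ z` or `F(n) + b ≤ z` are at most `2 (n₀ + 2 z)` in number (`eval_large`). If
`rho (Q F a b) 0 p = p` for some `p ≤ z` then one of the two numbers is `≤ z` for every counted `n`. -/
def S_UP2 (F : ℤ[X]) : Prop := ∃ C : ℝ, 1 ≤ C ∧ ∃ κ : ℝ, 0 < κ ∧ κ ≤ 1 / 10 ∧ ∃ N₀ : ℕ, ∀ N : ℕ, N₀ ≤ N → ∃ z : ℕ, 2 ≤ z ∧
  (N : ℝ) ^ κ ≤ z ∧ (z : ℝ) ≤ (N : ℝ) ^ (1 / 10 : ℝ) ∧
  ∀ a b : ℕ, (P2 F a b N : ℝ) ≤ C * N * (Vz z ^ 2 * g2 F a b z) + C * (N : ℝ) ^ (3 / 4 : ℝ)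

/-- the number of the residues `x` modulo `p` with `p ∣ x (x + h)` -/
def nu (h p : ℕ) : ℕ := if p ∣ h then 1 else 2

/-- the truncated singular series of the prime pairs with difference `h` -/
noncomputable def tw (h w : ℕ) : ℝ := ∏ p ∈ pz w, ((1 - (nu h p : ℝ) / p) / (1 - 1 / (p : ℝ)) ^ 2)

/-- **TW**: the average of the truncated singular series of the prime pairs with the weights `H - h`. Proof. For odd `h` the
factor of `p = 2` is zero. Let `T = pz w \ {2}`; for `p ∈ T` the factor is `u_p` if `p ∤ h` and `u_p (1 + x_p)` if `p ∣ h`, with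
`u_p = (1 - 2/p) / (1 - 1/p)²`, `x_p = 1 / (p - 2)`; for `p = 2`, `h` even, it is `2`. So for even `h`
`tw h w = 2 ∏ u_p ∑_{S ⊆ T} ∏_{p ∈ S} (x_p 1_{p ∣ h})`, and `∑_{h < H, 2 D ∣ h} (H - h) ≤ H² / (4 D)` for `D = ∏_{p ∈ S} p` (for `k ≥ 1`:
`∑_{1 ≤ m, k m < H} (H - k m) ≤ H² / (2 k)`). So the sum is at most `2 ∏ u_p ∑_S ∏ (x_p / p) H² / 4 = (H² / 2) ∏ u_p (1 + x_p / p)`, and
`u_p (1 + x_p / p) = (p (p - 2) / (p - 1)²) ((p - 1)² / (p (p - 2))) = 1`. -/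
def S_TW : Prop := ∀ H w : ℕ, 2 ≤ w → ∑ h ∈ Ico 1 H, ((H : ℝ) - h) * tw h w ≤ (H : ℝ) ^ 2 / 2

/-- **AV2**: the weighted first moment of the truncated singular series of the pairs (from TW). Proof: as `Run7.h704.BPD.av`
(`Pool/Agent/Run7/h704/BPD/AV.lean`): `flp (2 d)` for `Q F a (a + h)`, `t = 0`, `n ≤ A` from below (if `rho = p` for some `p ≤ w` then the
truncated series is zero), and for fixed `n`, `h` from above `flp 2` for `(X + C m) (X + C (m + h))`, `m = F(n)`, on the `a ≤ A`: the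
density is `∏ (1 - nu h p / p)` (`rho = nu h p`; if `nu h p = p`, i.e. `p = 2`, `h` odd, the number of the `a` is `0`). The relative errors
are `2 (1/2)^b`. So `(1 - ε') A ∑_h (H - h) ∑_a Vz² g2 ≤ (1 + ε') A A ∑_h (H - h) Vz² tw h w`. -/
def S_AV2 (F : ℤ[X]) : Prop := ∀ (E : ℕ) (η : ℝ), 0 < η → ∃ A₀ : ℕ, ∀ A : ℕ, A₀ ≤ A → ∀ w : ℕ, Real.log A ≤ w →
  (w : ℝ) ≤ Real.log A ^ E → ∀ H : ℕ,
  ∑ h ∈ Ico 1 H, ((H : ℝ) - h) * ∑ a ∈ Icc 1 A, g2 F (a : ℕ) ((a + h : ℕ) : ℕ) w ≤ (1 + η) * (A * ((H : ℝ) ^ 2 / 2))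

/-- **SQ2**: the second moment. Proof: as `Run7.h704.BPD.sq` (`Pool/Agent/Run7/h704/BPD/SQ.lean`), for fixed `h`. Reduction to `w₀ ≤ (log A) / 8`
with `(Vz w₀ / Vz w)² ≤ K²`. Period `W = ∏_{p ≤ w₀} p ≤ A`, CRT (`crt_prod`). Local factor, `p > ℓ²` (`ℓ` the leading coefficient of `F`,
`rho_le_deg'` for `Q`: `r2 ≤ 2d`): `∑_{a mod p} r2 F a (a + h) p = p nu h p` (for every `n` there are `nu h p` values `a`), so
`∑_a (1 - r2 / p)² ≤ p - 2 ν + 2 d ν / p`, `ν = nu h p`, and divided by `(1 - 1/p)⁴` this is `≤ p (1 + C_d / p²)` for `ν = 2` and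
`≤ p (1 + C_d / p)` for `ν = 1`. For `p ≤ ℓ²`: `≤ 16 p`. So the sum over `a ≤ A` is at most `C A ∏_{p ∣ h, p ≤ w₀} (1 + C_d / p)`, and
`∑_{h ≤ H} ∏_{p ∣ h, p ≤ w₀} (1 + C_d / p) ≤ H ∏ (1 + C_d / p²) ≤ C H` (expand the product: `∑_{S} ∏_{p ∈ S} (C_d / p) · H / ∏_{p ∈ S} p`). -/
def S_SQ2 (F : ℤ[X]) : Prop := ∀ E : ℕ, ∃ C : ℝ, 1 ≤ C ∧ ∃ A₀ : ℕ, ∀ A : ℕ, A₀ ≤ A → ∀ w : ℕ, 2 ≤ w →
  (w : ℝ) ≤ Real.log A ^ E → ∀ H : ℕ,
  ∑ h ∈ Icc 1 H, ∑ a ∈ Icc 1 A, (g2 F (a : ℕ) ((a + h : ℕ) : ℕ) w) ^ 2 ≤ C * (A * H)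

end Run7.h994.PR
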