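import Mathlib
import Pool.Agent.Run7.h994.PR.Stm
import Pool.Agent.H262R2.UK.Basic

/-!
Project PR, piece FM2 (helper994), part a: combinatorics of windows.
-/

set_option autoImplicit false

namespace Run7.h994.PR

open Finset Filter Topology
open scoped Polynomial

lemma sum_ref (R : ℕ → ℝ) (H : ℕ) : ∑ j ∈ range H, R (H - j) = ∑ h ∈ Icc 1 H, R h := by
  apply Finset.sum_nbij' (fun j => H - j) (fun h => H - h)
  · intro j hj
    rw [Finset.mem_range] at hj
    rw [Finset.mem_Icc]
    omega
  · intro h hh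
    rw [Finset.mem_Icc] at hh
    rw [Finset.mem_range]
    omega
  · intro j hj
    rw [Finset.mem_range] at hj
    omega
  · intro h hh
    rw [Finset.mem_Icc] at hh
    omega
  · intro j _
    rfl

lemma double_sum (R : ℕ → ℝ) (H : ℕ) : ∑ i ∈ range H, ∑ j ∈ range H, R ((i - j) + (j - i)) =
    H * R 0 + 2 * ∑ h ∈ Ico 1 H, ((H : ℝ) - h) * R h := by
  induction H with
  | zero => simp
  | succ H ih =>
    have e1 : ∑ i ∈ range (H + 1), ∑ j ∈ range (H + 1), R ((i - j) + (j - i)) =
        ∑ i ∈ range H, ∑ j ∈ range H, R ((i - j) + (j - i)) + 2 * ∑ j ∈ range H, R (H - j) + R 0 := by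
      rw [Finset.sum_range_succ]
      have h1 : ∀ i ∈ range H, ∑ j ∈ range (H + 1), R ((i - j) + (j - i)) =
          ∑ j ∈ range H, R ((i - j) + (j - i)) + R (H - i) := by
        intro i hi
        rw [Finset.mem_range] at hi
        rw [Finset.sum_range_succ]
        congr 2
        omega
      rw [Finset.sum_congr rfl h1, Finset.sum_add_distrib, Finset.sum_range_succ]
      have h2 : ∑ j ∈ range H, R ((H - j) + (j - H)) = ∑ j ∈ range H, R (H - j) := by
        apply Finset.sum_congr rfl
        intro j hj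
        rw [Finset.mem_range] at hj
        congr 1
        omega
      rw [h2]
      simp only [Nat.sub_self, Nat.add_zero]
      ring
    rw [e1, ih, sum_ref]
    have h3 : ∑ h ∈ Ico 1 (H + 1), (((H + 1 : ℕ) : ℝ) - h) * R h =
        ∑ h ∈ Ico 1 H, ((H : ℝ) - h) * R h + ∑ h ∈ Icc 1 H, R h := by
      have h4 : Ico 1 (H + 1) = Icc 1 H := by
        ext x
        rw [Finset.mem_Ico, Finset.mem_Icc]
        omega
      have h5 : ∑ h ∈ Ico 1 H, ((H : ℝ) - h) * R h = ∑ h ∈ Icc 1 H, ((H : ℝ) - h) * R h := by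
        rcases Nat.eq_zero_or_pos H with h0 | h0
        · subst h0; simp
        · have h6 : Icc 1 H = insert H (Ico 1 H) := by
            ext x
            rw [Finset.mem_insert, Finset.mem_Ico, Finset.mem_Icc]
            omega
          rw [h6, Finset.sum_insert (by rw [Finset.mem_Ico]; omega)]
          simp
      rw [h4, h5, ← Finset.sum_add_distrib]
      apply Finset.sum_congr rfl
      intro h _
      push_cast
      ring
    rw [h3]
    push_cast
    ring

/-- the second moment over the windows, from above -/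
lemma window_sq (f : ℕ → ℝ) (hf : ∀ a, 0 ≤ f a) (Y H A : ℕ) (hA : Y + H ≤ A) :
    ∑ y ∈ range Y, (∑ j ∈ range H, f (y + 1 + j)) ^ 2 ≤
      H * ∑ a ∈ Icc 1 A, f a * f a + 2 * ∑ h ∈ Ico 1 H, ((H : ℝ) - h) * ∑ a ∈ Icc 1 A, f a * f (a + h) := by
  obtain ⟨R, hR⟩ : ∃ R : ℕ → ℝ, R = fun h => ∑ a ∈ Icc 1 A, f a * f (a + h) := ⟨_, rfl⟩
  have key : ∀ i < H, ∀ j < H, ∑ y ∈ range Y, f (y + 1 + i) * f (y + 1 + j) ≤ R ((i - j) + (j - i)) := by
    have key2 : ∀ i < H, ∀ j < H, i ≤ j → ∑ y ∈ range Y, f (y + 1 + i) * f (y + 1 + j) ≤ R (j - i) := by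
      intro i hi j hj hij
      rw [hR]
      simp only
      have h1 : ∑ y ∈ range Y, f (y + 1 + i) * f (y + 1 + j) =
          ∑ a ∈ (range Y).image (fun y => y + 1 + i), f a * f (a + (j - i)) := by
        rw [Finset.sum_image (by
          intro x _ y _ h
          simp only at h
          omega)]
        apply Finset.sum_congr rfl
        intro y _
        congr 2
        omega
      rw [h1]
      apply Finset.sum_le_sum_of_subset_of_nonneg
      · intro a ha
        rw [Finset.mem_image] at ha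
        obtain ⟨y, hy, rfl⟩ := ha
        rw [Finset.mem_range] at hy
        rw [Finset.mem_Icc]
        omega
      · intro a _ _
        exact mul_nonneg (hf _) (hf _)
    intro i hi j hj
    rcases le_total i j with h | h
    · have := key2 i hi j hj h
      have e : (i - j) + (j - i) = j - i := by omega
      rw [e]
      exact this
    · have := key2 j hj i hi h
      have e : (i - j) + (j - i) = i - j := by omega
      rw [e]
      refine le_trans (le_of_eq ?_) this
      apply Finset.sum_congr rfl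
      intro y _
      ring
  have h1 : ∑ y ∈ range Y, (∑ j ∈ range H, f (y + 1 + j)) ^ 2 =
      ∑ i ∈ range H, ∑ j ∈ range H, ∑ y ∈ range Y, f (y + 1 + i) * f (y + 1 + j) := by
    calc ∑ y ∈ range Y, (∑ j ∈ range H, f (y + 1 + j)) ^ 2
        = ∑ y ∈ range Y, ∑ i ∈ range H, ∑ j ∈ range H, f (y + 1 + i) * f (y + 1 + j) := by
          apply Finset.sum_congr rfl
          intro y _
          rw [pow_two, Finset.sum_mul_sum]
      _ = _ := by
          rw [Finset.sum_comm]
          apply Finset.sum_congr rfl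
          intro i _
          rw [Finset.sum_comm]
  rw [h1]
  have h2 : ∑ i ∈ range H, ∑ j ∈ range H, ∑ y ∈ range Y, f (y + 1 + i) * f (y + 1 + j) ≤
      ∑ i ∈ range H, ∑ j ∈ range H, R ((i - j) + (j - i)) := by
    apply Finset.sum_le_sum
    intro i hi
    apply Finset.sum_le_sum
    intro j hj
    rw [Finset.mem_range] at hi hj
    exact key i hi j hj
  refine h2.trans (le_of_eq ?_)
  rw [double_sum, hR]
  simp

/-- the first moment over the windows, from below -/
lemma window_one (f : ℕ → ℝ) (hf : ∀ a, 0 ≤ f a) (Y H : ℕ) :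
    H * (∑ a ∈ Icc 1 Y, f a - ∑ a ∈ Icc 1 H, f a) ≤ ∑ y ∈ range Y, ∑ j ∈ range H, f (y + 1 + j) := by
  rw [Finset.sum_comm]
  have h1 : ∀ j ∈ range H, ∑ a ∈ Icc 1 Y, f a - ∑ a ∈ Icc 1 H, f a ≤ ∑ y ∈ range Y, f (y + 1 + j) := by
    intro j hj
    rw [Finset.mem_range] at hj
    have h2 : ∑ y ∈ range Y, f (y + 1 + j) = ∑ a ∈ (range Y).image (fun y => y + 1 + j), f a := by
      rw [Finset.sum_image (by
        intro x _ y _ h
        simp only at h
        omega)]
    rw [h2, sub_le_iff_le_add]
    have h3 : Icc 1 Y ⊆ (range Y).image (fun y => y + 1 + j) ∪ Icc 1 H := by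
      intro a ha
      rw [Finset.mem_Icc] at ha
      rw [Finset.mem_union, Finset.mem_image, Finset.mem_Icc]
      by_cases h : a ≤ H
      · right; omega
      · left
        refine ⟨a - 1 - j, ?_, by omega⟩
        rw [Finset.mem_range]
        omega
    calc ∑ a ∈ Icc 1 Y, f a ≤ ∑ a ∈ (range Y).image (fun y => y + 1 + j) ∪ Icc 1 H, f a :=
          Finset.sum_le_sum_of_subset_of_nonneg h3 (fun a _ _ => hf a)
      _ ≤ _ := by
          rw [← Finset.sum_union_inter]
          have : 0 ≤ ∑ a ∈ (range Y).image (fun y => y + 1 + j) ∩ Icc 1 H, f a :=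
            Finset.sum_nonneg (fun a _ => hf a)
          linarith
  calc (H : ℝ) * (∑ a ∈ Icc 1 Y, f a - ∑ a ∈ Icc 1 H, f a) =
        ∑ j ∈ range H, (∑ a ∈ Icc 1 Y, f a - ∑ a ∈ Icc 1 H, f a) := by
        rw [Finset.sum_const, Finset.card_range, nsmul_eq_mul]
    _ ≤ _ := Finset.sum_le_sum h1

end Run7.h994.PR
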