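import Mathlib
import Pool.Agent.Run7.h994.PR.FMa

/-!
Project PR, piece FM2 (helper994): lower bound for the pairs on average.
-/

set_option autoImplicit false

namespace Run7.h994.PR

open Finset Filter Topology
open scoped Polynomial

lemma bt_int : ∃ C : ℝ, 0 < C ∧ ∃ x₀ : ℕ, ∀ H : ℕ, x₀ ≤ H → ∀ m : ℤ,
    (#((Icc 1 H).filter (fun a : ℕ => Nat.Prime (m + a).toNat)) : ℝ) ≤ C * H / Real.log H := by
  obtain ⟨C, hC, x₀, h⟩ := Pool.Agent.H262R2.UK.bt
  refine ⟨C, hC, x₀, fun H hH m => ?_⟩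
  rcases le_total 0 m with hm | hm
  · have h1 := h H hH m.toNat
    refine le_trans (le_of_eq ?_) h1
    congr 2
    apply Finset.filter_congr
    intro a _
    have : (m + a).toNat = a + m.toNat := by omega
    rw [this]
  · refine le_trans ?_ (h H hH 0)
    have h2 : #((Icc 1 H).filter (fun a : ℕ => Nat.Prime (m + a).toNat)) ≤
        #((Icc 1 H).filter (fun n : ℕ => Nat.Prime (n + 0))) := by
      apply Finset.card_le_card_of_injOn (fun a : ℕ => (m + a).toNat)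
      · intro a ha
        rw [Finset.mem_coe, Finset.mem_filter, Finset.mem_Icc] at ha
        have h3 := ha.2.two_le
        have h4 : 1 ≤ (m + (a : ℤ)).toNat ∧ (m + (a : ℤ)).toNat ≤ H := by omega
        rw [Finset.mem_coe, Finset.mem_filter, Finset.mem_Icc]
        refine ⟨h4, ?_⟩
        simpa using ha.2
      · intro a ha b hb hab
        rw [Finset.mem_coe, Finset.mem_filter, Finset.mem_Icc] at ha hb
        have h3 := ha.2.two_le
        have h4 := hb.2.two_le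
        simp only at hab
        omega
    exact_mod_cast h2

/-- the indicator of the primes -/
noncomputable def fi (F : ℤ[X]) (n a : ℕ) : ℝ := if Nat.Prime (F.eval (n : ℤ) + a).toNat then 1 else 0

lemma fi_nonneg (F : ℤ[X]) (n a : ℕ) : 0 ≤ fi F n a := by
  unfold fi
  split_ifs <;> norm_num

lemma fi_sq (F : ℤ[X]) (n a : ℕ) : fi F n a * fi F n a = fi F n a := by
  unfold fi
  split_ifs <;> norm_num

lemma fi_le_one (F : ℤ[X]) (n a : ℕ) : fi F n a ≤ 1 := by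
  unfold fi
  split_ifs <;> norm_num

lemma P_eq (F : ℤ[X]) (a N : ℕ) : (Run7.h462.BPD.P F a N : ℝ) = ∑ n ∈ Icc 1 N, fi F n a := by
  unfold Run7.h462.BPD.P fi
  rw [Finset.card_filter]
  push_cast
  rfl

lemma P2_eq (F : ℤ[X]) (a b N : ℕ) : (P2 F a b N : ℝ) = ∑ n ∈ Icc 1 N, fi F n a * fi F n b := by
  unfold P2 fi
  rw [Finset.card_filter]
  push_cast
  apply Finset.sum_congr rfl
  intro n _
  by_cases h1 : Nat.Prime (F.eval (n : ℤ) + a).toNat <;> by_cases h2 : Nat.Prime (F.eval (n : ℤ) + b).toNat <;>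
    simp [h1, h2]

lemma sum_P_le (F : ℤ[X]) : ∃ C : ℝ, 0 < C ∧ ∃ N₀ : ℕ, ∀ N : ℕ, N₀ ≤ N → ∀ H : ℕ, (N : ℝ) ^ (1 / 4 : ℝ) ≤ H →
    ∑ a ∈ Icc 1 H, (Run7.h462.BPD.P F a N : ℝ) ≤ C * (N * H / Real.log N) := by
  obtain ⟨C, hC, x₀, h⟩ := bt_int
  have tend : Tendsto (fun X : ℕ => (X : ℝ) ^ (1 / 4 : ℝ)) atTop atTop :=
    (tendsto_rpow_atTop (by norm_num)).comp tendsto_natCast_atTop_atTop
  obtain ⟨N₀, hN₀⟩ := eventually_atTop.1 (tend.eventually_ge_atTop (x₀ : ℝ))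
  refine ⟨4 * C, by positivity, N₀ + 2, fun N hN H hH => ?_⟩
  have h1 := hN₀ N (by omega)
  have hN2 : (2 : ℝ) ≤ N := by exact_mod_cast (show 2 ≤ N by omega)
  have hN0 : (0 : ℝ) < N := by linarith
  have hlogN : 0 < Real.log N := Real.log_pos (by linarith)
  have hx : x₀ ≤ H := by exact_mod_cast h1.trans hH
  have hH1 : (1 : ℝ) < (N : ℝ) ^ (1 / 4 : ℝ) := Real.one_lt_rpow (by linarith) (by norm_num)
  have hH0 : (0 : ℝ) < H := by linarith
  have hlogH : 1 / 4 * Real.log N ≤ Real.log H := by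
    have := Real.log_le_log (by linarith) hH
    rwa [Real.log_rpow hN0] at this
  have hswap : ∑ a ∈ Icc 1 H, (Run7.h462.BPD.P F a N : ℝ) =
      ∑ n ∈ Icc 1 N, (#((Icc 1 H).filter (fun a : ℕ => Nat.Prime (F.eval (n : ℤ) + a).toNat)) : ℝ) := by
    simp only [P_eq]
    rw [Finset.sum_comm]
    apply Finset.sum_congr rfl
    intro n _
    rw [Finset.card_filter]
    push_cast
    rfl
  rw [hswap]
  calc ∑ n ∈ Icc 1 N, (#((Icc 1 H).filter (fun a : ℕ => Nat.Prime (F.eval (n : ℤ) + a).toNat)) : ℝ)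
      ≤ ∑ n ∈ Icc 1 N, 4 * C * (H / Real.log N) := by
        apply Finset.sum_le_sum
        intro n _
        refine (h H hx (F.eval (n : ℤ))).trans ?_
        calc C * H / Real.log H ≤ C * H / (1 / 4 * Real.log N) := by gcongr
          _ = 4 * C * (H / Real.log N) := by field_simp
    _ = 4 * C * (N * H / Real.log N) := by
        rw [Finset.sum_const, Nat.card_Icc, nsmul_eq_mul, Nat.add_sub_cancel]
        ring

lemma fm2_alg (η A H Y N U V T1 T2 D X S : ℝ) (hη : 0 < η) (hη1 : η < 1) (hA : 0 < A) (hN : 0 < N) (hH : 0 ≤ H)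
    (hYA : Y ≤ A) (hU : 0 ≤ U) (hUV : U ^ 2 = A * N * V)
    (hT1 : H * (U * (1 - η / 4)) ≤ T1) (hCS : T1 ^ 2 ≤ (N * Y) * T2)
    (hT2 : T2 ≤ H * D + 2 * X) (hD : H * D ≤ η / 2 * (H ^ 2 * V)) (hT20 : 0 ≤ T2) (hS : S = (1 - η) * (H ^ 2 / 2 * V)) :
    S ≤ X := by
  have hu : 0 ≤ U * (1 - η / 4) := mul_nonneg hU (by linarith)
  have h1 : (H * (U * (1 - η / 4))) ^ 2 ≤ (N * A) * T2 := by
    calc (H * (U * (1 - η / 4))) ^ 2 ≤ T1 ^ 2 := by
          apply pow_le_pow_left₀ (mul_nonneg hH hu) hT1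
      _ ≤ (N * Y) * T2 := hCS
      _ ≤ (N * A) * T2 := by gcongr
  have h2 : (H * (U * (1 - η / 4))) ^ 2 = (N * A) * (H ^ 2 * V * (1 - η / 4) ^ 2) := by
    calc (H * (U * (1 - η / 4))) ^ 2 = H ^ 2 * U ^ 2 * (1 - η / 4) ^ 2 := by ring
      _ = H ^ 2 * (A * N * V) * (1 - η / 4) ^ 2 := by rw [hUV]
      _ = _ := by ring
  rw [h2] at h1
  have h3 : H ^ 2 * V * (1 - η / 4) ^ 2 ≤ T2 := le_of_mul_le_mul_left h1 (by positivity)
  have hV : 0 ≤ V := by
    by_contra hcon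
    push Not at hcon
    have : A * N * V < 0 := by
      apply mul_neg_of_pos_of_neg (by positivity) hcon
    have h5 : 0 ≤ U ^ 2 := sq_nonneg U
    linarith
  have hHV : 0 ≤ H ^ 2 * V := by positivity
  have h4 : (1 - η / 2) ≤ (1 - η / 4) ^ 2 := by nlinarith [sq_nonneg η]
  have h5 : (H ^ 2 * V) * (1 - η / 2) ≤ (H ^ 2 * V) * (1 - η / 4) ^ 2 := mul_le_mul_of_nonneg_left h4 hHV
  rw [hS]
  nlinarith

theorem fm2 {F : ℤ[X]} (h2 : 2 ≤ F.natDegree) (hFM : Run7.h462.BPD.S_FM F) : S_FM2 F := by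
  intro η hη
  rcases le_or_gt 1 η with hη1 | hη1
  · refine ⟨1, 1, one_pos, one_pos, fun ε hε => ⟨0, fun N _ A H _ _ _ _ => ?_⟩⟩
    have h1 : (1 - η) * (A * ((H : ℝ) ^ 2 / 2) * (N / (F.natDegree * Real.log N) ^ 2)) ≤ 0 := by
      apply mul_nonpos_of_nonpos_of_nonneg (by linarith)
      positivity
    refine h1.trans (Finset.sum_nonneg fun h hh => ?_)
    rw [Finset.mem_Ico] at hh
    have : (h : ℝ) ≤ H := by exact_mod_cast hh.2.le
    exact mul_nonneg (by linarith) (Finset.sum_nonneg fun _ _ => Nat.cast_nonneg _)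
  obtain ⟨C, hC, NB, hB⟩ := sum_P_le F
  obtain ⟨d, hd⟩ : ∃ d : ℝ, d = F.natDegree := ⟨_, rfl⟩
  have hd2 : 2 ≤ d := by rw [hd]; exact_mod_cast h2
  have hd0 : 0 < d := by linarith
  obtain ⟨c₁, hc₁, hF⟩ := hFM (η / 12) (by positivity)
  obtain ⟨c₀, hc₀⟩ : ∃ c₀, c₀ = min c₁ (min (η / 12) (η / (24 * d * C))) := ⟨_, rfl⟩
  have hc₀0 : 0 < c₀ := by
    rw [hc₀]
    refine lt_min hc₁ (lt_min (by positivity) (by positivity))
  have hc₀1 : c₀ ≤ c₁ := by rw [hc₀]; exact min_le_left _ _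
  have hc₀2 : c₀ ≤ η / 12 := by rw [hc₀]; exact (min_le_right _ _).trans (min_le_left _ _)
  have hc₀3 : c₀ ≤ η / (24 * d * C) := by rw [hc₀]; exact (min_le_right _ _).trans (min_le_right _ _)
  refine ⟨c₀, 2 * C * d ^ 2 / η, hc₀0, by positivity, fun ε hε => ?_⟩
  obtain ⟨NF, hNF⟩ := hF (ε / 2) (by positivity)
  have tend : ∀ a : ℝ, 0 < a → Tendsto (fun X : ℕ => (X : ℝ) ^ a) atTop atTop := fun a ha =>
    (tendsto_rpow_atTop ha).comp tendsto_natCast_atTop_atTop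
  have ev1 : ∀ᶠ N : ℕ in atTop, (2 : ℝ) ≤ (N : ℝ) ^ (ε / 2) := (tend _ (by positivity)).eventually_ge_atTop _
  have ev2 : ∀ᶠ N : ℕ in atTop, 24 * d / η ≤ Real.log N :=
    (Real.tendsto_log_atTop.comp tendsto_natCast_atTop_atTop).eventually_ge_atTop _
  have ev3 : ∀ᶠ N : ℕ in atTop, Real.log N ^ 2 ≤ (N : ℝ) ^ (1 / 4 : ℝ) := by
    have h := isLittleO_log_rpow_atTop (show (0 : ℝ) < 1 / 8 by norm_num)
    have h2 := h.bound one_pos
    have h3 := tendsto_natCast_atTop_atTop.eventually (h2.and (eventually_ge_atTop (1 : ℝ)))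
    filter_upwards [h3] with N hN
    obtain ⟨g1, g2⟩ := hN
    have g3 : 0 ≤ Real.log (N : ℝ) := Real.log_nonneg g2
    rw [one_mul, Real.norm_of_nonneg g3, Real.norm_of_nonneg (by positivity)] at g1
    calc Real.log N ^ 2 ≤ ((N : ℝ) ^ (1 / 8 : ℝ)) ^ 2 := by gcongr
      _ = (N : ℝ) ^ (1 / 4 : ℝ) := by
          rw [← Real.rpow_natCast, ← Real.rpow_mul (by linarith)]
          norm_num
  obtain ⟨N₀, hN₀⟩ := eventually_atTop.mp (ev1.and (ev2.and ev3))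
  refine ⟨N₀ + NF + NB + 2, fun N hN A H hA1 hA2 hH1 hH2 => ?_⟩
  obtain ⟨g1, g2, g3⟩ := hN₀ N (by omega)
  rw [← hd] at hA1 ⊢
  have hNr : (2 : ℝ) ≤ N := by exact_mod_cast (show 2 ≤ N by omega)
  have hN1 : (1 : ℝ) ≤ N := by linarith
  have hN0 : (0 : ℝ) < N := by linarith
  obtain ⟨L, hL⟩ : ∃ L, L = Real.log N := ⟨_, rfl⟩
  rw [← hL] at g2 g3 hH1 ⊢
  have hL0 : 0 < L := by rw [hL]; exact Real.log_pos (by linarith)
  have hA0 : (0 : ℝ) < A := lt_of_lt_of_le (Real.rpow_pos_of_pos hN0 _) hA1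
  have hAhalf : (N : ℝ) ^ (1 / 2 : ℝ) ≤ A := by
    refine le_trans ?_ hA1
    apply Real.rpow_le_rpow_of_exponent_le hN1
    linarith
  have hH0 : (0 : ℝ) ≤ H := Nat.cast_nonneg _
  have hHA : (H : ℝ) ≤ η / 12 * A := hH2.trans (by gcongr)
  have hHA1 : (H : ℝ) ≤ A := by nlinarith
  have hHAn : H ≤ A := by exact_mod_cast hHA1
  -- Y
  obtain ⟨Y, hY⟩ : ∃ Y, Y = A - H := ⟨_, rfl⟩
  have hYr : (Y : ℝ) = A - H := by rw [hY, Nat.cast_sub hHAn]
  have hYA : Y + H ≤ A := by omega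
  have hYlow : (1 - η / 12) * A ≤ Y := by rw [hYr]; linarith
  have hY2 : (N : ℝ) ^ (3 / 4 * d - 1 + ε / 2) ≤ Y := by
    have h3 : (N : ℝ) ^ (3 / 4 * d - 1 + ε / 2) * (N : ℝ) ^ (ε / 2) ≤ A := by
      rw [← Real.rpow_add hN0]
      refine le_trans (le_of_eq ?_) hA1
      congr 1
      ring
    have h4 : (N : ℝ) ^ (3 / 4 * d - 1 + ε / 2) * 2 ≤ A := by
      refine le_trans ?_ h3
      gcongr
    have h5 : (1 / 2 : ℝ) * A ≤ (1 - η / 12) * A := by
      apply mul_le_mul_of_nonneg_right _ hA0.le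
      linarith
    linarith
  have hY3 : (Y : ℝ) ≤ c₁ * (N : ℝ) ^ (F.natDegree - 1) := by
    have h3 : (Y : ℝ) ≤ A := by rw [hYr]; linarith
    refine h3.trans (hA2.trans ?_)
    gcongr
  have hFY := hNF N (by omega) Y (by rw [← hd]; exact hY2) hY3
  rw [← hd, ← hL] at hFY
  -- the number of the pairs for the small shifts
  have hA14 : (N : ℝ) ^ (1 / 4 : ℝ) ≤ A :=
    (Real.rpow_le_rpow_of_exponent_le hN1 (by norm_num)).trans hAhalf
  have hPA := hB N (by omega) A hA14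
  rw [← hL] at hPA
  obtain ⟨U, hU⟩ : ∃ U, U = A * N / (d * L) := ⟨_, rfl⟩
  have hU0 : 0 < U := by rw [hU]; positivity
  have hPH : ∑ a ∈ Icc 1 H, (Run7.h462.BPD.P F a N : ℝ) ≤ η / 24 * U := by
    rcases le_total (H : ℝ) (A / L ^ 2) with h | h
    · calc ∑ a ∈ Icc 1 H, (Run7.h462.BPD.P F a N : ℝ) ≤ ∑ a ∈ Icc 1 H, (N : ℝ) := by
            apply Finset.sum_le_sum
            intro a _
            rw [P_eq]
            calc ∑ n ∈ Icc 1 N, fi F n a ≤ ∑ n ∈ Icc 1 N, (1 : ℝ) :=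
                  Finset.sum_le_sum fun n _ => fi_le_one F n a
              _ = N := by simp
        _ = H * N := by rw [Finset.sum_const, Nat.card_Icc, nsmul_eq_mul, Nat.add_sub_cancel]
        _ ≤ (A / L ^ 2) * N := by gcongr
        _ = (d / L) * U := by rw [hU]; field_simp
        _ ≤ η / 24 * U := by
            apply mul_le_mul_of_nonneg_right _ hU0.le
            rw [div_le_iff₀ hL0]
            rw [div_le_iff₀ hη] at g2
            linarith
    · have hH14 : (N : ℝ) ^ (1 / 4 : ℝ) ≤ H := by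
        refine le_trans ?_ h
        rw [le_div_iff₀ (by positivity)]
        calc (N : ℝ) ^ (1 / 4 : ℝ) * L ^ 2 ≤ (N : ℝ) ^ (1 / 4 : ℝ) * (N : ℝ) ^ (1 / 4 : ℝ) := by gcongr
          _ = (N : ℝ) ^ (1 / 2 : ℝ) := by rw [← Real.rpow_add hN0]; norm_num
          _ ≤ A := hAhalf
      have h3 := hB N (by omega) H hH14
      rw [← hL] at h3
      calc ∑ a ∈ Icc 1 H, (Run7.h462.BPD.P F a N : ℝ) ≤ C * (N * H / L) := h3
        _ ≤ C * (N * (c₀ * A) / L) := by gcongr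
        _ = (c₀ * (d * C)) * U := by rw [hU]; field_simp
        _ ≤ η / 24 * U := by
            apply mul_le_mul_of_nonneg_right _ hU0.le
            calc c₀ * (d * C) ≤ (η / (24 * d * C)) * (d * C) := by gcongr
              _ = η / 24 := by field_simp
  have hPY : (1 - η / 6) * U ≤ ∑ a ∈ Icc 1 Y, (Run7.h462.BPD.P F a N : ℝ) := by
    refine le_trans ?_ hFY
    have h3 : (1 - η / 12) * U ≤ Y * N / (d * L) := by
      rw [hU]
      calc (1 - η / 12) * (A * N / (d * L)) = ((1 - η / 12) * A) * N / (d * L) := by ring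
        _ ≤ Y * N / (d * L) := by gcongr
    calc (1 - η / 6) * U ≤ (1 - η / 12) * ((1 - η / 12) * U) := by
          have h6 : 0 ≤ η ^ 2 / 144 * U := by positivity
          have h7 : (1 - η / 12) * ((1 - η / 12) * U) = (1 - η / 6) * U + η ^ 2 / 144 * U := by ring
          linarith
      _ ≤ (1 - η / 12) * (Y * N / (d * L)) := by
          apply mul_le_mul_of_nonneg_left h3
          linarith
  -- first and second moment
  obtain ⟨T1, hT1⟩ : ∃ T1, T1 = ∑ n ∈ Icc 1 N, ∑ y ∈ range Y, ∑ j ∈ range H, fi F n (y + 1 + j) := ⟨_, rfl⟩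
  obtain ⟨T2, hT2⟩ : ∃ T2, T2 = ∑ n ∈ Icc 1 N, ∑ y ∈ range Y, (∑ j ∈ range H, fi F n (y + 1 + j)) ^ 2 := ⟨_, rfl⟩
  have hT1low : H * (U * (1 - η / 4)) ≤ T1 := by
    have h3 : ∑ n ∈ Icc 1 N, (H : ℝ) * (∑ a ∈ Icc 1 Y, fi F n a - ∑ a ∈ Icc 1 H, fi F n a) ≤ T1 := by
      rw [hT1]
      exact Finset.sum_le_sum fun n _ => window_one (fi F n) (fi_nonneg F n) Y H
    refine le_trans ?_ h3
    rw [← Finset.mul_sum, Finset.sum_sub_distrib]
    apply mul_le_mul_of_nonneg_left _ hH0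
    have e1 : ∑ n ∈ Icc 1 N, ∑ a ∈ Icc 1 Y, fi F n a = ∑ a ∈ Icc 1 Y, (Run7.h462.BPD.P F a N : ℝ) := by
      rw [Finset.sum_comm]
      exact Finset.sum_congr rfl fun a _ => (P_eq F a N).symm
    have e2 : ∑ n ∈ Icc 1 N, ∑ a ∈ Icc 1 H, fi F n a = ∑ a ∈ Icc 1 H, (Run7.h462.BPD.P F a N : ℝ) := by
      rw [Finset.sum_comm]
      exact Finset.sum_congr rfl fun a _ => (P_eq F a N).symm
    rw [e1, e2]
    nlinarith
  have hCS : T1 ^ 2 ≤ (N * Y) * T2 := by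
    have h3 := sq_sum_le_card_mul_sum_sq (s := Icc 1 N ×ˢ range Y)
      (f := fun q : ℕ × ℕ => ∑ j ∈ range H, fi F q.1 (q.2 + 1 + j))
    rw [Finset.sum_product, Finset.sum_product, Finset.card_product, Nat.card_Icc, Finset.card_range,
      Nat.add_sub_cancel] at h3
    rw [hT1, hT2]
    push_cast at h3
    exact h3
  have hT20 : 0 ≤ T2 := by
    rw [hT2]
    exact Finset.sum_nonneg fun n _ => Finset.sum_nonneg fun y _ => sq_nonneg _
  obtain ⟨X, hX⟩ : ∃ X, X = ∑ h ∈ Ico 1 H, ((H : ℝ) - h) * ∑ a ∈ Icc 1 A, (P2 F a (a + h) N : ℝ) := ⟨_, rfl⟩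
  obtain ⟨D, hD⟩ : ∃ D, D = ∑ a ∈ Icc 1 A, (Run7.h462.BPD.P F a N : ℝ) := ⟨_, rfl⟩
  have hT2up : T2 ≤ H * D + 2 * X := by
    have h3 : T2 ≤ ∑ n ∈ Icc 1 N, (H * ∑ a ∈ Icc 1 A, fi F n a * fi F n a +
        2 * ∑ h ∈ Ico 1 H, ((H : ℝ) - h) * ∑ a ∈ Icc 1 A, fi F n a * fi F n (a + h)) := by
      rw [hT2]
      exact Finset.sum_le_sum fun n _ => window_sq (fi F n) (fi_nonneg F n) Y H A hYA
    refine h3.trans (le_of_eq ?_)
    rw [Finset.sum_add_distrib, ← Finset.mul_sum, ← Finset.mul_sum, hD, hX]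
    congr 1
    · congr 1
      rw [Finset.sum_comm]
      apply Finset.sum_congr rfl
      intro a _
      rw [P_eq]
      exact Finset.sum_congr rfl fun n _ => fi_sq F n a
    · congr 1
      rw [Finset.sum_comm]
      apply Finset.sum_congr rfl
      intro h _
      rw [← Finset.mul_sum, Finset.sum_comm]
      congr 1
      apply Finset.sum_congr rfl
      intro a _
      rw [P2_eq]
  obtain ⟨V, hV⟩ : ∃ V, V = A * (N / (d * L) ^ 2) := ⟨_, rfl⟩
  have hDle : H * D ≤ η / 2 * ((H : ℝ) ^ 2 * V) := by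
    have h3 : (C * d ^ 2) * L ≤ η / 2 * H := by
      have h5 : 2 * C * d ^ 2 * L ≤ H * η := by
        rw [div_mul_eq_mul_div, div_le_iff₀ hη] at hH1
        exact hH1
      linarith
    have hAN : 0 ≤ (A : ℝ) * N / (d * L) ^ 2 := by positivity
    calc (H : ℝ) * D ≤ H * (C * (N * A / L)) := by
          apply mul_le_mul_of_nonneg_left _ hH0
          rw [hD]
          exact hPA
      _ = H * (((C * d ^ 2) * L) * (A * N / (d * L) ^ 2)) := by
          field_simp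
      _ ≤ H * ((η / 2 * H) * (A * N / (d * L) ^ 2)) := by
          apply mul_le_mul_of_nonneg_left _ hH0
          exact mul_le_mul_of_nonneg_right h3 hAN
      _ = η / 2 * ((H : ℝ) ^ 2 * V) := by rw [hV]; ring
  rw [← hX]
  refine fm2_alg η A H Y N U V T1 T2 D X _ hη hη1 hA0 hN0 hH0 (by rw [hYr]; linarith) hU0.le ?_
    hT1low hCS hT2up hDle hT20 ?_
  · rw [hU, hV]
    field_simp
  · rw [hV]
    ring

end Run7.h994.PR
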