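import Pool.Agent.Run7.h994.PR.Stm

/-!
Project PR, piece TW (helper994): the weighted average of the truncated singular series of the prime pairs.
-/

set_option autoImplicit false

namespace Run7.h994.PR

open Finset
open Pool.Agent.H373R2.T7 (pz mem_pz)

lemma sum_mult_aux (H k M : ℕ) : ∑ m ∈ Icc 1 M, ((H : ℝ) - k * m) = M * H - k * (M * (M + 1) / 2) := by
  induction M with
  | zero => simp
  | succ M ih =>
    rw [sum_Icc_succ_top (by omega), ih]
    push_cast
    ring

lemma sum_mult (H k : ℕ) (hk : 0 < k) :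
    ∑ h ∈ (Ico 1 H).filter (fun h => k ∣ h), ((H : ℝ) - h) ≤ (H : ℝ) ^ 2 / (2 * k) := by
  classical
  have hk0 : (0 : ℝ) < k := by exact_mod_cast hk
  have h1 : (Ico 1 H).filter (fun h => k ∣ h) ⊆ (Icc 1 ((H - 1) / k)).image (fun m => k * m) := by
    intro h hh
    rw [mem_filter, mem_Ico] at hh
    obtain ⟨⟨h2, h3⟩, m, rfl⟩ := hh
    rw [mem_image]
    refine ⟨m, ?_, rfl⟩
    rw [mem_Icc]
    constructor
    · rcases Nat.eq_zero_or_pos m with h4 | h4
      · subst h4; omega
      · exact h4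
    · rw [Nat.le_div_iff_mul_le hk]
      rw [mul_comm]
      omega
  have h2 : ∑ h ∈ (Ico 1 H).filter (fun h => k ∣ h), ((H : ℝ) - h) ≤
      ∑ h ∈ (Icc 1 ((H - 1) / k)).image (fun m => k * m), ((H : ℝ) - h) := by
    apply sum_le_sum_of_subset_of_nonneg h1
    intro h hh _
    rw [mem_image] at hh
    obtain ⟨m, hm, rfl⟩ := hh
    rw [mem_Icc] at hm
    have h3 := (Nat.le_div_iff_mul_le hk).1 hm.2
    rw [mul_comm] at h3
    have h4 : ((k * m : ℕ) : ℝ) ≤ H := by exact_mod_cast (by omega : k * m ≤ H)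
    linarith
  refine h2.trans ?_
  rw [sum_image (by
    intro a _ b _ hab
    exact Nat.eq_of_mul_eq_mul_left hk hab)]
  push_cast
  rw [sum_mult_aux]
  obtain ⟨M, hM⟩ : ∃ M : ℝ, M = (((H - 1) / k : ℕ) : ℝ) := ⟨_, rfl⟩
  rw [← hM]
  have hM0 : 0 ≤ M := by rw [hM]; exact Nat.cast_nonneg _
  rw [le_div_iff₀ (by positivity)]
  nlinarith [sq_nonneg ((H : ℝ) - k * M), mul_nonneg hk0.le hM0, mul_nonneg (mul_nonneg hk0.le hk0.le) hM0]

/-- the factor for an odd prime -/
noncomputable def uu (p : ℕ) : ℝ := (1 - 2 / (p : ℝ)) / (1 - 1 / (p : ℝ)) ^ 2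

lemma uu_nonneg {p : ℕ} (hp : 3 ≤ p) : 0 ≤ uu p := by
  have h3 : (3 : ℝ) ≤ p := by exact_mod_cast hp
  unfold uu
  apply div_nonneg
  · rw [sub_nonneg, div_le_one (by linarith)]
    linarith
  · positivity

lemma fac_odd (h p : ℕ) (hp : 3 ≤ p) : (1 - (nu h p : ℝ) / p) / (1 - 1 / (p : ℝ)) ^ 2 =
    uu p * (1 + if p ∣ h then 1 / ((p : ℝ) - 2) else 0) := by
  have h3 : (3 : ℝ) ≤ p := by exact_mod_cast hp
  have hp0 : (p : ℝ) ≠ 0 := by linarith
  have hp1 : (p : ℝ) - 1 ≠ 0 := by linarith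
  have hp2 : (p : ℝ) - 2 ≠ 0 := by linarith
  have e1 : 1 - 1 / (p : ℝ) = ((p : ℝ) - 1) / p := by field_simp
  unfold nu uu
  rw [e1]
  split_ifs with hd
  · push_cast
    field_simp
    ring
  · push_cast
    rw [add_zero, mul_one]

lemma fac_two (h : ℕ) : (1 - (nu h 2 : ℝ) / (2 : ℕ)) / (1 - 1 / ((2 : ℕ) : ℝ)) ^ 2 = if 2 ∣ h then 2 else 0 := by
  unfold nu
  split_ifs with hd <;> norm_num

lemma uu_one (p : ℕ) (hp : 3 ≤ p) : uu p * (1 + 1 / ((p : ℝ) - 2) * (1 / p)) = 1 := by
  have h3 : (3 : ℝ) ≤ p := by exact_mod_cast hp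
  have hp0 : (p : ℝ) ≠ 0 := by linarith
  have hp1 : (p : ℝ) - 1 ≠ 0 := by linarith
  have hp2 : (p : ℝ) - 2 ≠ 0 := by linarith
  have e1 : 1 - 1 / (p : ℝ) = ((p : ℝ) - 1) / p := by field_simp
  have e2 : 1 - 2 / (p : ℝ) = ((p : ℝ) - 2) / p := by field_simp
  unfold uu
  rw [e1, e2]
  field_simp
  ring

theorem s_TW : S_TW := by
  classical
  intro H w hw
  obtain ⟨T, hT⟩ : ∃ T, T = (pz w).erase 2 := ⟨_, rfl⟩
  have h2m : 2 ∈ pz w := mem_pz.2 ⟨hw, Nat.prime_two⟩
  have hT3 : ∀ p ∈ T, 3 ≤ p ∧ p.Prime := by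
    intro p hp
    rw [hT, mem_erase, mem_pz] at hp
    have := hp.2.2.two_le
    exact ⟨by omega, hp.2.2⟩
  obtain ⟨x, hx⟩ : ∃ x : ℕ → ℝ, x = fun p : ℕ => 1 / ((p : ℝ) - 2) := ⟨_, rfl⟩
  have hx0 : ∀ p ∈ T, 0 ≤ x p := by
    intro p hp
    have h3 : (3 : ℝ) ≤ p := by exact_mod_cast (hT3 p hp).1
    rw [hx]
    have : (0 : ℝ) < p - 2 := by linarith
    positivity
  obtain ⟨U, hU⟩ : ∃ U : ℝ, U = ∏ p ∈ T, uu p := ⟨_, rfl⟩
  have hU0 : 0 ≤ U := by
    rw [hU]
    exact prod_nonneg fun p hp => uu_nonneg (hT3 p hp).1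
  -- the expansion
  have htw : ∀ h : ℕ, tw h w ≤ 2 * U * ∑ S ∈ T.powerset, (∏ p ∈ S, x p) * (if 2 * ∏ p ∈ S, p ∣ h then 1 else 0) := by
    intro h
    have e1 : tw h w = (if 2 ∣ h then 2 else 0) * (U * ∏ p ∈ T, (1 + if p ∣ h then x p else 0)) := by
      unfold tw
      rw [← mul_prod_erase _ _ h2m, ← hT, fac_two, hU, ← prod_mul_distrib]
      congr 1
      apply prod_congr rfl
      intro p hp
      rw [fac_odd h p (hT3 p hp).1, hx]
    rw [e1]
    split_ifs with h2
    · rw [mul_assoc]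
      apply mul_le_mul_of_nonneg_left _ (by norm_num)
      apply mul_le_mul_of_nonneg_left _ hU0
      rw [prod_one_add]
      apply sum_le_sum
      intro S hS
      rw [mem_powerset] at hS
      by_cases hd : ∀ p ∈ S, p ∣ h
      · have hdvd : 2 * ∏ p ∈ S, p ∣ h := by
          have h2S : 2 ∉ S := by
            intro hc
            have := (hT3 2 (hS hc)).1
            omega
          have e2 : 2 * ∏ p ∈ S, p = ∏ p ∈ insert 2 S, p := (prod_insert (f := fun p : ℕ => p) h2S).symm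
          rw [e2]
          apply Finset.prod_primes_dvd
          · intro a ha
            rw [mem_insert] at ha
            rcases ha with rfl | ha
            · exact Nat.prime_two.prime
            · exact (hT3 a (hS ha)).2.prime
          · intro a ha
            rw [mem_insert] at ha
            rcases ha with rfl | ha
            · exact h2
            · exact hd a ha
        rw [if_pos hdvd, mul_one]
        apply le_of_eq
        apply prod_congr rfl
        intro p hp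
        rw [if_pos (hd p hp)]
      · push Not at hd
        obtain ⟨q, hq1, hq2⟩ := hd
        rw [prod_eq_zero hq1 (if_neg hq2)]
        apply mul_nonneg
        · exact prod_nonneg fun p hp => hx0 p (hS hp)
        · split_ifs <;> norm_num
    · rw [zero_mul]
      apply mul_nonneg (by positivity)
      apply sum_nonneg
      intro S hS
      rw [mem_powerset] at hS
      apply mul_nonneg
      · exact prod_nonneg fun p hp => hx0 p (hS hp)
      · split_ifs <;> norm_num
  calc ∑ h ∈ Ico 1 H, ((H : ℝ) - h) * tw h w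
      ≤ ∑ h ∈ Ico 1 H, ((H : ℝ) - h) * (2 * U * ∑ S ∈ T.powerset, (∏ p ∈ S, x p) * (if 2 * ∏ p ∈ S, p ∣ h then 1 else 0)) := by
        apply sum_le_sum
        intro h hh
        rw [mem_Ico] at hh
        apply mul_le_mul_of_nonneg_left (htw h)
        have : (h : ℝ) ≤ H := by exact_mod_cast hh.2.le
        linarith
    _ = 2 * U * ∑ S ∈ T.powerset, (∏ p ∈ S, x p) * ∑ h ∈ (Ico 1 H).filter (fun h => 2 * ∏ p ∈ S, p ∣ h), ((H : ℝ) - h) := by
        rw [mul_sum]
        simp_rw [mul_sum]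
        rw [sum_comm]
        apply sum_congr rfl
        intro S _
        rw [sum_filter]
        apply sum_congr rfl
        intro h _
        split_ifs <;> ring
    _ ≤ 2 * U * ∑ S ∈ T.powerset, (∏ p ∈ S, x p) * ((H : ℝ) ^ 2 / 4 * ∏ p ∈ S, (1 / (p : ℝ))) := by
        apply mul_le_mul_of_nonneg_left _ (by positivity)
        apply sum_le_sum
        intro S hS
        rw [mem_powerset] at hS
        apply mul_le_mul_of_nonneg_left _ (prod_nonneg fun p hp => hx0 p (hS hp))
        have hD : 0 < ∏ p ∈ S, p := prod_pos fun p hp => (hT3 p (hS hp)).2.pos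
        refine (sum_mult H (2 * ∏ p ∈ S, p) (by omega)).trans (le_of_eq ?_)
        have e3 : ∏ p ∈ S, (1 / (p : ℝ)) = 1 / ((∏ p ∈ S, p : ℕ) : ℝ) := by
          push_cast
          rw [prod_div_distrib, prod_const_one]
        rw [e3]
        have hD' : (((∏ p ∈ S, p : ℕ) : ℝ)) ≠ 0 := by exact_mod_cast hD.ne'
        push_cast at hD' ⊢
        field_simp
        norm_num
    _ = (H : ℝ) ^ 2 / 2 * (U * ∑ S ∈ T.powerset, ∏ p ∈ S, (x p * (1 / (p : ℝ)))) := by
        rw [mul_sum, mul_sum, mul_sum]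
        apply sum_congr rfl
        intro S _
        rw [prod_mul_distrib]
        ring
    _ = (H : ℝ) ^ 2 / 2 := by
        rw [← prod_one_add, hU, ← prod_mul_distrib]
        have e4 : ∏ p ∈ T, uu p * (1 + x p * (1 / (p : ℝ))) = 1 := by
          apply prod_eq_one
          intro p hp
          rw [hx]
          exact uu_one p (hT3 p hp).1
        rw [e4, mul_one]

end Run7.h994.PR
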