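import Pool.Agent.Run7.h994.PR.Stm
import Pool.Agent.Run7.h704.BPD.UP

/-!
Project PR, piece UP2 (helper994; adapted from `Pool/Agent/Run7/h704/BPD/UP.lean` of helper704): the pointwise upper bound sieve
for the pairs.
-/

set_option autoImplicit false

namespace Run7.h994.PR

open Finset Filter Topology Polynomial
open Pool.Agent.H373R2.T7 (pz Vz mem_pz)
open Pool.Agent.TH204.WR (rho flp prod_nonneg')
open Run7.h704.BPD (eval_large)

lemma Q_eval2 (F : ℤ[X]) (a b x : ℤ) : (Q F a b).eval x = (F.eval x + a) * (F.eval x + b) := by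
  simp [Q]

lemma Q_deg (F : ℤ[X]) (a b : ℤ) : (Q F a b).natDegree ≤ 2 * F.natDegree := by
  unfold Q
  refine (natDegree_mul_le).trans ?_
  rw [natDegree_add_C, natDegree_add_C]
  omega

/-- a prime value divisible by a small prime is small -/
lemma small_of_dvd {m : ℤ} {p z : ℕ} (hp : p.Prime) (hpz : p ≤ z) (hm : Nat.Prime m.toNat) (hd : (p : ℤ) ∣ m) : m ≤ z := by
  have hpos : 0 < m := by
    have := hm.pos
    omega
  have e1 : (m.toNat : ℤ) = m := Int.toNat_of_nonneg hpos.le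
  rw [← e1] at hd ⊢
  have h8 : p ∣ m.toNat := by exact_mod_cast hd
  have h9 := (Nat.prime_dvd_prime_iff_eq hp hm).1 h8
  rw [← h9]
  exact_mod_cast hpz

theorem up2 (F : ℤ[X]) (hl : 0 < F.leadingCoeff) (hd : 1 ≤ F.natDegree) : S_UP2 F := by
  classical
  obtain ⟨C1, y0, hC1, hy0, H⟩ := flp (2 * F.natDegree) (by omega)
  obtain ⟨n0, hn0⟩ := eval_large F hl hd
  obtain ⟨D, hD⟩ : ∃ D : ℕ, D = 10 * C1 ^ 2 := ⟨_, rfl⟩
  have hD10 : 10 ≤ D := by
    have := Nat.one_le_pow 2 C1 (by omega)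
    omega
  have hDr : (10 : ℝ) ≤ D := by exact_mod_cast hD10
  have hD0 : (0 : ℝ) < D := by linarith
  have hlim : Tendsto (fun N : ℕ => (N : ℝ) ^ (1 / (2 * (D : ℝ)))) atTop atTop :=
    (tendsto_rpow_atTop (by positivity)).comp (tendsto_natCast_atTop_atTop (R := ℝ))
  obtain ⟨N₁, hN₁⟩ := eventually_atTop.1 (hlim.eventually_ge_atTop ((y0 : ℝ) + 2))
  have hn00 : (0 : ℝ) ≤ n0 := Nat.cast_nonneg _
  refine ⟨2 * n0 + 10, by linarith, 1 / (2 * D), by positivity, ?_, N₁ + 1, ?_⟩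
  · rw [div_le_div_iff₀ (by positivity) (by norm_num)]
    linarith
  intro N hN
  have hN1 : 1 ≤ N := by omega
  have hNr : (1 : ℝ) ≤ N := by exact_mod_cast hN1
  have hN0 : (0 : ℝ) < N := by linarith
  set r : ℝ := (N : ℝ) ^ (1 / (2 * (D : ℝ))) with hr
  have hr2 : (y0 : ℝ) + 2 ≤ r := hN₁ N (by omega)
  have hy0r : (0 : ℝ) ≤ y0 := Nat.cast_nonneg _
  have hrr : r * r = (N : ℝ) ^ (1 / (D : ℝ)) := by
    rw [hr, ← Real.rpow_add hN0]
    congr 1
    field_simp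
    ring
  set z : ℕ := ⌊r * r⌋₊ with hz
  have hz1 : (z : ℝ) ≤ r * r := Nat.floor_le (by positivity)
  have hz2 : r * r - 1 < z := Nat.sub_one_lt_floor _
  have hrz : r ≤ z := by nlinarith
  have hzy : y0 ≤ z := by
    have : (y0 : ℝ) ≤ z := by linarith
    exact_mod_cast this
  have hzD : (z : ℝ) ≤ (N : ℝ) ^ (1 / (D : ℝ)) := by rw [← hrr]; exact hz1
  have hz10 : (z : ℝ) ≤ (N : ℝ) ^ (1 / 10 : ℝ) :=
    hzD.trans (Real.rpow_le_rpow_of_exponent_le hNr (one_div_le_one_div_of_le (by norm_num) hDr))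
  refine ⟨z, by omega, hrz, hz10, fun a b => ?_⟩
  have hzc : z ^ (C1 * C1) ≤ N := by
    have h1 : (z : ℝ) ^ (C1 * C1) ≤ N := by
      calc (z : ℝ) ^ (C1 * C1) ≤ ((N : ℝ) ^ (1 / (D : ℝ))) ^ (C1 * C1) := by gcongr
        _ = (N : ℝ) ^ (1 / (D : ℝ) * ((C1 * C1 : ℕ) : ℝ)) := by
            rw [← Real.rpow_natCast, ← Real.rpow_mul hN0.le]
        _ ≤ (N : ℝ) ^ (1 : ℝ) := by
            refine Real.rpow_le_rpow_of_exponent_le hNr ?_
            rw [one_div, inv_mul_le_iff₀ hD0, hD]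
            push_cast
            nlinarith
        _ = N := Real.rpow_one _
    exact_mod_cast h1
  have hz34 : (z : ℝ) ≤ (N : ℝ) ^ (3 / 4 : ℝ) :=
    hz10.trans (Real.rpow_le_rpow_of_exponent_le hNr (by norm_num))
  have h134 : (1 : ℝ) ≤ (N : ℝ) ^ (3 / 4 : ℝ) := Real.one_le_rpow hNr (by norm_num)
  have hsmall : ∀ a : ℕ, (#((Icc 1 N).filter (fun n : ℕ => F.eval (n : ℤ) + a ≤ z)) : ℝ) ≤
      (n0 + 2) * (N : ℝ) ^ (3 / 4 : ℝ) := by
    intro a
    have h1 : #((Icc 1 N).filter (fun n : ℕ => F.eval (n : ℤ) + a ≤ z)) ≤ n0 + 2 * z := by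
      calc #((Icc 1 N).filter (fun n : ℕ => F.eval (n : ℤ) + a ≤ z)) ≤ #(Icc 1 (n0 + 2 * z)) := by
            refine card_le_card fun n hn => ?_
            rw [mem_filter, mem_Icc] at hn
            rw [mem_Icc]
            refine ⟨hn.1.1, ?_⟩
            by_contra hcon
            push Not at hcon
            have := hn0 n (by omega)
            have h2 := hn.2
            omega
        _ = n0 + 2 * z := by rw [Nat.card_Icc]; omega
    have h2 : (#((Icc 1 N).filter (fun n : ℕ => F.eval (n : ℤ) + a ≤ z)) : ℝ) ≤ n0 + 2 * z := by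
      exact_mod_cast h1
    have h3 : (n0 : ℝ) ≤ n0 * (N : ℝ) ^ (3 / 4 : ℝ) :=
      le_mul_of_one_le_right (Nat.cast_nonneg _) h134
    linarith
  have hsa := hsmall a
  have hsb := hsmall b
  obtain ⟨Sa, hSa⟩ : ∃ Sa, Sa = (Icc 1 N).filter (fun n : ℕ => F.eval (n : ℤ) + a ≤ z) := ⟨_, rfl⟩
  obtain ⟨Sb, hSb⟩ : ∃ Sb, Sb = (Icc 1 N).filter (fun n : ℕ => F.eval (n : ℤ) + b ≤ z) := ⟨_, rfl⟩
  rw [← hSa] at hsa
  rw [← hSb] at hsb
  have hVg : Vz z ^ 2 * g2 F a b z = ∏ p ∈ pz z, (1 - (rho (Q F a b) 0 p : ℝ) / p) := by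
    unfold g2 r2
    exact mul_div_cancel₀ _ (pow_ne_zero 2 (Pool.Agent.H373R2.T7.Vz_pos z).ne')
  have hprod := prod_nonneg' (Q F a b) 0 z
  rw [hVg]
  have h11 : 2 * (((n0 : ℝ) + 2) * (N : ℝ) ^ (3 / 4 : ℝ)) ≤ (2 * n0 + 10) * (N : ℝ) ^ (3 / 4 : ℝ) := by
    have : 2 * (((n0 : ℝ) + 2) * (N : ℝ) ^ (3 / 4 : ℝ)) = (2 * n0 + 4) * (N : ℝ) ^ (3 / 4 : ℝ) := by ring
    rw [this]
    exact mul_le_mul_of_nonneg_right (by linarith) (by positivity)
  by_cases hrho : ∀ p ∈ pz z, rho (Q F a b) 0 p < p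
  · have h := H (Q F a b) 0 (Q_deg F a b) C1 le_rfl z hzy hrho N hzc 0
    simp only [zero_add, add_zero] at h
    have h4 := (abs_le.1 h).2
    have h5 : (1 / 2 : ℝ) ^ C1 ≤ 1 := pow_le_one₀ (by norm_num) (by norm_num)
    set V := ∏ p ∈ pz z, (1 - (rho (Q F a b) 0 p : ℝ) / p) with hV
    have hNV : 0 ≤ (N : ℝ) * V := mul_nonneg hN0.le hprod
    have h6 : 2 * (1 / 2 : ℝ) ^ C1 * (N * V) ≤ 2 * 1 * (N * V) := by gcongr
    have hcount : (P2 F a b N : ℝ) ≤ (#Sa : ℝ) + #Sb +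
        (#((Icc 1 N).filter (fun s : ℕ => ∀ p ∈ pz z, ¬ (p : ℤ) ∣ (Q F a b).eval (s : ℤ))) : ℝ) := by
      have h7 : P2 F a b N ≤ #Sa + #Sb +
          #((Icc 1 N).filter (fun s : ℕ => ∀ p ∈ pz z, ¬ (p : ℤ) ∣ (Q F a b).eval (s : ℤ))) := by
        unfold P2
        refine le_trans (card_le_card (t := (Sa ∪ Sb) ∪ ((Icc 1 N).filter (fun s : ℕ => ∀ p ∈ pz z, ¬ (p : ℤ) ∣ (Q F a b).eval (s : ℤ)))) ?_)
          ((card_union_le _ _).trans (Nat.add_le_add_right (card_union_le _ _) _))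
        intro n hn
        rw [mem_filter] at hn
        rw [mem_union, mem_union, hSa, hSb, mem_filter, mem_filter, mem_filter]
        by_cases hnza : F.eval (n : ℤ) + a ≤ z
        · exact Or.inl (Or.inl ⟨hn.1, hnza⟩)
        by_cases hnzb : F.eval (n : ℤ) + b ≤ z
        · exact Or.inl (Or.inr ⟨hn.1, hnzb⟩)
        · right
          refine ⟨hn.1, fun p hp hdv => ?_⟩
          have hp' := mem_pz.1 hp
          rw [Q_eval2] at hdv
          rcases (Nat.prime_iff_prime_int.1 hp'.2).dvd_or_dvd hdv with h8 | h8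
          · exact hnza (small_of_dvd hp'.2 hp'.1 hn.2.1 h8)
          · exact hnzb (small_of_dvd hp'.2 hp'.1 hn.2.2 h8)
      exact_mod_cast h7
    have h10 : 0 ≤ (2 * (n0 : ℝ)) * ((N : ℝ) * V) := by positivity
    have e2 : (2 * (n0 : ℝ) + 10) * N * V = (2 * (n0 : ℝ)) * (N * V) + 10 * (N * V) := by ring
    rw [e2]
    linarith
  · push Not at hrho
    obtain ⟨p, hp, hrp⟩ := hrho
    have hp' := mem_pz.1 hp
    have hall : ∀ n : ℤ, (p : ℤ) ∣ (Q F a b).eval n := by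
      intro n
      have h1 : ((range p).filter (fun c : ℕ => (p : ℤ) ∣ (Q F a b).eval (c : ℤ) + 0)) = range p := by
        refine eq_of_subset_of_card_le (filter_subset _ _) ?_
        rw [card_range]
        exact hrp
      have hp0 : (0 : ℤ) < p := by exact_mod_cast hp'.2.pos
      have h2 : (n % p).toNat ∈ range p := by
        rw [mem_range]
        have := Int.emod_lt_of_pos n hp0
        have := Int.emod_nonneg n hp0.ne'
        omega
      rw [← h1, mem_filter] at h2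
      have h3 := h2.2
      rw [Int.toNat_of_nonneg (Int.emod_nonneg n hp0.ne'), add_zero] at h3
      have h4 : (p : ℤ) ∣ (Q F a b).eval n - (Q F a b).eval (n % p) := by
        refine dvd_trans ?_ (sub_dvd_eval_sub n (n % p) (Q F a b))
        exact Int.dvd_self_sub_emod
      have h5 := dvd_add h4 h3
      rwa [sub_add_cancel] at h5
    have hcount : (P2 F a b N : ℝ) ≤ (#Sa : ℝ) + #Sb := by
      have : P2 F a b N ≤ #Sa + #Sb := by
        unfold P2
        refine le_trans (card_le_card (t := Sa ∪ Sb) ?_) (card_union_le _ _)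
        intro n hn
        rw [mem_filter] at hn
        rw [mem_union, hSa, hSb, mem_filter, mem_filter]
        have h6 := hall n
        rw [Q_eval2] at h6
        rcases (Nat.prime_iff_prime_int.1 hp'.2).dvd_or_dvd h6 with h8 | h8
        · exact Or.inl ⟨hn.1, small_of_dvd hp'.2 hp'.1 hn.2.1 h8⟩
        · exact Or.inr ⟨hn.1, small_of_dvd hp'.2 hp'.1 hn.2.2 h8⟩
      exact_mod_cast this
    have h12 : 0 ≤ (2 * (n0 : ℝ) + 10) * N * ∏ p ∈ pz z, (1 - (rho (Q F a b) 0 p : ℝ) / p) := by positivity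
    linarith

end Run7.h994.PR
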