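import Pool.Agent.Run7.h994.PR.FinX
import Pool.Agent.Run7.h994.PR.TW
import Pool.Agent.Run7.h994.PR.UP2
import Pool.Agent.Run7.h973.PR.SQ2
import Pool.Agent.Run7.h651.PR.AV2
import Pool.Agent.Run7.h994.BPD.ES
import Pool.Agent.Run7.h994.BPD.Tri
import Pool.Agent.Run7.h994.BPD.FM
import Pool.Agent.Run7.h462.BPD.Bil
import Pool.Agent.Run7.h462.BPD.Ti
import Pool.Agent.Run7.h462.BPD.Tii
import Pool.Agent.Run7.h462.BPD.Spc
import Pool.Agent.Run7.h757.BP.Vau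

/-!
Project PR (helper994): the assembled theorem for `X ^ 2`.
-/

set_option autoImplicit false

namespace Run7.h994.PR

open Finset Filter Topology Polynomial

theorem fm_x2 : S_FMe (X ^ 2) (1 / 2) := by
  have hdeg : (X ^ 2 : ℤ[X]).natDegree = 2 := Polynomial.natDegree_X_pow 2
  have hlead : (X ^ 2 : ℤ[X]).leadingCoeff = 1 := (Polynomial.monic_X_pow 2).leadingCoeff
  have hs : (0 : ℝ) < ((X ^ 2 : ℤ[X]).leadingCoeff : ℝ) ^ (-1 / ((X ^ 2 : ℤ[X]).natDegree : ℝ)) := by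
    rw [hlead, hdeg]
    norm_num
  have hbil := Run7.h462.BPD.bil (((X ^ 2 : ℤ[X]).leadingCoeff : ℝ) ^ (-1 / ((X ^ 2 : ℤ[X]).natDegree : ℝ)))
    (X ^ 2 : ℤ[X]).natDegree (by rw [hdeg]) (by rw [hdeg]; norm_num)
    (Run7.h462.BPD.tii _ hs _ (by rw [hdeg]) (Run7.h462.BPD.spc _ (by rw [hdeg]; norm_num)))
  have hti := Run7.h462.BPD.ti (((X ^ 2 : ℤ[X]).leadingCoeff : ℝ) ^ (-1 / ((X ^ 2 : ℤ[X]).natDegree : ℝ))) hs
    (X ^ 2 : ℤ[X]).natDegree (by rw [hdeg]) (by rw [hdeg]; norm_num)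
  have hfm := Run7.h994.BPD.fm (F := (X ^ 2 : ℤ[X])) (by rw [hdeg]) (by rw [hdeg]; norm_num) (by rw [hlead]; norm_num)
    (Run7.h994.BPD.tri (Run7.h994.BPD.es4 Run7.h757.BP.Vau.vau hbil hti))
  intro η hη
  obtain ⟨c₀, hc₀, h⟩ := hfm η hη
  refine ⟨c₀, hc₀, fun ε hε => ?_⟩
  obtain ⟨N₀, h⟩ := h ε hε
  refine ⟨N₀, fun N hN A hA1 hA2 => h N hN A ?_ hA2⟩
  refine le_trans (le_of_eq ?_) hA1
  rw [hdeg]
  norm_num

open Classical in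
theorem main (η : ℝ) (hη : 0 < η) :
    ∃ c B : ℝ, 0 < c ∧ 0 < B ∧ ∀ ε : ℝ, 0 < ε → ∃ N0 : ℕ, ∀ N : ℕ, N0 ≤ N → ∀ A H : ℕ,
      (N : ℝ) ^ (1 / 2 + ε) ≤ A → A ≤ N → B * Real.log N ≤ H → H ≤ A →
      c * (A * H) ≤ (#(((Icc 1 A) ×ˢ (Icc 1 H)).filter (fun i => GoodX η c N i.1 i.2)) : ℝ) := by
  have hdeg : (X ^ 2 : ℤ[X]).natDegree = 2 := Polynomial.natDegree_X_pow 2
  have hlead : (X ^ 2 : ℤ[X]).leadingCoeff = 1 := (Polynomial.monic_X_pow 2).leadingCoeff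
  exact pairs_x2 (fm2e (by rw [hdeg]) _ le_rfl fm_x2) (up2 _ (by rw [hlead]; norm_num) (by rw [hdeg]; norm_num))
    (Run7.h973.PR.sq2 _ (by rw [hlead]; norm_num) (by rw [hdeg]; norm_num))
    (Run7.h651.PR.av2 _ (by rw [hdeg]; norm_num) s_TW) η hη

end Run7.h994.PR
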