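import Mathlib
import Pool.Agent.Run7.h994.PR.FM

/-!
Project PR, piece FM2 (helper994) with a general exponent `e ≥ 1/2`.
-/

set_option autoImplicit false

namespace Run7.h994.PR

open Finset Filter Topology
open scoped Polynomial

/-- the first moment with a general exponent -/
def S_FMe (F : ℤ[X]) (e : ℝ) : Prop := ∀ η : ℝ, 0 < η → ∃ c₀ : ℝ, 0 < c₀ ∧ ∀ ε : ℝ, 0 < ε → ∃ N₀ : ℕ, ∀ N : ℕ, N₀ ≤ N → ∀ A : ℕ,
  (N : ℝ) ^ (e + ε) ≤ A → (A : ℝ) ≤ c₀ * (N : ℝ) ^ (F.natDegree - 1) →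
  (1 - η) * (A * N / (F.natDegree * Real.log N)) ≤ ∑ a ∈ Icc 1 A, (Run7.h462.BPD.P F a N : ℝ)

/-- **FM2** with a general exponent -/
def S_FM2e (F : ℤ[X]) (e : ℝ) : Prop := ∀ η : ℝ, 0 < η → ∃ c₀ B : ℝ, 0 < c₀ ∧ 0 < B ∧ ∀ ε : ℝ, 0 < ε → ∃ N₀ : ℕ, ∀ N : ℕ, N₀ ≤ N →
  ∀ A H : ℕ, (N : ℝ) ^ (e + ε) ≤ A → (A : ℝ) ≤ c₀ * (N : ℝ) ^ (F.natDegree - 1) →
  B * Real.log N ≤ H → (H : ℝ) ≤ c₀ * A →
  (1 - η) * (A * ((H : ℝ) ^ 2 / 2) * (N / (F.natDegree * Real.log N) ^ 2)) ≤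
    ∑ h ∈ Ico 1 H, ((H : ℝ) - h) * ∑ a ∈ Icc 1 A, (P2 F a (a + h) N : ℝ)

theorem fm2e {F : ℤ[X]} (h2 : 2 ≤ F.natDegree) (e : ℝ) (he : 1 / 2 ≤ e) (hFM : S_FMe F e) : S_FM2e F e := by
  intro η hη
  rcases le_or_gt 1 η with hη1 | hη1
  · refine ⟨1, 1, one_pos, one_pos, fun ε hε => ⟨0, fun N _ A H _ _ _ _ => ?_⟩⟩
    have h1 : (1 - η) * (A * ((H : ℝ) ^ 2 / 2) * (N / (F.natDegree * Real.log N) ^ 2)) ≤ 0 := by
      apply mul_nonpos_of_nonpos_of_nonneg (by linarith)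
      positivity
    refine h1.trans (Finset.sum_nonneg fun h hh => ?_)
    rw [Finset.mem_Ico] at hh
    have : (h : ℝ) ≤ H := by exact_mod_cast hh.2.le
    exact mul_nonneg (by linarith) (Finset.sum_nonneg fun _ _ => Nat.cast_nonneg _)
  obtain ⟨C, hC, NB, hB⟩ := sum_P_le F
  obtain ⟨d, hd⟩ : ∃ d : ℝ, d = F.natDegree := ⟨_, rfl⟩
  have hd2 : 2 ≤ d := by rw [hd]; exact_mod_cast h2
  have hd0 : 0 < d := by linarith
  obtain ⟨c₁, hc₁, hF⟩ := hFM (η / 12) (by positivity)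
  obtain ⟨c₀, hc₀⟩ : ∃ c₀, c₀ = min c₁ (min (η / 12) (η / (24 * d * C))) := ⟨_, rfl⟩
  have hc₀0 : 0 < c₀ := by
    rw [hc₀]
    refine lt_min hc₁ (lt_min (by positivity) (by positivity))
  have hc₀1 : c₀ ≤ c₁ := by rw [hc₀]; exact min_le_left _ _
  have hc₀2 : c₀ ≤ η / 12 := by rw [hc₀]; exact (min_le_right _ _).trans (min_le_left _ _)
  have hc₀3 : c₀ ≤ η / (24 * d * C) := by rw [hc₀]; exact (min_le_right _ _).trans (min_le_right _ _)
  refine ⟨c₀, 2 * C * d ^ 2 / η, hc₀0, by positivity, fun ε hε => ?_⟩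
  obtain ⟨NF, hNF⟩ := hF (ε / 2) (by positivity)
  have tend : ∀ a : ℝ, 0 < a → Tendsto (fun X : ℕ => (X : ℝ) ^ a) atTop atTop := fun a ha =>
    (tendsto_rpow_atTop ha).comp tendsto_natCast_atTop_atTop
  have ev1 : ∀ᶠ N : ℕ in atTop, (2 : ℝ) ≤ (N : ℝ) ^ (ε / 2) := (tend _ (by positivity)).eventually_ge_atTop _
  have ev2 : ∀ᶠ N : ℕ in atTop, 24 * d / η ≤ Real.log N :=
    (Real.tendsto_log_atTop.comp tendsto_natCast_atTop_atTop).eventually_ge_atTop _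
  have ev3 : ∀ᶠ N : ℕ in atTop, Real.log N ^ 2 ≤ (N : ℝ) ^ (1 / 4 : ℝ) := by
    have h := isLittleO_log_rpow_atTop (show (0 : ℝ) < 1 / 8 by norm_num)
    have h2 := h.bound one_pos
    have h3 := tendsto_natCast_atTop_atTop.eventually (h2.and (eventually_ge_atTop (1 : ℝ)))
    filter_upwards [h3] with N hN
    obtain ⟨g1, g2⟩ := hN
    have g3 : 0 ≤ Real.log (N : ℝ) := Real.log_nonneg g2
    rw [one_mul, Real.norm_of_nonneg g3, Real.norm_of_nonneg (by positivity)] at g1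
    calc Real.log N ^ 2 ≤ ((N : ℝ) ^ (1 / 8 : ℝ)) ^ 2 := by gcongr
      _ = (N : ℝ) ^ (1 / 4 : ℝ) := by
          rw [← Real.rpow_natCast, ← Real.rpow_mul (by linarith)]
          norm_num
  obtain ⟨N₀, hN₀⟩ := eventually_atTop.mp (ev1.and (ev2.and ev3))
  refine ⟨N₀ + NF + NB + 2, fun N hN A H hA1 hA2 hH1 hH2 => ?_⟩
  obtain ⟨g1, g2, g3⟩ := hN₀ N (by omega)
  rw [← hd]
  have hNr : (2 : ℝ) ≤ N := by exact_mod_cast (show 2 ≤ N by omega)
  have hN1 : (1 : ℝ) ≤ N := by linarith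
  have hN0 : (0 : ℝ) < N := by linarith
  obtain ⟨L, hL⟩ : ∃ L, L = Real.log N := ⟨_, rfl⟩
  rw [← hL] at g2 g3 hH1 ⊢
  have hL0 : 0 < L := by rw [hL]; exact Real.log_pos (by linarith)
  have hA0 : (0 : ℝ) < A := lt_of_lt_of_le (Real.rpow_pos_of_pos hN0 _) hA1
  have hAhalf : (N : ℝ) ^ (1 / 2 : ℝ) ≤ A := by
    refine le_trans ?_ hA1
    apply Real.rpow_le_rpow_of_exponent_le hN1
    linarith
  have hH0 : (0 : ℝ) ≤ H := Nat.cast_nonneg _
  have hHA : (H : ℝ) ≤ η / 12 * A := hH2.trans (by gcongr)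
  have hHA1 : (H : ℝ) ≤ A := by nlinarith
  have hHAn : H ≤ A := by exact_mod_cast hHA1
  -- Y
  obtain ⟨Y, hY⟩ : ∃ Y, Y = A - H := ⟨_, rfl⟩
  have hYr : (Y : ℝ) = A - H := by rw [hY, Nat.cast_sub hHAn]
  have hYA : Y + H ≤ A := by omega
  have hYlow : (1 - η / 12) * A ≤ Y := by rw [hYr]; linarith
  have hY2 : (N : ℝ) ^ (e + ε / 2) ≤ Y := by
    have h3 : (N : ℝ) ^ (e + ε / 2) * (N : ℝ) ^ (ε / 2) ≤ A := by
      rw [← Real.rpow_add hN0]
      refine le_trans (le_of_eq ?_) hA1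
      congr 1
      ring
    have h4 : (N : ℝ) ^ (e + ε / 2) * 2 ≤ A := by
      refine le_trans ?_ h3
      gcongr
    have h5 : (1 / 2 : ℝ) * A ≤ (1 - η / 12) * A := by
      apply mul_le_mul_of_nonneg_right _ hA0.le
      linarith
    linarith
  have hY3 : (Y : ℝ) ≤ c₁ * (N : ℝ) ^ (F.natDegree - 1) := by
    have h3 : (Y : ℝ) ≤ A := by rw [hYr]; linarith
    refine h3.trans (hA2.trans ?_)
    gcongr
  have hFY := hNF N (by omega) Y hY2 hY3
  rw [← hd, ← hL] at hFY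
  -- the number of the pairs for the small shifts
  have hA14 : (N : ℝ) ^ (1 / 4 : ℝ) ≤ A :=
    (Real.rpow_le_rpow_of_exponent_le hN1 (by norm_num)).trans hAhalf
  have hPA := hB N (by omega) A hA14
  rw [← hL] at hPA
  obtain ⟨U, hU⟩ : ∃ U, U = A * N / (d * L) := ⟨_, rfl⟩
  have hU0 : 0 < U := by rw [hU]; positivity
  have hPH : ∑ a ∈ Icc 1 H, (Run7.h462.BPD.P F a N : ℝ) ≤ η / 24 * U := by
    rcases le_total (H : ℝ) (A / L ^ 2) with h | h
    · calc ∑ a ∈ Icc 1 H, (Run7.h462.BPD.P F a N : ℝ) ≤ ∑ a ∈ Icc 1 H, (N : ℝ) := by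
            apply Finset.sum_le_sum
            intro a _
            rw [P_eq]
            calc ∑ n ∈ Icc 1 N, fi F n a ≤ ∑ n ∈ Icc 1 N, (1 : ℝ) :=
                  Finset.sum_le_sum fun n _ => fi_le_one F n a
              _ = N := by simp
        _ = H * N := by rw [Finset.sum_const, Nat.card_Icc, nsmul_eq_mul, Nat.add_sub_cancel]
        _ ≤ (A / L ^ 2) * N := by gcongr
        _ = (d / L) * U := by rw [hU]; field_simp
        _ ≤ η / 24 * U := by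
            apply mul_le_mul_of_nonneg_right _ hU0.le
            rw [div_le_iff₀ hL0]
            rw [div_le_iff₀ hη] at g2
            linarith
    · have hH14 : (N : ℝ) ^ (1 / 4 : ℝ) ≤ H := by
        refine le_trans ?_ h
        rw [le_div_iff₀ (by positivity)]
        calc (N : ℝ) ^ (1 / 4 : ℝ) * L ^ 2 ≤ (N : ℝ) ^ (1 / 4 : ℝ) * (N : ℝ) ^ (1 / 4 : ℝ) := by gcongr
          _ = (N : ℝ) ^ (1 / 2 : ℝ) := by rw [← Real.rpow_add hN0]; norm_num
          _ ≤ A := hAhalf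
      have h3 := hB N (by omega) H hH14
      rw [← hL] at h3
      calc ∑ a ∈ Icc 1 H, (Run7.h462.BPD.P F a N : ℝ) ≤ C * (N * H / L) := h3
        _ ≤ C * (N * (c₀ * A) / L) := by gcongr
        _ = (c₀ * (d * C)) * U := by rw [hU]; field_simp
        _ ≤ η / 24 * U := by
            apply mul_le_mul_of_nonneg_right _ hU0.le
            calc c₀ * (d * C) ≤ (η / (24 * d * C)) * (d * C) := by gcongr
              _ = η / 24 := by field_simp
  have hPY : (1 - η / 6) * U ≤ ∑ a ∈ Icc 1 Y, (Run7.h462.BPD.P F a N : ℝ) := by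
    refine le_trans ?_ hFY
    have h3 : (1 - η / 12) * U ≤ Y * N / (d * L) := by
      rw [hU]
      calc (1 - η / 12) * (A * N / (d * L)) = ((1 - η / 12) * A) * N / (d * L) := by ring
        _ ≤ Y * N / (d * L) := by gcongr
    calc (1 - η / 6) * U ≤ (1 - η / 12) * ((1 - η / 12) * U) := by
          have h6 : 0 ≤ η ^ 2 / 144 * U := by positivity
          have h7 : (1 - η / 12) * ((1 - η / 12) * U) = (1 - η / 6) * U + η ^ 2 / 144 * U := by ring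
          linarith
      _ ≤ (1 - η / 12) * (Y * N / (d * L)) := by
          apply mul_le_mul_of_nonneg_left h3
          linarith
  -- first and second moment
  obtain ⟨T1, hT1⟩ : ∃ T1, T1 = ∑ n ∈ Icc 1 N, ∑ y ∈ range Y, ∑ j ∈ range H, fi F n (y + 1 + j) := ⟨_, rfl⟩
  obtain ⟨T2, hT2⟩ : ∃ T2, T2 = ∑ n ∈ Icc 1 N, ∑ y ∈ range Y, (∑ j ∈ range H, fi F n (y + 1 + j)) ^ 2 := ⟨_, rfl⟩
  have hT1low : H * (U * (1 - η / 4)) ≤ T1 := by
    have h3 : ∑ n ∈ Icc 1 N, (H : ℝ) * (∑ a ∈ Icc 1 Y, fi F n a - ∑ a ∈ Icc 1 H, fi F n a) ≤ T1 := by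
      rw [hT1]
      exact Finset.sum_le_sum fun n _ => window_one (fi F n) (fi_nonneg F n) Y H
    refine le_trans ?_ h3
    rw [← Finset.mul_sum, Finset.sum_sub_distrib]
    apply mul_le_mul_of_nonneg_left _ hH0
    have e1 : ∑ n ∈ Icc 1 N, ∑ a ∈ Icc 1 Y, fi F n a = ∑ a ∈ Icc 1 Y, (Run7.h462.BPD.P F a N : ℝ) := by
      rw [Finset.sum_comm]
      exact Finset.sum_congr rfl fun a _ => (P_eq F a N).symm
    have e2 : ∑ n ∈ Icc 1 N, ∑ a ∈ Icc 1 H, fi F n a = ∑ a ∈ Icc 1 H, (Run7.h462.BPD.P F a N : ℝ) := by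
      rw [Finset.sum_comm]
      exact Finset.sum_congr rfl fun a _ => (P_eq F a N).symm
    rw [e1, e2]
    nlinarith
  have hCS : T1 ^ 2 ≤ (N * Y) * T2 := by
    have h3 := sq_sum_le_card_mul_sum_sq (s := Icc 1 N ×ˢ range Y)
      (f := fun q : ℕ × ℕ => ∑ j ∈ range H, fi F q.1 (q.2 + 1 + j))
    rw [Finset.sum_product, Finset.sum_product, Finset.card_product, Nat.card_Icc, Finset.card_range,
      Nat.add_sub_cancel] at h3
    rw [hT1, hT2]
    push_cast at h3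
    exact h3
  have hT20 : 0 ≤ T2 := by
    rw [hT2]
    exact Finset.sum_nonneg fun n _ => Finset.sum_nonneg fun y _ => sq_nonneg _
  obtain ⟨X, hX⟩ : ∃ X, X = ∑ h ∈ Ico 1 H, ((H : ℝ) - h) * ∑ a ∈ Icc 1 A, (P2 F a (a + h) N : ℝ) := ⟨_, rfl⟩
  obtain ⟨D, hD⟩ : ∃ D, D = ∑ a ∈ Icc 1 A, (Run7.h462.BPD.P F a N : ℝ) := ⟨_, rfl⟩
  have hT2up : T2 ≤ H * D + 2 * X := by
    have h3 : T2 ≤ ∑ n ∈ Icc 1 N, (H * ∑ a ∈ Icc 1 A, fi F n a * fi F n a +
        2 * ∑ h ∈ Ico 1 H, ((H : ℝ) - h) * ∑ a ∈ Icc 1 A, fi F n a * fi F n (a + h)) := by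
      rw [hT2]
      exact Finset.sum_le_sum fun n _ => window_sq (fi F n) (fi_nonneg F n) Y H A hYA
    refine h3.trans (le_of_eq ?_)
    rw [Finset.sum_add_distrib, ← Finset.mul_sum, ← Finset.mul_sum, hD, hX]
    congr 1
    · congr 1
      rw [Finset.sum_comm]
      apply Finset.sum_congr rfl
      intro a _
      rw [P_eq]
      exact Finset.sum_congr rfl fun n _ => fi_sq F n a
    · congr 1
      rw [Finset.sum_comm]
      apply Finset.sum_congr rfl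
      intro h _
      rw [← Finset.mul_sum, Finset.sum_comm]
      congr 1
      apply Finset.sum_congr rfl
      intro a _
      rw [P2_eq]
  obtain ⟨V, hV⟩ : ∃ V, V = A * (N / (d * L) ^ 2) := ⟨_, rfl⟩
  have hDle : H * D ≤ η / 2 * ((H : ℝ) ^ 2 * V) := by
    have h3 : (C * d ^ 2) * L ≤ η / 2 * H := by
      have h5 : 2 * C * d ^ 2 * L ≤ H * η := by
        rw [div_mul_eq_mul_div, div_le_iff₀ hη] at hH1
        exact hH1
      linarith
    have hAN : 0 ≤ (A : ℝ) * N / (d * L) ^ 2 := by positivity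
    calc (H : ℝ) * D ≤ H * (C * (N * A / L)) := by
          apply mul_le_mul_of_nonneg_left _ hH0
          rw [hD]
          exact hPA
      _ = H * (((C * d ^ 2) * L) * (A * N / (d * L) ^ 2)) := by
          field_simp
      _ ≤ H * ((η / 2 * H) * (A * N / (d * L) ^ 2)) := by
          apply mul_le_mul_of_nonneg_left _ hH0
          exact mul_le_mul_of_nonneg_right h3 hAN
      _ = η / 2 * ((H : ℝ) ^ 2 * V) := by rw [hV]; ring
  rw [← hX]
  refine fm2_alg η A H Y N U V T1 T2 D X _ hη hη1 hA0 hN0 hH0 (by rw [hYr]; linarith) hU0.le ?_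
    hT1low hCS hT2up hDle hT20 ?_
  · rw [hU, hV]
    field_simp
  · rw [hV]
    ring

end Run7.h994.PR
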