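import Pool.Agent.Run7.h994.PR.Tail
import Pool.Agent.Run7.h994.PR.FMe
import Pool.Agent.Run7.h462.BPD.Fin

/-!
Project PR (helper994): preparations for the assembly, general degree, truncated singular series.
-/

set_option autoImplicit false

namespace Run7.h994.PR

open Finset Filter Topology
open Pool.Agent.H373R2.T7 (pz Vz mem_pz Vz_pos)
open Pool.Agent.TH204.WR (rho hh xp tail_all hh_close hh_nonneg)
open Run7.h757.BP.Fin (rpow_ge_log)
open scoped Polynomial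

open Classical in
/-- the counting argument, with weights -/
lemma count_good2 {ι : Type*} {η θ D C2 C3 NL A : ℝ} (I : Finset ι) (v Pf g : ι → ℝ) (Ex G : Finset ι)
    (hη : 0 < η) (hη1 : η ≤ 1 / 2)
    (hD0 : 0 < D) (hD : D ≤ 1 / 2) (hθ : θ = η * D / 16) (hC2 : 0 < C2) (hC3 : 0 < C3) (hNL : 0 < NL) (hA : 0 < A)
    (hv0 : ∀ i ∈ I, 0 ≤ v i) (hv2 : ∀ i ∈ I, v i ≤ 2) (hvs : ∑ i ∈ I, v i ≤ A)
    (hg0 : ∀ i, 0 ≤ g i) (hEx : Ex ⊆ I) (hG : G ⊆ I)
    (hup : ∀ i ∈ I, i ∉ Ex → Pf i ≤ C2 * NL * g i + θ * NL)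
    (hbad : ∀ i ∈ I, i ∉ Ex → i ∉ G → Pf i ≤ (1 - η) * D * (1 + θ) * NL * g i + 2 * θ * NL)
    (hExP : ∑ i ∈ Ex, v i * Pf i ≤ θ * (A * NL)) (hSQ : ∑ i ∈ I, g i ^ 2 ≤ C3 * A)
    (hAV : ∑ i ∈ I, v i * g i ≤ (1 + θ) * A) (hFM : (1 - θ) * (D * (A * NL)) ≤ ∑ i ∈ I, v i * Pf i) :
    η ^ 2 * D ^ 2 / (16 * C2 ^ 2 * C3) * A ≤ (#G : ℝ) := by
  have hη2 : 0 ≤ 1 - η := by linarith
  have hθ0 : 0 < θ := by rw [hθ]; positivity
  have hsplit : ∑ i ∈ I, v i * Pf i ≤ ∑ i ∈ Ex, v i * Pf i +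
      (1 - η) * D * (1 + θ) * NL * ∑ i ∈ I, v i * g i + 2 * θ * (A * NL) + C2 * NL * (2 * ∑ i ∈ G, g i) +
        θ * (A * NL) := by
    have h1 : ∀ i ∈ I, v i * Pf i ≤ (if i ∈ Ex then v i * Pf i else 0) +
        ((1 - η) * D * (1 + θ) * NL * (v i * g i)) + (2 * θ * NL) * v i + (if i ∈ G then C2 * NL * (2 * g i) else 0) +
          (θ * NL) * v i := by
      intro i hi
      have hv := hv0 i hi
      have hp1 : 0 ≤ (1 - η) * D * (1 + θ) * NL * (v i * g i) := by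
        have := hg0 i
        positivity
      have hp2 : 0 ≤ C2 * NL * (2 * g i) := by
        have := hg0 i
        positivity
      have hp3 : 0 ≤ θ * NL * v i := by positivity
      have hp4 : 2 * θ * NL * v i = 2 * (θ * NL * v i) := by ring
      by_cases haE : i ∈ Ex
      · rw [if_pos haE]
        split_ifs <;> linarith
      · rw [if_neg haE]
        by_cases haG : i ∈ G
        · rw [if_pos haG]
          have h2 : v i * Pf i ≤ v i * (C2 * NL * g i + θ * NL) := mul_le_mul_of_nonneg_left (hup i hi haE) hv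
          have h3 : v i * (C2 * NL * g i) ≤ 2 * (C2 * NL * g i) := by
            apply mul_le_mul_of_nonneg_right (hv2 i hi)
            have := hg0 i
            positivity
          linarith
        · rw [if_neg haG]
          have h2 : v i * Pf i ≤ v i * ((1 - η) * D * (1 + θ) * NL * g i + 2 * θ * NL) :=
            mul_le_mul_of_nonneg_left (hbad i hi haE haG) hv
          linarith
    refine (sum_le_sum h1).trans ?_
    rw [sum_add_distrib, sum_add_distrib, sum_add_distrib, sum_add_distrib, ← mul_sum, ← mul_sum, ← mul_sum]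
    have e1 : ∑ i ∈ I, (if i ∈ Ex then v i * Pf i else 0) = ∑ i ∈ Ex, v i * Pf i := by
      rw [← sum_filter]
      congr 1
      ext i
      rw [mem_filter]
      exact ⟨fun h => h.2, fun h => ⟨hEx h, h⟩⟩
    have e2 : ∑ i ∈ I, (if i ∈ G then C2 * NL * (2 * g i) else 0) = C2 * NL * (2 * ∑ i ∈ G, g i) := by
      rw [← sum_filter, mul_sum, mul_sum]
      have e3 : I.filter (fun i => i ∈ G) = G := by
        ext i
        rw [mem_filter]
        exact ⟨fun h => h.2, fun h => ⟨hG h, h⟩⟩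
      rw [e3]
    rw [e1, e2]
    have h4 : 2 * θ * NL * ∑ i ∈ I, v i ≤ 2 * θ * NL * A := mul_le_mul_of_nonneg_left hvs (by positivity)
    have h5 : θ * NL * ∑ i ∈ I, v i ≤ θ * NL * A := mul_le_mul_of_nonneg_left hvs (by positivity)
    have h6 : 2 * θ * NL * A = 2 * θ * (A * NL) := by ring
    have h7 : θ * NL * A = θ * (A * NL) := by ring
    linarith
  obtain ⟨t, ht⟩ : ∃ t : ℝ, t = η * D / (2 * C2 * (2 * C3)) := ⟨_, rfl⟩
  have ht0 : 0 < t := by rw [ht]; positivity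
  have hGF : 2 * ∑ i ∈ G, g i ≤ (2 * #G) / (2 * t) + t / 2 * ((2 * C3) * A) := by
    have h1 : ∀ i ∈ G, g i ≤ 1 / (2 * t) + t / 2 * g i ^ 2 := by
      intro i _
      have h3 : g i * (2 * t) ≤ (1 / (2 * t) + t / 2 * g i ^ 2) * (2 * t) := by
        have e3 : (1 / (2 * t) + t / 2 * g i ^ 2) * (2 * t) = 1 + t ^ 2 * g i ^ 2 := by field_simp
        rw [e3]
        nlinarith [sq_nonneg (t * g i - 1)]
      exact le_of_mul_le_mul_right h3 (by positivity)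
    calc 2 * ∑ i ∈ G, g i ≤ 2 * ∑ i ∈ G, (1 / (2 * t) + t / 2 * g i ^ 2) := by
          have := sum_le_sum h1
          linarith
      _ = 2 * (#G * (1 / (2 * t)) + t / 2 * ∑ i ∈ G, g i ^ 2) := by
          rw [sum_add_distrib, sum_const, nsmul_eq_mul, mul_sum]
      _ ≤ 2 * (#G * (1 / (2 * t)) + t / 2 * (C3 * A)) := by
          have h2 : ∑ i ∈ G, g i ^ 2 ≤ ∑ i ∈ I, g i ^ 2 := by
            apply sum_le_sum_of_subset_of_nonneg hG
            intro i _ _; positivity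
          have h3 := h2.trans hSQ
          gcongr
      _ = _ := by ring
  have hfin := Run7.h462.BPD.numeric' hη hη1 hD0 hD hθ hC2 (show 0 < 2 * C3 by positivity) ht hNL hA hFM hGF (by
    refine hsplit.trans ?_
    have h1 : (1 - η) * D * (1 + θ) * NL * ∑ i ∈ I, v i * g i ≤ (1 - η) * D * (1 + θ) * NL * ((1 + θ) * A) := by
      gcongr
    linarith)
  have e5 : η ^ 2 * D ^ 2 / (4 * C2 ^ 2 * (2 * C3)) * A = 2 * (η ^ 2 * D ^ 2 / (16 * C2 ^ 2 * C3) * A) := by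
    field_simp
    ring
  rw [e5] at hfin
  linarith

lemma P2_le' (F : ℤ[X]) (a b N : ℕ) : (P2 F a b N : ℝ) ≤ N := by
  unfold P2
  have := card_filter_le (Icc 1 N) (fun n : ℕ => Nat.Prime (F.eval (n : ℤ) + a).toNat ∧ Nat.Prime (F.eval (n : ℤ) + b).toNat)
  rw [Nat.card_Icc, Nat.add_sub_cancel] at this
  exact_mod_cast this

lemma cast_add' (a h : ℕ) : ((a + h : ℕ) : ℤ) = (a : ℤ) + h := by push_cast; rfl

/-- for all but few pairs the truncated series hardly depends on the cutoff -/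
theorem close2 (F : ℤ[X]) (hd : 1 ≤ F.natDegree) : ∃ E0 : ℕ, ∀ E : ℕ, E0 ≤ E → ∀ θ : ℝ, 0 < θ → θ ≤ 1 → ∃ A0 : ℕ, ∀ A : ℕ, A0 ≤ A →
    ∀ H : ℕ, H ≤ A → ∃ Ex ⊆ (Icc 1 A) ×ˢ (Ico 1 H), (#Ex : ℝ) ≤ 4 * (H * (A / Real.log ((2 * A : ℕ) : ℝ) ^ 3)) ∧
      ∀ i ∈ (Icc 1 A) ×ˢ (Ico 1 H), i ∉ Ex → ∀ z : ℕ, ⌊Real.log ((2 * A : ℕ) : ℝ) ^ E⌋₊ ≤ z → z ^ 3 ≤ 2 * A →
      |g2 F i.1 ((i.1 : ℤ) + i.2) z - g2 F i.1 ((i.1 : ℤ) + i.2) ⌊Real.log ((2 * A : ℕ) : ℝ) ^ E⌋₊| ≤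
        θ * g2 F i.1 ((i.1 : ℤ) + i.2) ⌊Real.log ((2 * A : ℕ) : ℝ) ^ E⌋₊ := by
  classical
  have hF0 : F ≠ 0 := by
    intro h
    rw [h, Polynomial.natDegree_zero] at hd
    omega
  have hl0 : F.leadingCoeff ≠ 0 := Polynomial.leadingCoeff_ne_zero.2 hF0
  have hd1 : (1 : ℝ) ≤ F.natDegree := by exact_mod_cast hd
  obtain ⟨E1, hE1⟩ := tail_all F hd 1 3
  refine ⟨E1 + 4, fun E2 hE2 θ hθ0 hθ1 => ?_⟩
  obtain ⟨X1, hX1⟩ := hE1 E2 (by omega)
  have hlimL : Tendsto (fun N : ℕ => Real.log (N : ℝ)) atTop atTop :=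
    Real.tendsto_log_atTop.comp tendsto_natCast_atTop_atTop
  obtain ⟨M3, hM3⟩ := eventually_atTop.1 (hlimL.eventually_ge_atTop
    (128 / θ + 8 + F.leadingCoeff.natAbs + (256 / θ) * (F.natDegree : ℝ) ^ 2))
  refine ⟨X1 + M3 + 2, fun A hA H hHA => ?_⟩
  obtain ⟨x, hx⟩ : ∃ x : ℕ, x = 2 * A := ⟨_, rfl⟩
  have hxR : (x : ℝ) = 2 * A := by rw [hx]; push_cast; ring
  have g3 := hM3 x (by omega)
  rw [← hx]
  obtain ⟨LX, hLX⟩ : ∃ LX : ℝ, LX = Real.log x := ⟨_, rfl⟩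
  rw [← hLX] at g3 ⊢
  have h256θ : 0 < 128 / θ := by positivity
  have hlc : (0 : ℝ) ≤ (F.leadingCoeff.natAbs : ℝ) := Nat.cast_nonneg _
  have hdsq : 0 ≤ (256 / θ) * (F.natDegree : ℝ) ^ 2 := by positivity
  have hLX8 : 8 ≤ LX := by linarith
  have hLX0 : 0 < LX := by linarith
  have h5a : 128 ≤ LX * θ := by
    have : 128 / θ ≤ LX := by linarith
    rwa [div_le_iff₀ hθ0] at this
  have h5b : 256 * (F.natDegree : ℝ) ^ 2 ≤ LX * θ := by
    have : (256 / θ) * (F.natDegree : ℝ) ^ 2 ≤ LX := by linarith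
    rwa [div_mul_eq_mul_div, div_le_iff₀ hθ0] at this
  have hdd : (F.natDegree : ℝ) ≤ (F.natDegree : ℝ) ^ 2 := le_self_pow₀ hd1 (by norm_num)
  have h5c : LX * θ ≤ LX := by
    have := mul_le_mul_of_nonneg_left hθ1 hLX0.le
    linarith
  -- `w`
  obtain ⟨w, hw⟩ : ∃ w : ℕ, w = ⌊LX ^ E2⌋₊ := ⟨_, rfl⟩
  have hLXE : LX * LX ≤ LX ^ E2 := by
    calc LX * LX = LX ^ 2 := by ring
      _ ≤ LX ^ E2 := pow_le_pow_right₀ (by linarith) (by omega)
  have hLXsq : 8 * LX ≤ LX * LX := mul_le_mul_of_nonneg_right hLX8 hLX0.le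
  have hwge2 : LX * LX / 2 ≤ w := by
    have h1 : LX ^ E2 < w + 1 := by rw [hw]; exact Nat.lt_floor_add_one _
    linarith
  have hwge : LX ≤ w := by linarith
  obtain ⟨Bt, hBt1, hBt2, hBt3⟩ := hX1 x (by omega)
  rw [← hLX, ← hw] at hBt3
  rw [← hLX] at hBt2
  rw [← hw]
  obtain ⟨κ2, hκ2⟩ : ∃ κ2 : ℝ, κ2 = θ / 4 := ⟨_, rfl⟩
  have hκ20 : 0 < κ2 := by rw [hκ2]; positivity
  have hκ0 : 4 * (1 / LX) ≤ κ2 := by
    rw [mul_one_div, div_le_iff₀ hLX0, hκ2]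
    linarith
  have hlcw : F.leadingCoeff.natAbs ≤ w := by
    have h3 : (F.leadingCoeff.natAbs : ℝ) ≤ w := by linarith
    exact_mod_cast h3
  have hd4w : 4 * F.natDegree ≤ w := by
    have h3 : ((4 * F.natDegree : ℕ) : ℝ) ≤ w := by
      push_cast
      linarith
    exact_mod_cast h3
  have hw1 : 1 ≤ w := by omega
  have hdsq0 : 0 ≤ (F.natDegree : ℝ) ^ 2 := sq_nonneg _
  have hcond : 8 * (F.natDegree : ℝ) ^ 2 ≤ 1 / LX * w := by
    rw [one_div, inv_mul_eq_div, le_div_iff₀ hLX0]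
    have h3 : 16 * (F.natDegree : ℝ) ^ 2 ≤ LX := by linarith
    have h4 : (16 * (F.natDegree : ℝ) ^ 2) * LX ≤ LX * LX := mul_le_mul_of_nonneg_right h3 hLX0.le
    linarith
  have hκhalf : 2 * (1 / LX) ≤ 1 := by
    rw [mul_one_div, div_le_iff₀ hLX0]
    linarith
  have hclose1 : ∀ a : ℤ, 1 ≤ a → a ≤ x → a ∉ Bt → ∀ z : ℕ, w ≤ z → z ^ 3 ≤ x →
      |hh F a z - hh F a w| ≤ κ2 * hh F a w := by
    intro a ha1 ha2 haB z hwz hz3
    have h1 := hBt3 a (by rw [mem_Icc]; omega) haB z hwz hz3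
    rw [pow_one] at h1
    have h2 := hh_close F a w z hd hlcw hl0 hwz (1 / LX) hcond hd4w hκhalf h1
    refine h2.trans ?_
    apply mul_le_mul_of_nonneg_right hκ0
    exact hh_nonneg F a w hw1
  have hc1 : 4 * (F.natDegree : ℝ) ^ 2 ≤ κ2 * w := by
    have h6 : LX * θ ≤ w * θ := by gcongr
    rw [hκ2]
    linarith
  have hc2 : ∀ h : ℕ, 1 ≤ h → h ≤ x → 8 * (F.natDegree : ℝ) * Real.log h ≤ κ2 * w := by
    intro h hh1 hh2
    have h6 : Real.log (h : ℝ) ≤ LX := by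
      rw [hLX]
      apply Real.log_le_log (by exact_mod_cast (by omega : 0 < h))
      exact_mod_cast hh2
    have h7 : LX * LX / 2 * κ2 ≤ w * κ2 := by gcongr
    have h8 : 8 * (F.natDegree : ℝ) * Real.log h ≤ 8 * (F.natDegree : ℝ) * LX := by gcongr
    have h9 : 8 * (F.natDegree : ℝ) * LX ≤ LX * LX / 2 * κ2 := by
      have h10 : 8 * (F.natDegree : ℝ) ≤ LX / 2 * κ2 := by
        rw [hκ2]
        linarith
      calc 8 * (F.natDegree : ℝ) * LX ≤ (LX / 2 * κ2) * LX := by gcongr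
        _ = _ := by ring
    linarith
  -- the pairs
  have hmemI : ∀ i : ℕ × ℕ, i ∈ (Icc 1 A) ×ˢ (Ico 1 H) ↔ (1 ≤ i.1 ∧ i.1 ≤ A) ∧ (1 ≤ i.2 ∧ i.2 < H) := by
    intro i
    rw [mem_product, mem_Icc, mem_Ico]
  obtain ⟨Ex, hEx⟩ : ∃ Ex : Finset (ℕ × ℕ), Ex = ((Icc 1 A) ×ˢ (Ico 1 H)).filter (fun i => ((i.1 : ℕ) : ℤ) ∈ Bt ∨ ((i.1 : ℕ) : ℤ) + i.2 ∈ Bt) :=
    ⟨_, rfl⟩
  refine ⟨Ex, by rw [hEx]; exact filter_subset _ _, ?_, ?_⟩
  · have h1 : Ex ⊆ ((Icc 1 A).filter (fun a : ℕ => (a : ℤ) ∈ Bt)) ×ˢ (Ico 1 H) ∪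
        (((Ico 1 H) ×ˢ ((Icc 1 x).filter (fun c : ℕ => (c : ℤ) ∈ Bt))).image (fun q => (q.2 - q.1, q.1))) := by
      intro i hi
      rw [hEx, mem_filter, hmemI] at hi
      obtain ⟨⟨⟨i1, i2⟩, i3, i4⟩, i5⟩ := hi
      rw [mem_union]
      rcases i5 with i5 | i5
      · left
        rw [mem_product, mem_filter, mem_Icc, mem_Ico]
        exact ⟨⟨⟨i1, i2⟩, i5⟩, i3, i4⟩
      · right
        rw [mem_image]
        refine ⟨(i.2, i.1 + i.2), ?_, ?_⟩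
        · rw [mem_product, mem_filter, mem_Icc, mem_Ico]
          refine ⟨⟨i3, i4⟩, ⟨⟨by simp only; omega, by simp only; omega⟩, ?_⟩⟩
          simp only
          rw [cast_add']
          exact i5
        · ext
          · simp
          · simp
    have hcB : ∀ y : ℕ, #((Icc 1 y).filter (fun a : ℕ => (a : ℤ) ∈ Bt)) ≤ #Bt := by
      intro y
      apply Finset.card_le_card_of_injOn (fun a : ℕ => (a : ℤ))
      · intro a ha
        simp only [coe_filter, Set.mem_ofPred_eq] at ha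
        exact ha.2
      · intro a _ b _ hab
        exact Nat.cast_injective hab
    have h2 : #Ex ≤ #Bt * H + H * #Bt := by
      refine (card_le_card h1).trans ((card_union_le _ _).trans ?_)
      apply add_le_add
      · rw [card_product, Nat.card_Ico]
        exact Nat.mul_le_mul (hcB A) (by omega)
      · refine card_image_le.trans ?_
        rw [card_product, Nat.card_Ico]
        exact Nat.mul_le_mul (by omega) (hcB x)
    have h3 : (#Ex : ℝ) ≤ #Bt * H + H * #Bt := by exact_mod_cast h2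
    refine h3.trans ?_
    rw [hxR] at hBt2
    have h4 : (H : ℝ) * #Bt ≤ H * (2 * A / LX ^ 3) := by gcongr
    calc (#Bt : ℝ) * H + H * #Bt = 2 * (H * #Bt) := by ring
      _ ≤ 2 * (H * (2 * A / LX ^ 3)) := by linarith
      _ = 4 * (H * (A / LX ^ 3)) := by ring
  · intro i hi hiE z hwz hz3
    have hi4 : ((i.1 : ℕ) : ℤ) ∉ Bt ∧ ((i.1 : ℕ) : ℤ) + i.2 ∉ Bt := by
      rw [hEx, mem_filter, not_and, not_or] at hiE
      exact hiE hi
    obtain ⟨⟨i1, i2⟩, i3, i4⟩ := (hmemI i).1 hi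
    have h1 := hclose1 (i.1 : ℤ) (by omega) (by omega) hi4.1 z hwz hz3
    have h2 := hclose1 ((i.1 : ℤ) + i.2) (by omega) (by omega) hi4.2 z hwz hz3
    have h3 := tail2 F (i.1 : ℤ) i.2 (by omega) w z hwz hd hl0 hlcw hd4w κ2 hκ20 (by rw [hκ2]; linarith) hc1
      (hc2 i.2 (by omega) (by omega)) h1 h2
    refine h3.trans (le_of_eq ?_)
    rw [hκ2]
    ring

/-- the weighted sums over the pairs -/
lemma sumprod (A H : ℕ) (f : ℕ × ℕ → ℝ) : ∑ i ∈ (Icc 1 A) ×ˢ (Ico 1 H), (2 / (H : ℝ) * ((H : ℝ) - i.2)) * f i =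
    2 / H * ∑ h ∈ Ico 1 H, ((H : ℝ) - h) * ∑ a ∈ Icc 1 A, f (a, h) := by
  rw [sum_product_right, mul_sum]
  apply sum_congr rfl
  intro h _
  rw [mul_sum, mul_sum]
  apply sum_congr rfl
  intro a _
  ring

lemma sumv (A H : ℕ) (hH : 0 < H) : ∑ i ∈ (Icc 1 A) ×ˢ (Ico 1 H), (2 / (H : ℝ) * ((H : ℝ) - i.2)) ≤ A * H := by
  have hHpos : (0 : ℝ) < H := by exact_mod_cast hH
  have h1 := sumprod A H (fun _ => 1)
  simp only [mul_one] at h1
  rw [h1]
  simp only [sum_const, Nat.card_Icc, Nat.add_sub_cancel, nsmul_eq_mul, mul_one]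
  have h2 : ∑ h ∈ Ico 1 H, ((H : ℝ) - h) ≤ H ^ 2 / 2 := by
    have h3 : ∀ n : ℕ, 1 ≤ n → ∑ h ∈ Ico 1 n, (h : ℝ) = n * (n - 1) / 2 := by
      intro n hn
      induction n, hn using Nat.le_induction with
      | base => simp
      | succ n hn ih =>
        rw [sum_Ico_succ_top hn, ih]
        push_cast
        ring
    rw [sum_sub_distrib, h3 H (by omega), sum_const, Nat.card_Ico, nsmul_eq_mul, Nat.cast_sub (by omega), Nat.cast_one]
    nlinarith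
  rw [← sum_mul]
  calc 2 / (H : ℝ) * ((∑ h ∈ Ico 1 H, ((H : ℝ) - h)) * A) ≤ 2 / (H : ℝ) * ((H ^ 2 / 2) * A) := by gcongr
    _ = A * H := by field_simp

end Run7.h994.PR
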