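import Pool.Agent.Run7.h994.PR.Close

/-!
Project PR (helper994): assembly, general degree, truncated singular series.
-/

set_option autoImplicit false

namespace Run7.h994.PR

open Finset Filter Topology
open Pool.Agent.H373R2.T7 (pz Vz mem_pz Vz_pos)
open Run7.h757.BP.Fin (rpow_ge_log)
open scoped Polynomial

/-- the property of the good pairs -/
def Good2 (F : ℤ[X]) (η c : ℝ) (E N a h : ℕ) : Prop :=
  ∀ z : ℕ, Real.log N ^ E ≤ z → z ^ 6 ≤ N →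
    c ≤ g2 F a (a + h) z ∧ (1 - η) * (g2 F a (a + h) z * (N / (F.natDegree * Real.log N) ^ 2)) ≤ P2 F a (a + h) N

/-- the pointwise bounds for the pairs which are not exceptional -/
lemma up_bad (F : ℤ[X]) {η θ D κ C1 C2 c1 L NL : ℝ} (E2 N A H z0 w : ℕ) (Ex : Finset (ℕ × ℕ)) (hd2 : 2 ≤ F.natDegree)
    (hη : 0 < η) (hη1 : η ≤ 1 / 2) (hθ0 : 0 < θ) (hθ64 : θ ≤ 1 / 64) (hκ : 0 < κ) (hC1 : 1 ≤ C1)
    (hC2 : C2 = 2 * C1 / κ ^ 2) (hc1 : c1 = θ / (2 * C2)) (hD : D = 1 / (F.natDegree : ℝ) ^ 2) (hL : L = Real.log N)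
    (hL8 : 8 ≤ L) (hNL : NL = (N : ℝ) / L ^ 2) (hN10 : 10 ≤ N) (hAhalf : (N : ℝ) ^ (1 / 2 : ℝ) ≤ A)
    (hg2 : C1 * L ^ 2 ≤ θ * (N : ℝ) ^ (1 / 4 : ℝ)) (hwE : (w : ℝ) ≤ (2 * F.natDegree : ℝ) ^ E2 * L ^ E2)
    (hdE : (2 * F.natDegree : ℝ) ^ E2 ≤ L)
    (hz02 : 2 ≤ z0) (hz0κ : (N : ℝ) ^ κ ≤ z0) (hwz0 : w ≤ z0) (hz03 : z0 ^ 3 ≤ 2 * A)
    (hz0P : ∀ a b : ℕ, (P2 F a b N : ℝ) ≤ C1 * N * (Vz z0 ^ 2 * g2 F a b z0) + C1 * (N : ℝ) ^ (3 / 4 : ℝ))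
    (hclose : ∀ i ∈ (Icc 1 A) ×ˢ (Ico 1 H), i ∉ Ex → ∀ z : ℕ, w ≤ z → z ^ 3 ≤ 2 * A →
      |g2 F i.1 ((i.1 : ℤ) + i.2) z - g2 F i.1 ((i.1 : ℤ) + i.2) w| ≤ θ * g2 F i.1 ((i.1 : ℤ) + i.2) w) :
    (∀ i ∈ (Icc 1 A) ×ˢ (Ico 1 H), i ∉ Ex → (P2 F i.1 (i.1 + i.2) N : ℝ) ≤ C2 * NL * g2 F i.1 ((i.1 : ℤ) + i.2) w + θ * NL) ∧
    (∀ i ∈ (Icc 1 A) ×ˢ (Ico 1 H), i ∉ Ex → ¬ Good2 F η c1 (E2 + 2) N i.1 i.2 →
      (P2 F i.1 (i.1 + i.2) N : ℝ) ≤ (1 - η) * D * (1 + θ) * NL * g2 F i.1 ((i.1 : ℤ) + i.2) w + 2 * θ * NL) := by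
  have hdR2 : (2 : ℝ) ≤ F.natDegree := by exact_mod_cast hd2
  have hNR : (10 : ℝ) ≤ N := by exact_mod_cast hN10
  have hN0 : (0 : ℝ) < N := by linarith
  have hN1 : (1 : ℝ) ≤ N := by linarith
  have hL0 : 0 < L := by linarith
  have hC20 : 0 < C2 := by rw [hC2]; positivity
  have hD0 : 0 < D := by rw [hD]; positivity
  have hc10 : 0 < c1 := by rw [hc1]; positivity
  have hNL0 : 0 < NL := by rw [hNL]; positivity
  have hVz : Vz z0 ≤ 1 / (κ * L) := by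
    have h1 : Vz z0 ≤ 1 / Real.log z0 := Pool.Agent.N792.V1_le z0 hz02
    refine h1.trans (one_div_le_one_div_of_le (by positivity) ?_)
    have h2 := Real.log_le_log (by positivity) hz0κ
    rw [Real.log_rpow hN0, ← hL] at h2
    exact h2
  have hVz0 : 0 < Vz z0 := Pool.Agent.H373R2.T7.Vz_pos z0
  have h7 : C1 * (N : ℝ) ^ (3 / 4 : ℝ) ≤ θ * NL := by
    have h8 : (N : ℝ) = (N : ℝ) ^ (3 / 4 : ℝ) * (N : ℝ) ^ (1 / 4 : ℝ) := by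
      rw [← Real.rpow_add hN0]
      norm_num
    rw [hNL, mul_div_assoc', le_div_iff₀ (by positivity)]
    calc C1 * (N : ℝ) ^ (3 / 4 : ℝ) * L ^ 2 = (N : ℝ) ^ (3 / 4 : ℝ) * (C1 * L ^ 2) := by ring
      _ ≤ (N : ℝ) ^ (3 / 4 : ℝ) * (θ * (N : ℝ) ^ (1 / 4 : ℝ)) := by gcongr
      _ = θ * ((N : ℝ) ^ (3 / 4 : ℝ) * (N : ℝ) ^ (1 / 4 : ℝ)) := by ring
      _ = θ * N := by rw [← h8]
  have hup : ∀ i ∈ (Icc 1 A) ×ˢ (Ico 1 H), i ∉ Ex →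
      (P2 F i.1 (i.1 + i.2) N : ℝ) ≤ C2 * NL * g2 F i.1 ((i.1 : ℤ) + i.2) w + θ * NL := by
    intro i hi hiE
    have h1 := hclose i hi hiE z0 hwz0 hz03
    have h2 := (abs_le.1 h1).2
    have hg0 := g2_nonneg F (i.1 : ℤ) ((i.1 : ℤ) + i.2) w
    have h5 := hz0P i.1 (i.1 + i.2)
    rw [cast_add'] at h5
    have h50 : 0 ≤ g2 F i.1 ((i.1 : ℤ) + i.2) z0 := g2_nonneg F _ _ z0
    generalize g2 F i.1 ((i.1 : ℤ) + i.2) w = g at h2 hg0 ⊢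
    generalize g2 F i.1 ((i.1 : ℤ) + i.2) z0 = gz at h2 h5 h50
    have h3 : gz ≤ 2 * g := by
      have h4 : θ * g ≤ 1 * g := mul_le_mul_of_nonneg_right (by linarith) hg0
      linarith
    have h6 : C1 * N * (Vz z0 ^ 2 * gz) ≤ C2 * NL * g := by
      calc C1 * N * (Vz z0 ^ 2 * gz) ≤ C1 * N * ((1 / (κ * L)) ^ 2 * (2 * g)) := by gcongr
        _ = C2 * NL * g := by
            rw [hC2, hNL]
            field_simp
    linarith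
  refine ⟨hup, ?_⟩
  intro i hi hiE hng
  unfold Good2 at hng
  push Not at hng
  obtain ⟨z, hz1, hz2, hz3⟩ := hng
  have hη2 : 0 ≤ 1 - η := by linarith
  have hg0 := g2_nonneg F (i.1 : ℤ) ((i.1 : ℤ) + i.2) w
  have hwz : w ≤ z := by
    have h1 : (w : ℝ) ≤ z := by
      refine hwE.trans (le_trans ?_ hz1)
      rw [← hL]
      have h2 : L ^ (E2 + 2) = (L * L) * L ^ E2 := by ring
      rw [h2]
      apply mul_le_mul_of_nonneg_right _ (by positivity)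
      nlinarith
    exact_mod_cast h1
  have hz3A : z ^ 3 ≤ 2 * A := by
    have h1 : ((z ^ 3 : ℕ) : ℝ) ≤ A := by
      refine le_trans ?_ hAhalf
      rw [← Real.sqrt_eq_rpow]
      apply Real.le_sqrt_of_sq_le
      have h2 : (z ^ 3) ^ 2 ≤ N := by
        rw [← pow_mul]
        exact hz2
      exact_mod_cast h2
    have h2 : z ^ 3 ≤ A := by exact_mod_cast h1
    omega
  have h1 := hclose i hi hiE z hwz hz3A
  have h3' := hup i hi hiE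
  rw [abs_le] at h1
  have h4' : (N : ℝ) / (F.natDegree * Real.log N) ^ 2 = D * NL := by
    rw [hD, hNL, ← hL]
    field_simp
  rw [h4'] at hz3
  generalize g2 F i.1 ((i.1 : ℤ) + i.2) w = g at h1 hg0 h3' ⊢
  generalize g2 F i.1 ((i.1 : ℤ) + i.2) z = gz at h1 hz3
  rcases lt_or_ge gz c1 with hc | hc
  · have h2 : g ≤ 2 * c1 := by
      have h4 : θ * g ≤ 1 / 2 * g := mul_le_mul_of_nonneg_right (by linarith) hg0
      linarith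
    have h4 : C2 * NL * g ≤ C2 * NL * (2 * c1) := by gcongr
    have h5 : C2 * NL * (2 * c1) = θ * NL := by
      rw [hc1]
      field_simp
    have h6 : 0 ≤ (1 - η) * D * (1 + θ) * NL * g := by positivity
    linarith
  · have h2 := hz3 hc
    refine h2.le.trans ?_
    have h3 : gz ≤ (1 + θ) * g := by linarith
    have h5 : 0 ≤ 2 * θ * NL := by positivity
    calc (1 - η) * (gz * (D * NL)) ≤ (1 - η) * (((1 + θ) * g) * (D * NL)) := by gcongr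
      _ = (1 - η) * D * (1 + θ) * NL * g := by ring
      _ ≤ _ := by linarith

open Classical in
/-- the counting for one `A`, `H` -/
lemma core_step (F : ℤ[X]) {η θ D C2 C3 c1 L LX NL : ℝ} (E2 N A H w : ℕ) (Ex : Finset (ℕ × ℕ)) (hd2 : 2 ≤ F.natDegree)
    (hη : 0 < η) (hη1 : η ≤ 1 / 2) (hθ : θ = η * D / 16) (hC20 : 0 < C2) (hC3 : 1 ≤ C3)
    (hD : D = 1 / (F.natDegree : ℝ) ^ 2) (hL : L = Real.log N) (hL0 : 0 < L) (hLX : L / 2 ≤ LX) (hLθ : 64 / θ ≤ L)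
    (hNL : NL = (N : ℝ) / L ^ 2) (hN0 : 0 < N) (hA0 : 0 < A) (hH0 : 0 < H)
    (hExs : Ex ⊆ (Icc 1 A) ×ˢ (Ico 1 H)) (hExc : (#Ex : ℝ) ≤ 4 * (H * (A / LX ^ 3)))
    (hup : ∀ i ∈ (Icc 1 A) ×ˢ (Ico 1 H), i ∉ Ex →
      (P2 F i.1 (i.1 + i.2) N : ℝ) ≤ C2 * NL * g2 F i.1 ((i.1 : ℤ) + i.2) w + θ * NL)
    (hbad : ∀ i ∈ (Icc 1 A) ×ˢ (Ico 1 H), i ∉ Ex → ¬ Good2 F η c1 (E2 + 2) N i.1 i.2 →
      (P2 F i.1 (i.1 + i.2) N : ℝ) ≤ (1 - η) * D * (1 + θ) * NL * g2 F i.1 ((i.1 : ℤ) + i.2) w + 2 * θ * NL)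
    (hSQ : ∑ h ∈ Icc 1 H, ∑ a ∈ Icc 1 A, (g2 F (a : ℕ) ((a + h : ℕ) : ℕ) w) ^ 2 ≤ C3 * (A * H))
    (hAV : ∑ h ∈ Ico 1 H, ((H : ℝ) - h) * ∑ a ∈ Icc 1 A, g2 F (a : ℕ) ((a + h : ℕ) : ℕ) w ≤
      (1 + θ) * (A * ((H : ℝ) ^ 2 / 2)))
    (hFM : (1 - θ) * (A * ((H : ℝ) ^ 2 / 2) * (N / (F.natDegree * Real.log N) ^ 2)) ≤
      ∑ h ∈ Ico 1 H, ((H : ℝ) - h) * ∑ a ∈ Icc 1 A, (P2 F a (a + h) N : ℝ)) :
    η ^ 2 * D ^ 2 / (16 * C2 ^ 2 * C3) * (A * H) ≤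
      (#(((Icc 1 A) ×ˢ (Ico 1 H)).filter (fun i => Good2 F η c1 (E2 + 2) N i.1 i.2)) : ℝ) := by
  have hdR2 : (2 : ℝ) ≤ F.natDegree := by exact_mod_cast hd2
  have hN0' : (0 : ℝ) < N := by exact_mod_cast hN0
  have hApos : (0 : ℝ) < A := by exact_mod_cast hA0
  have hHpos : (0 : ℝ) < H := by exact_mod_cast hH0
  have hD0 : 0 < D := by rw [hD]; positivity
  have hθ0 : 0 < θ := by rw [hθ]; positivity
  have hNL0 : 0 < NL := by rw [hNL]; positivity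
  have hD2 : D ≤ 1 / 2 := by
    rw [hD]
    apply one_div_le_one_div_of_le (by norm_num)
    nlinarith
  have hmemI : ∀ i : ℕ × ℕ, i ∈ (Icc 1 A) ×ˢ (Ico 1 H) → (1 ≤ i.1 ∧ i.1 ≤ A) ∧ (1 ≤ i.2 ∧ i.2 < H) := by
    intro i hi
    rw [mem_product, mem_Icc, mem_Ico] at hi
    exact hi
  refine count_good2 ((Icc 1 A) ×ˢ (Ico 1 H)) (fun i => 2 / (H : ℝ) * ((H : ℝ) - i.2))
    (fun i => (P2 F i.1 (i.1 + i.2) N : ℝ)) (fun i => g2 F i.1 ((i.1 : ℤ) + i.2) w) Ex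
    (((Icc 1 A) ×ˢ (Ico 1 H)).filter (fun i => Good2 F η c1 (E2 + 2) N i.1 i.2)) hη hη1 hD0 hD2 hθ hC20 (by linarith) hNL0
    (by positivity) ?_ ?_ (sumv A H hH0) (fun i => g2_nonneg F _ _ w) hExs (filter_subset _ _) hup ?_ ?_ ?_ ?_ ?_
  · intro i hi
    obtain ⟨-, -, i4⟩ := hmemI i hi
    have : (i.2 : ℝ) ≤ H := by exact_mod_cast i4.le
    exact mul_nonneg (by positivity) (by linarith)
  · intro i _
    have h1 : (0 : ℝ) ≤ i.2 := Nat.cast_nonneg _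
    rw [div_mul_eq_mul_div, div_le_iff₀ hHpos]
    linarith
  · intro i hi hiE hiG
    refine hbad i hi hiE (fun hg => hiG ?_)
    rw [mem_filter]
    exact ⟨hi, hg⟩
  · calc ∑ i ∈ Ex, 2 / (H : ℝ) * ((H : ℝ) - i.2) * (P2 F i.1 (i.1 + i.2) N : ℝ) ≤ ∑ _i ∈ Ex, 2 * (N : ℝ) := by
          refine sum_le_sum fun i _ => ?_
          have h1 : (0 : ℝ) ≤ i.2 := Nat.cast_nonneg _
          have h2 : 2 / (H : ℝ) * ((H : ℝ) - i.2) ≤ 2 := by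
            rw [div_mul_eq_mul_div, div_le_iff₀ hHpos]
            linarith
          exact mul_le_mul h2 (P2_le' F _ _ N) (Nat.cast_nonneg _) (by norm_num)
      _ = #Ex * (2 * N) := by rw [sum_const, nsmul_eq_mul]
      _ ≤ (4 * (H * (A / LX ^ 3))) * (2 * N) := by gcongr
      _ ≤ (4 * (H * (A / (L / 2) ^ 3))) * (2 * N) := by gcongr
      _ = ((A * H) * NL) * (64 / L) := by
          rw [hNL]
          field_simp
          ring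
      _ ≤ ((A * H) * NL) * θ := by
          apply mul_le_mul_of_nonneg_left _ (by positivity)
          rw [div_le_iff₀ hL0]
          rw [div_le_iff₀ hθ0] at hLθ
          linarith
      _ = _ := by ring
  · refine le_trans ?_ hSQ
    rw [sum_product_right]
    refine le_trans (sum_le_sum_of_subset_of_nonneg
      (f := fun h : ℕ => ∑ a ∈ Icc 1 A, g2 F ((a, h) : ℕ × ℕ).1 ((((a, h) : ℕ × ℕ).1 : ℤ) + (((a, h) : ℕ × ℕ).2 : ℤ)) w ^ 2)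
      (t := Icc 1 H) ?_ ?_) ?_
    · intro h hh
      rw [mem_Ico] at hh
      rw [mem_Icc]
      omega
    · intro h _ _
      exact sum_nonneg fun a _ => sq_nonneg _
    · refine sum_le_sum fun h _ => sum_le_sum fun a _ => ?_
      rw [cast_add']
  · rw [sumprod A H (fun i => g2 F i.1 ((i.1 : ℤ) + i.2) w)]
    have h1 : ∑ h ∈ Ico 1 H, ((H : ℝ) - h) * ∑ a ∈ Icc 1 A, g2 F ((a, h) : ℕ × ℕ).1 ((((a, h) : ℕ × ℕ).1 : ℤ) + (((a, h) : ℕ × ℕ).2 : ℤ)) w ≤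
        (1 + θ) * (A * ((H : ℝ) ^ 2 / 2)) := by
      refine le_trans (le_of_eq ?_) hAV
      apply sum_congr rfl
      intro h _
      congr 1
    calc 2 / (H : ℝ) * ∑ h ∈ Ico 1 H, ((H : ℝ) - h) * ∑ a ∈ Icc 1 A, g2 F ((a, h) : ℕ × ℕ).1 ((((a, h) : ℕ × ℕ).1 : ℤ) + (((a, h) : ℕ × ℕ).2 : ℤ)) w
        ≤ 2 / (H : ℝ) * ((1 + θ) * (A * ((H : ℝ) ^ 2 / 2))) := by gcongr
      _ = (1 + θ) * (A * H) := by field_simp
  · rw [sumprod A H (fun i => (P2 F i.1 (i.1 + i.2) N : ℝ))]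
    calc (1 - θ) * (D * ((A * H) * NL)) =
          2 / (H : ℝ) * ((1 - θ) * (A * ((H : ℝ) ^ 2 / 2) * (N / (F.natDegree * Real.log N) ^ 2))) := by
          rw [hNL, ← hL, hD]
          field_simp
      _ ≤ 2 / (H : ℝ) * ∑ h ∈ Ico 1 H, ((H : ℝ) - h) * ∑ a ∈ Icc 1 A, (P2 F a (a + h) N : ℝ) := by gcongr

/-- the choice of the smaller `A`, `H` -/
lemma choose_AH {b B L : ℝ} {A0 H0 : ℕ} (hb0 : 0 < b) (hb1 : b ≤ 1) (hBL : 0 < B * L) (hL : 1 ≤ L) (hB : 0 < B)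
    (hA0 : 2 ≤ b * A0) (hH01 : B * L ≤ H0) (hH02 : H0 ≤ A0) (hbA : (B + 2) * L ≤ b * ⌊b * A0⌋₊) :
    ∃ A H : ℕ, (A : ℝ) ≤ b * A0 ∧ b * A0 / 2 ≤ A ∧ A ≤ A0 ∧ H ≤ H0 ∧ B * L ≤ H ∧ (H : ℝ) ≤ b * A ∧ H ≤ A ∧ 0 < H ∧
      b ^ 2 * H0 / 4 ≤ H := by
  have hA0R : (0 : ℝ) ≤ A0 := Nat.cast_nonneg _
  have hH0R : (0 : ℝ) ≤ H0 := Nat.cast_nonneg _
  obtain ⟨A, hA⟩ : ∃ A : ℕ, A = ⌊b * A0⌋₊ := ⟨_, rfl⟩
  have hAle : (A : ℝ) ≤ b * A0 := by rw [hA]; exact Nat.floor_le (by positivity)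
  have hAge2 : b * A0 / 2 ≤ A := by
    have h1 : b * A0 < A + 1 := by rw [hA]; exact Nat.lt_floor_add_one _
    linarith
  have hAA0 : A ≤ A0 := by
    have h1 : (A : ℝ) ≤ A0 := by
      refine hAle.trans ?_
      calc b * A0 ≤ 1 * A0 := by gcongr
        _ = A0 := one_mul _
    exact_mod_cast h1
  rw [← hA] at hbA
  obtain ⟨H, hH⟩ : ∃ H : ℕ, H = min H0 ⌊b * A⌋₊ := ⟨_, rfl⟩
  have hAR : (0 : ℝ) ≤ A := Nat.cast_nonneg _
  have hfl : (B + 1) * L ≤ (⌊b * A⌋₊ : ℝ) := by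
    have h1 : b * A < (⌊b * A⌋₊ : ℝ) + 1 := Nat.lt_floor_add_one _
    linarith
  have hfl2 : b * A / 2 ≤ (⌊b * A⌋₊ : ℝ) := by
    have h1 : b * A < (⌊b * A⌋₊ : ℝ) + 1 := Nat.lt_floor_add_one _
    linarith
  have hHB : B * L ≤ H := by
    rw [hH]
    push_cast
    apply le_min hH01
    linarith
  have hHc0 : (H : ℝ) ≤ b * A := by
    have h1 : H ≤ ⌊b * A⌋₊ := by rw [hH]; exact min_le_right _ _
    have h2 : (H : ℝ) ≤ (⌊b * A⌋₊ : ℝ) := by exact_mod_cast h1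
    exact h2.trans (Nat.floor_le (by positivity))
  have hHpos : (0 : ℝ) < H := lt_of_lt_of_le hBL hHB
  refine ⟨A, H, hAle, hAge2, hAA0, by rw [hH]; exact min_le_left _ _, hHB, hHc0, ?_, by exact_mod_cast hHpos, ?_⟩
  · have h1 : (H : ℝ) ≤ A := by
      refine hHc0.trans ?_
      calc b * A ≤ 1 * A := by gcongr
        _ = A := one_mul _
    exact_mod_cast h1
  · have hH0A0 : (H0 : ℝ) ≤ A0 := by exact_mod_cast hH02
    have h1 : b ^ 2 * H0 / 4 ≤ H0 := by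
      have : b ^ 2 * H0 ≤ 1 * H0 := by
        apply mul_le_mul_of_nonneg_right _ hH0R
        exact pow_le_one₀ hb0.le hb1
      linarith
    have h2 : b ^ 2 * H0 / 4 ≤ (⌊b * A⌋₊ : ℝ) := by
      refine le_trans ?_ hfl2
      have h3 : b * (b * A0 / 2) ≤ b * A := by gcongr
      have h4 : b ^ 2 * H0 ≤ b ^ 2 * A0 := by gcongr
      linarith
    rw [hH]
    push_cast
    exact le_min h1 h2

open Classical in
theorem core2 (F : ℤ[X]) (hd2 : 2 ≤ F.natDegree) (e : ℝ) (he2 : 1 / 2 ≤ e)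
    (hFM : S_FM2e F e) (hUP : S_UP2 F) (hSQ : S_SQ2 F) (hAV : S_AV2 F) (η : ℝ) (hη : 0 < η) (hη1 : η ≤ 1 / 2) :
    ∃ (E : ℕ) (c B : ℝ), 0 < c ∧ 0 < B ∧ ∀ ε : ℝ, 0 < ε → ∃ N0 : ℕ, ∀ N : ℕ, N0 ≤ N → ∀ A H : ℕ,
      (N : ℝ) ^ (e + ε) ≤ A → (A : ℝ) ≤ (N : ℝ) ^ (F.natDegree - 1) → B * Real.log N ≤ H → H ≤ A →
      c * (A * H) ≤ (#(((Icc 1 A) ×ˢ (Icc 1 H)).filter (fun i => Good2 F η c E N i.1 i.2)) : ℝ) := by
  have hdR2 : (2 : ℝ) ≤ F.natDegree := by exact_mod_cast hd2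
  obtain ⟨D, hD⟩ : ∃ D : ℝ, D = 1 / (F.natDegree : ℝ) ^ 2 := ⟨_, rfl⟩
  have hD0 : 0 < D := by rw [hD]; positivity
  have hD2 : D ≤ 1 / 2 := by
    rw [hD]
    apply one_div_le_one_div_of_le (by norm_num)
    nlinarith
  obtain ⟨C1, hC1, κ, hκ, hκ1, NU, hUP⟩ := hUP
  obtain ⟨E1, hE1⟩ := close2 F (by omega)
  obtain ⟨E2, hE2⟩ : ∃ E2 : ℕ, E2 = E1 + 4 := ⟨_, rfl⟩
  obtain ⟨C3, hC3, NS, hSQ⟩ := hSQ (E2 + 1)
  obtain ⟨C2, hC2⟩ : ∃ C2 : ℝ, C2 = 2 * C1 / κ ^ 2 := ⟨_, rfl⟩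
  have hC20 : 0 < C2 := by rw [hC2]; positivity
  obtain ⟨θ, hθ⟩ : ∃ θ : ℝ, θ = η * D / 16 := ⟨_, rfl⟩
  have hθ0 : 0 < θ := by rw [hθ]; positivity
  have hθ64 : θ ≤ 1 / 64 := by
    have : η * D ≤ 1 / 2 * (1 / 2) := by gcongr
    rw [hθ]
    linarith
  obtain ⟨X1, hX1⟩ := hE1 E2 (by omega) θ hθ0 (by linarith)
  obtain ⟨NA, hAV⟩ := hAV (E2 + 1) θ hθ0
  obtain ⟨c0, B, hc0, hB0, hFM⟩ := hFM θ hθ0
  obtain ⟨c1, hc1⟩ : ∃ c1 : ℝ, c1 = θ / (2 * C2) := ⟨_, rfl⟩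
  have hc10 : 0 < c1 := by rw [hc1]; positivity
  obtain ⟨b, hb⟩ : ∃ b : ℝ, b = min c0 1 := ⟨_, rfl⟩
  have hb0 : 0 < b := by rw [hb]; exact lt_min hc0 one_pos
  have hb1 : b ≤ 1 := by rw [hb]; exact min_le_right _ _
  have hbc : b ≤ c0 := by rw [hb]; exact min_le_left _ _
  obtain ⟨c2, hc2⟩ : ∃ c2 : ℝ, c2 = η ^ 2 * D ^ 2 / (16 * C2 ^ 2 * C3) := ⟨_, rfl⟩
  have hc20 : 0 < c2 := by rw [hc2]; positivity
  refine ⟨E2 + 2, min c1 (c2 * b ^ 3 / 8), B, lt_min hc10 (by positivity), hB0, fun ε hε => ?_⟩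
  obtain ⟨NF, hFM⟩ := hFM (ε / 2) (by positivity)
  -- largeness
  have hlimL : Tendsto (fun N : ℕ => Real.log (N : ℝ)) atTop atTop :=
    Real.tendsto_log_atTop.comp tendsto_natCast_atTop_atTop
  have hlimp : ∀ p : ℝ, 0 < p → Tendsto (fun N : ℕ => (N : ℝ) ^ p) atTop atTop := fun p hp =>
    (tendsto_rpow_atTop hp).comp tendsto_natCast_atTop_atTop
  obtain ⟨M1, hM1⟩ := eventually_atTop.1 (rpow_ge_log κ hκ E2 ((2 * F.natDegree : ℝ) ^ E2) (by positivity))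
  obtain ⟨M2, hM2⟩ := eventually_atTop.1 (rpow_ge_log (1 / 4) (by norm_num) 2 (C1 / θ) (by positivity))
  obtain ⟨M3, hM3⟩ := eventually_atTop.1 (hlimL.eventually_ge_atTop
    ((2 * F.natDegree : ℝ) ^ E2 + 2 * 2 ^ E2 + 64 / θ + 8))
  obtain ⟨M4, hM4⟩ := eventually_atTop.1 ((hlimp (ε / 2) (by positivity)).eventually_ge_atTop (2 / b))
  obtain ⟨M5, hM5⟩ := eventually_atTop.1 ((hlimp (1 / 2) (by norm_num)).eventually_ge_atTop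
    ((X1 : ℝ) + NS + NA + 2))
  obtain ⟨M6, hM6⟩ := eventually_atTop.1 (rpow_ge_log (1 / 2) (by norm_num) 1 ((B + 2) / b) (by positivity))
  refine ⟨NU + NF + M1 + M2 + M3 + M4 + M5 + M6 + 10, fun N hN A0 H0 hA01 hA02 hH01 hH02 => ?_⟩
  have g1 := hM1 N (by omega)
  have g2' := hM2 N (by omega)
  have g3 := hM3 N (by omega)
  have g4 := hM4 N (by omega)
  have g5 := hM5 N (by omega)
  have g6 := hM6 N (by omega)
  rw [pow_one] at g6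
  obtain ⟨L, hL⟩ : ∃ L : ℝ, L = Real.log N := ⟨_, rfl⟩
  rw [← hL] at g1 g2' g3 g6 hH01
  have hNR : (10 : ℝ) ≤ N := by exact_mod_cast (by omega : 10 ≤ N)
  have hN0 : (0 : ℝ) < N := by linarith
  have hN1 : (1 : ℝ) ≤ N := by linarith
  have h256θ : 0 < 64 / θ := by positivity
  have h4E : (1 : ℝ) ≤ (2 * F.natDegree : ℝ) ^ E2 := one_le_pow₀ (by linarith)
  have h2E : (1 : ℝ) ≤ 2 ^ E2 := one_le_pow₀ (by norm_num)
  have hL8 : 8 ≤ L := by linarith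
  have hL0 : 0 < L := by linarith
  -- `A`, `H`
  have hNe1 : 1 ≤ (N : ℝ) ^ (e + ε / 2) := Real.one_le_rpow hN1 (by linarith)
  have hbA0 : 2 * (N : ℝ) ^ (e + ε / 2) ≤ b * A0 := by
    have h1 : (N : ℝ) ^ (e + ε) = (N : ℝ) ^ (e + ε / 2) * (N : ℝ) ^ (ε / 2) := by
      rw [← Real.rpow_add hN0]
      congr 1
      ring
    rw [h1] at hA01
    have h2 : (N : ℝ) ^ (e + ε / 2) * (2 / b) ≤ A0 := by
      refine le_trans ?_ hA01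
      gcongr
    calc 2 * (N : ℝ) ^ (e + ε / 2) = b * ((N : ℝ) ^ (e + ε / 2) * (2 / b)) := by field_simp
      _ ≤ _ := by gcongr
  have hfloor : (N : ℝ) ^ (e + ε / 2) ≤ (⌊b * A0⌋₊ : ℝ) := by
    have h1 : b * A0 < (⌊b * A0⌋₊ : ℝ) + 1 := Nat.lt_floor_add_one _
    linarith
  have hhalf : (N : ℝ) ^ (1 / 2 : ℝ) ≤ (N : ℝ) ^ (e + ε / 2) :=
    Real.rpow_le_rpow_of_exponent_le hN1 (by linarith)
  obtain ⟨A, H, hAle, hAge2, hAA0, hHH0, hHB, hHc0, hHA, hHpos', hHge⟩ := choose_AH hb0 hb1 (by positivity) (by linarith) hB0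
    (A0 := A0) (H0 := H0) (L := L) (by linarith) hH01 hH02 (by
      have h1 : (B + 2) / b * L ≤ (⌊b * A0⌋₊ : ℝ) := g6.trans (hhalf.trans hfloor)
      rw [div_mul_eq_mul_div, div_le_iff₀ hb0] at h1
      linarith)
  have hA0R : (0 : ℝ) ≤ A0 := Nat.cast_nonneg _
  have hH0R : (0 : ℝ) ≤ H0 := Nat.cast_nonneg _
  have hAge : (N : ℝ) ^ (e + ε / 2) ≤ A := by linarith
  have hAlec : (A : ℝ) ≤ c0 * (N : ℝ) ^ (F.natDegree - 1) := by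
    refine hAle.trans ?_
    gcongr
  have hAN : (A : ℝ) ≤ (N : ℝ) ^ (F.natDegree - 1) := by
    have h1 : (A : ℝ) ≤ A0 := by exact_mod_cast hAA0
    exact h1.trans hA02
  have hAhalf : (N : ℝ) ^ (1 / 2 : ℝ) ≤ A := hhalf.trans hAge
  have hAbig : (X1 : ℝ) + NS + NA + 2 ≤ A := g5.trans hAhalf
  have hAbig' : X1 + NS + NA + 2 ≤ A := by exact_mod_cast hAbig
  have hApos' : 0 < A := by omega
  have hApos : (0 : ℝ) < A := by exact_mod_cast hApos'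
  have hHc : (H : ℝ) ≤ c0 * A := hHc0.trans (by gcongr)
  obtain ⟨LX, hLX⟩ : ∃ LX : ℝ, LX = Real.log ((2 * A : ℕ) : ℝ) := ⟨_, rfl⟩
  obtain ⟨LA, hLA⟩ : ∃ LA : ℝ, LA = Real.log A := ⟨_, rfl⟩
  have hLAL : L / 2 ≤ LA := by
    rw [hLA]
    have h1 := Real.log_le_log (by positivity) hAhalf
    rw [Real.log_rpow hN0, ← hL] at h1
    linarith
  have hLXe : LX = Real.log 2 + LA := by
    rw [hLX]
    push_cast
    rw [Real.log_mul (by norm_num) hApos.ne', ← hLA]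
  have hlog2a : 0 < Real.log 2 := Real.log_pos (by norm_num)
  have hlog2b : Real.log 2 < 1 := by
    have := Real.log_two_lt_d9
    linarith
  have hLA2 : LA ≤ F.natDegree * L := by
    rw [hLA]
    have h1 := Real.log_le_log hApos hAN
    rw [Real.log_pow, ← hL] at h1
    have h2 : ((F.natDegree - 1 : ℕ) : ℝ) ≤ F.natDegree := by exact_mod_cast (by omega : F.natDegree - 1 ≤ F.natDegree)
    exact h1.trans (mul_le_mul_of_nonneg_right h2 hL0.le)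
  have hdL : 1 ≤ F.natDegree * L := by nlinarith
  have hLX2 : LX ≤ 2 * F.natDegree * L := by linarith
  have hLX0 : 0 < LX := by linarith
  have hLX4 : 4 ≤ LX := by linarith
  have hLA0 : 0 < LA := by linarith
  -- `w`
  obtain ⟨w, hw⟩ : ∃ w : ℕ, w = ⌊LX ^ E2⌋₊ := ⟨_, rfl⟩
  have hwle : (w : ℝ) ≤ LX ^ E2 := by rw [hw]; exact Nat.floor_le (by positivity)
  have hwleA : (w : ℝ) ≤ LA ^ (E2 + 1) := by
    refine hwle.trans ?_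
    have h1 : LX ≤ 2 * LA := by linarith
    calc LX ^ E2 ≤ (2 * LA) ^ E2 := pow_le_pow_left₀ hLX0.le h1 _
      _ = 2 ^ E2 * LA ^ E2 := mul_pow _ _ _
      _ ≤ LA * LA ^ E2 := by
          apply mul_le_mul_of_nonneg_right _ (by positivity)
          linarith
      _ = LA ^ (E2 + 1) := by ring
  have hLXE : LX * LX ≤ LX ^ E2 := by
    calc LX * LX = LX ^ 2 := by ring
      _ ≤ LX ^ E2 := pow_le_pow_right₀ (by linarith) (by omega)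
  have hLXsq : 4 * LX ≤ LX * LX := mul_le_mul_of_nonneg_right hLX4 hLX0.le
  have hwge : LX ≤ w := by
    have h1 : LX ^ E2 < w + 1 := by rw [hw]; exact Nat.lt_floor_add_one _
    linarith
  have hw2 : 2 ≤ w := by
    have h1 : (2 : ℝ) ≤ w := by linarith
    exact_mod_cast h1
  have h4L : (w : ℝ) ≤ (2 * F.natDegree : ℝ) ^ E2 * L ^ E2 := by
    refine hwle.trans ?_
    rw [← mul_pow]
    exact pow_le_pow_left₀ hLX0.le hLX2 _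
  obtain ⟨z0, hz02, hz0κ, hz010, hz0P⟩ := hUP N (by omega)
  have hwz0 : w ≤ z0 := by
    have h1 : (w : ℝ) ≤ z0 := h4L.trans (g1.trans hz0κ)
    exact_mod_cast h1
  have hz03 : z0 ^ 3 ≤ 2 * A := by
    have h1 : ((z0 ^ 3 : ℕ) : ℝ) ≤ A := by
      push_cast
      calc (z0 : ℝ) ^ 3 ≤ ((N : ℝ) ^ (1 / 10 : ℝ)) ^ 3 := by gcongr
        _ = (N : ℝ) ^ (3 / 10 : ℝ) := by
            rw [← Real.rpow_natCast, ← Real.rpow_mul hN0.le]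
            norm_num
        _ ≤ (N : ℝ) ^ (1 / 2 : ℝ) := Real.rpow_le_rpow_of_exponent_le hN1 (by norm_num)
        _ ≤ A := hAhalf
    have h2 : z0 ^ 3 ≤ A := by exact_mod_cast h1
    omega
  obtain ⟨Ex, hEx1, hEx2, hEx3⟩ := hX1 A (by omega) H hHA
  rw [← hLX] at hEx2 hEx3
  rw [← hw] at hEx3
  obtain ⟨NL, hNL⟩ : ∃ NL : ℝ, NL = (N : ℝ) / L ^ 2 := ⟨_, rfl⟩
  have hg2 : C1 * L ^ 2 ≤ θ * (N : ℝ) ^ (1 / 4 : ℝ) := by
    rw [div_mul_eq_mul_div, div_le_iff₀ hθ0] at g2'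
    linarith
  obtain ⟨hup, hbad⟩ := up_bad F (η := η) (D := D) (c1 := c1) (NL := NL) E2 N A H z0 w Ex hd2 hη hη1 hθ0 hθ64 hκ hC1 hC2 hc1 hD hL
    hL8 hNL (by omega) hAhalf hg2 h4L (by linarith) hz02 hz0κ hwz0 hz03 hz0P hEx3
  have hSQ' := hSQ A (by omega) w hw2 (by rw [← hLA]; exact hwleA) H
  have hAV' := hAV A (by omega) w (by rw [← hLA]; linarith) (by rw [← hLA]; exact hwleA) H
  have hFMN := hFM N (by omega) A H hAge hAlec (by rw [← hL]; exact hHB) hHc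
  have hfin := core_step F (C3 := C3) (c1 := c1) (LX := LX) E2 N A H w Ex hd2 hη hη1 hθ hC20 hC3 hD hL hL0 (by linarith)
    (by linarith) hNL (by omega) hApos' hHpos' hEx1 hEx2 hup hbad hSQ' hAV' hFMN
  rw [← hc2] at hfin
  have hGsub : (#(((Icc 1 A) ×ˢ (Ico 1 H)).filter (fun i => Good2 F η c1 (E2 + 2) N i.1 i.2)) : ℝ) ≤
      (#(((Icc 1 A0) ×ˢ (Icc 1 H0)).filter (fun i => Good2 F η (min c1 (c2 * b ^ 3 / 8)) (E2 + 2) N i.1 i.2)) : ℝ) := by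
    have : ((Icc 1 A) ×ˢ (Ico 1 H)).filter (fun i => Good2 F η c1 (E2 + 2) N i.1 i.2) ⊆
        ((Icc 1 A0) ×ˢ (Icc 1 H0)).filter (fun i => Good2 F η (min c1 (c2 * b ^ 3 / 8)) (E2 + 2) N i.1 i.2) := by
      intro i hi
      rw [mem_filter, mem_product, mem_Icc, mem_Ico] at hi
      rw [mem_filter, mem_product, mem_Icc, mem_Icc]
      refine ⟨⟨⟨hi.1.1.1, hi.1.1.2.trans hAA0⟩, ⟨hi.1.2.1, by omega⟩⟩, ?_⟩
      intro z hz1 hz2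
      obtain ⟨h1, h2⟩ := hi.2 z hz1 hz2
      exact ⟨(min_le_left _ _).trans h1, h2⟩
    exact_mod_cast card_le_card this
  refine le_trans ?_ (hfin.trans hGsub)
  calc min c1 (c2 * b ^ 3 / 8) * (A0 * H0) ≤ (c2 * b ^ 3 / 8) * (A0 * H0) := by
        apply mul_le_mul_of_nonneg_right (min_le_right _ _) (by positivity)
    _ = c2 * ((b * A0 / 2) * (b ^ 2 * H0 / 4)) := by ring
    _ ≤ c2 * (A * H) := by
        apply mul_le_mul_of_nonneg_left _ hc20.le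
        apply mul_le_mul hAge2 hHge (by positivity) (Nat.cast_nonneg _)

end Run7.h994.PR
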