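import Mathlib

/-!
Project PR (helper994): upper bound for `∫ dt / log² t`.
-/

set_option autoImplicit false

namespace Run7.h994.PR

open Filter Topology

lemma rpow_ge_log' (κ : ℝ) (hκ : 0 < κ) (E : ℕ) (c : ℝ) (hc : 0 < c) :
    ∀ᶠ N : ℕ in atTop, c * Real.log N ^ E ≤ (N : ℝ) ^ κ := by
  have h := isLittleO_log_rpow_atTop (show 0 < κ / (E + 1) by positivity)
  have h2 : ∀ᶠ x : ℝ in atTop, Real.log x ≤ x ^ (κ / (E + 1)) := by
    filter_upwards [h.bound one_pos, eventually_ge_atTop 1] with x hx hx1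
    rw [one_mul, Real.norm_of_nonneg (Real.log_nonneg hx1), Real.norm_of_nonneg (by positivity)] at hx
    exact hx
  have h3 : ∀ᶠ x : ℝ in atTop, c ≤ x ^ (κ / (E + 1)) := (tendsto_rpow_atTop (by positivity)).eventually_ge_atTop c
  have h4 := (h2.and (h3.and (eventually_ge_atTop (1 : ℝ))))
  filter_upwards [tendsto_natCast_atTop_atTop.eventually h4] with N hN
  obtain ⟨g1, g2, g3⟩ := hN
  have g4 : 0 ≤ Real.log N := Real.log_nonneg g3
  have g5 : (0 : ℝ) ≤ (N : ℝ) ^ (κ / (E + 1)) := by positivity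
  calc c * Real.log N ^ E ≤ (N : ℝ) ^ (κ / (E + 1)) * ((N : ℝ) ^ (κ / (E + 1))) ^ E := by gcongr
    _ = ((N : ℝ) ^ (κ / (E + 1))) ^ (E + 1) := by ring
    _ = (N : ℝ) ^ κ := by
        rw [← Real.rpow_natCast, ← Real.rpow_mul (by linarith)]
        congr 1
        push_cast
        field_simp

lemma li2_nonneg {N : ℕ} (hN : 2 ≤ N) (k : ℕ) : 0 ≤ ∫ t in (2 : ℝ)..(N : ℝ), 1 / Real.log t ^ k := by
  apply intervalIntegral.integral_nonneg (by exact_mod_cast hN)
  intro t ht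
  rw [Set.mem_Icc] at ht
  have := Real.log_nonneg (show (1 : ℝ) ≤ t by linarith)
  positivity

lemma li2_int (k : ℕ) (u v : ℝ) (hu : 2 ≤ u) (huv : u ≤ v) :
    IntervalIntegrable (fun t => 1 / Real.log t ^ k) MeasureTheory.volume u v := by
  apply ContinuousOn.intervalIntegrable
  rw [Set.uIcc_of_le huv]
  apply ContinuousOn.div continuousOn_const
  · apply ContinuousOn.pow
    apply Real.continuousOn_log.mono
    intro t ht
    rw [Set.mem_Icc] at ht
    simp only [Set.mem_compl_iff, Set.mem_singleton_iff]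
    linarith
  · intro t ht
    rw [Set.mem_Icc] at ht
    exact pow_ne_zero _ (Real.log_pos (by linarith)).ne'

lemma li2_short (k : ℕ) (y u v : ℝ) (hy : 2 ≤ y) (hu : y ≤ u) (huv : u ≤ v) :
    ∫ t in u..v, 1 / Real.log t ^ k ≤ (v - u) / Real.log y ^ k := by
  have hly : 0 < Real.log y := Real.log_pos (by linarith)
  have h := intervalIntegral.norm_integral_le_of_norm_le_const (a := u) (b := v)
    (f := fun t => 1 / Real.log t ^ k) (C := 1 / Real.log y ^ k) (by
      intro t ht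
      rw [Set.uIoc_of_le huv] at ht
      have h3 : Real.log y ≤ Real.log t := Real.log_le_log (by linarith) (by linarith [ht.1])
      rw [Real.norm_eq_abs, abs_of_pos (by
        have : 0 < Real.log t := by linarith
        positivity)]
      exact one_div_le_one_div_of_le (by positivity) (pow_le_pow_left₀ hly.le h3 _))
  rw [Real.norm_eq_abs, abs_of_nonneg (by linarith : 0 ≤ v - u)] at h
  refine (le_abs_self _).trans (h.trans (le_of_eq ?_))
  ring

lemma li2_upper (k : ℕ) (η : ℝ) (hη : 0 < η) : ∀ᶠ N : ℕ in atTop,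
    ∫ t in (2 : ℝ)..(N : ℝ), 1 / Real.log t ^ k ≤ (1 + η) * (N / Real.log N ^ k) := by
  obtain ⟨δ, hδ⟩ : ∃ δ : ℝ, δ = min (1 / 4) (η / (4 * (k + 1))) := ⟨_, rfl⟩
  have hk0 : (0 : ℝ) ≤ k := Nat.cast_nonneg k
  have hδ0 : 0 < δ := by rw [hδ]; positivity
  have hδ1 : δ ≤ 1 / 4 := by rw [hδ]; exact min_le_left _ _
  have hδ2 : δ * (4 * (k + 1)) ≤ η := by
    have : δ ≤ η / (4 * (k + 1)) := by rw [hδ]; exact min_le_right _ _
    rwa [le_div_iff₀ (by positivity)] at this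
  have hl2 : 0 < Real.log 2 := Real.log_pos (by norm_num)
  -- choose `γ` with `1 / (1 - γ)^k ≤ 1 + η / 2`
  have hcont : Tendsto (fun γ : ℝ => 1 / (1 - γ) ^ k) (𝓝 0) (𝓝 (1 / (1 - 0) ^ k)) := by
    apply Tendsto.div tendsto_const_nhds
    · exact (tendsto_const_nhds.sub tendsto_id).pow k
    · simp
  have hev : ∀ᶠ γ : ℝ in 𝓝 0, 1 / (1 - γ) ^ k < 1 + η / 2 := by
    apply hcont.eventually_lt_const
    simp
    positivity
  obtain ⟨r, hr0, hr⟩ := Metric.eventually_nhds_iff.1 hev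
  obtain ⟨γ, hγ⟩ : ∃ γ : ℝ, γ = min (1 / 4) (r / 2) := ⟨_, rfl⟩
  have hγ0 : 0 < γ := by rw [hγ]; positivity
  have hγ1 : γ ≤ 1 / 4 := by rw [hγ]; exact min_le_left _ _
  have hγr : γ < r := by
    have : γ ≤ r / 2 := by rw [hγ]; exact min_le_right _ _
    linarith
  have hγk : 1 / (1 - γ) ^ k < 1 + η / 2 := hr (by rw [Real.dist_eq, sub_zero, abs_of_pos hγ0]; exact hγr)
  filter_upwards [rpow_ge_log' γ hγ0 k (2 / (η * Real.log 2 ^ k)) (by positivity), rpow_ge_log' (1 / 2) (by norm_num) 0 2 (by norm_num),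
    eventually_ge_atTop 2] with N h1 h2 h4
  rw [pow_zero, mul_one] at h2
  have hN : (2 : ℝ) ≤ N := by exact_mod_cast h4
  have hN0 : (0 : ℝ) < N := by linarith
  obtain ⟨L, hL⟩ : ∃ L : ℝ, L = Real.log N := ⟨_, rfl⟩
  have hL0 : 0 < L := by rw [hL]; exact Real.log_pos (by linarith)
  rw [← hL] at h1 ⊢
  obtain ⟨y, hy⟩ : ∃ y : ℝ, y = (N : ℝ) ^ (1 - γ) := ⟨_, rfl⟩
  have hy2 : 2 ≤ y := by
    rw [hy]
    exact h2.trans (Real.rpow_le_rpow_of_exponent_le (by linarith) (by linarith))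
  have hyN : y ≤ N := by
    rw [hy]
    calc (N : ℝ) ^ (1 - γ) ≤ (N : ℝ) ^ (1 : ℝ) := Real.rpow_le_rpow_of_exponent_le (by linarith) (by linarith)
      _ = N := Real.rpow_one _
  have hly : Real.log y = (1 - γ) * L := by rw [hy, Real.log_rpow hN0, hL]
  rw [← intervalIntegral.integral_add_adjacent_intervals (li2_int k 2 y le_rfl hy2) (li2_int k y N hy2 hyN)]
  have s1 := li2_short k 2 2 y le_rfl le_rfl hy2
  have s2 := li2_short k y y N hy2 le_rfl hyN
  rw [hly] at s2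
  have t1 : (y - 2) / Real.log 2 ^ k ≤ η / 2 * (N / L ^ k) := by
    have e1 : (N : ℝ) = y * (N : ℝ) ^ γ := by
      rw [hy, ← Real.rpow_add hN0]
      simp
    have e2 : y * (2 / (η * Real.log 2 ^ k) * L ^ k) ≤ N := by
      conv_rhs => rw [e1]
      exact mul_le_mul_of_nonneg_left h1 (by linarith)
    have e3 : y / Real.log 2 ^ k ≤ η / 2 * (N / L ^ k) := by
      rw [mul_div_assoc', le_div_iff₀ (by positivity)]
      calc y / Real.log 2 ^ k * L ^ k = η / 2 * (y * (2 / (η * Real.log 2 ^ k) * L ^ k)) := by field_simp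
        _ ≤ η / 2 * N := by gcongr
    refine le_trans ?_ e3
    gcongr
    linarith
  have t2 : (N - y) / ((1 - γ) * L) ^ k ≤ (1 + η / 2) * (N / L ^ k) := by
    have h1γ : 0 < 1 - γ := by linarith
    calc ((N : ℝ) - y) / ((1 - γ) * L) ^ k ≤ N / ((1 - γ) * L) ^ k := by gcongr; linarith
      _ = 1 / (1 - γ) ^ k * (N / L ^ k) := by rw [mul_pow]; field_simp
      _ ≤ _ := by gcongr
  linarith

end Run7.h994.PR
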