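import Pool.Agent.Run7.h994.PR.Tail

/-!
Project PR (helper994): convergence of the singular series of a pair.
-/

set_option autoImplicit false

namespace Run7.h994.PR

open Finset Filter Topology
open Pool.Agent.H373R2.T7 (pz Vz mem_pz Vz_pos)
open Pool.Agent.TH204.WR (rho hh xp hh_mul hh_nonneg rho_le rho_le_deg' prod_nonneg')
open scoped Polynomial

/-- the product of the local corrections converges -/
lemma kp_lim (F : ℤ[X]) (a : ℤ) (h : ℕ) (hh0 : 0 < h) (w : ℕ) (hd : 1 ≤ F.natDegree) (hl0 : F.leadingCoeff ≠ 0)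
    (hl : F.leadingCoeff.natAbs ≤ w) (h4 : 4 * F.natDegree ≤ w) (κ : ℝ) (hκ0 : 0 < κ) (hκ : κ ≤ 1)
    (h1 : 4 * (F.natDegree : ℝ) ^ 2 ≤ κ * w) (h2 : 8 * (F.natDegree : ℝ) * Real.log h ≤ κ * w) :
    ∃ K : ℝ, Tendsto (fun z : ℕ => ∏ p ∈ (Ioc w z).filter Nat.Prime, kp F a (a + h) p) atTop (𝓝 K) ∧ |K - 1| ≤ κ := by
  obtain ⟨f, hf⟩ : ∃ f : ℕ → ℝ, f = fun z : ℕ => ∏ p ∈ (Ioc w z).filter Nat.Prime, kp F a (a + h) p := ⟨_, rfl⟩
  have hbd : ∀ z, |f z - 1| ≤ κ := by
    intro z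
    rw [hf]
    exact prod_kp F a h hh0 w z hd hl0 hl h4 κ hκ0 hκ h1 h2
  obtain ⟨m, hm⟩ : ∃ m : ℕ, m = max h w := ⟨_, rfl⟩
  have hmh : h ≤ m := by rw [hm]; exact le_max_left _ _
  have hmw : w ≤ m := by rw [hm]; exact le_max_right _ _
  have hf0 : ∀ z, 0 ≤ f z := by
    intro z
    have := (abs_le.1 (hbd z)).1
    linarith
  have hmul : ∀ y z : ℕ, w ≤ y → y ≤ z → f z = f y * ∏ p ∈ (Ioc y z).filter Nat.Prime, kp F a (a + h) p := by
    intro y z hy hyz
    rw [hf]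
    simp only
    rw [← Ioc_union_Ioc_eq_Ioc hy hyz, filter_union, prod_union]
    apply disjoint_filter_filter
    rw [disjoint_left]
    intro a ha hb
    rw [mem_Ioc] at ha hb
    omega
  have hanti : Antitone (fun n : ℕ => f (n + m)) := by
    intro i j hij
    simp only
    rw [hmul (i + m) (j + m) (by omega) (by omega)]
    have h3 : ∏ p ∈ (Ioc (i + m) (j + m)).filter Nat.Prime, kp F a (a + h) p ≤ 1 := by
      apply prod_le_one
      · intro p hp
        rw [mem_filter, mem_Ioc] at hp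
        have hn : ¬ (p : ℤ) ∣ (a + (h : ℤ)) - a := by
          rw [add_sub_cancel_left, Int.natCast_dvd_natCast]
          intro hc
          have := Nat.le_of_dvd hh0 hc
          omega
        have q4 := (kp_not F a (a + h) p hp.2 hd hl0 (by omega) (by omega) hn).1
        refine le_trans ?_ q4
        have q5 : (4 : ℝ) * F.natDegree ≤ p := by exact_mod_cast (by omega : 4 * F.natDegree ≤ p)
        have q6 : (0 : ℝ) < p := by exact_mod_cast hp.2.pos
        have hd1 : (1 : ℝ) ≤ F.natDegree := by exact_mod_cast hd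
        rw [sub_nonneg, div_le_one (by positivity)]
        nlinarith
      · intro p hp
        rw [mem_filter, mem_Ioc] at hp
        have hn : ¬ (p : ℤ) ∣ (a + (h : ℤ)) - a := by
          rw [add_sub_cancel_left, Int.natCast_dvd_natCast]
          intro hc
          have := Nat.le_of_dvd hh0 hc
          omega
        exact (kp_not F a (a + h) p hp.2 hd hl0 (by omega) (by omega) hn).2
    calc f (i + m) * ∏ p ∈ (Ioc (i + m) (j + m)).filter Nat.Prime, kp F a (a + h) p ≤ f (i + m) * 1 :=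
          mul_le_mul_of_nonneg_left h3 (hf0 _)
      _ = f (i + m) := mul_one _
  have hlim := tendsto_atTop_ciInf hanti ⟨0, by
    rintro _ ⟨n, rfl⟩
    exact hf0 _⟩
  have hlim2 := (tendsto_add_atTop_iff_nat (f := f) m).1 hlim
  obtain ⟨K, hK⟩ : ∃ K : ℝ, K = ⨅ i, f (i + m) := ⟨_, rfl⟩
  rw [← hK] at hlim2
  have hb2 : |K - 1| ≤ κ := le_of_tendsto ((hlim2.sub_const 1).abs) (Eventually.of_forall hbd)
  rw [hf] at hlim2
  exact ⟨K, hlim2, hb2⟩

/-- **LIM2** -/
theorem lim2 (F : ℤ[X]) (a : ℤ) (h : ℕ) (hh0 : 0 < h) (w : ℕ) (hd : 1 ≤ F.natDegree)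
    (hl0 : F.leadingCoeff ≠ 0)
    (hl : F.leadingCoeff.natAbs ≤ w) (h4 : 4 * F.natDegree ≤ w) (κ : ℝ) (hκ0 : 0 < κ) (hκ : κ ≤ 1 / 4)
    (h1 : 4 * (F.natDegree : ℝ) ^ 2 ≤ κ * w) (h2 : 8 * (F.natDegree : ℝ) * Real.log h ≤ κ * w)
    (Sa Sb : ℝ) (hSa : Tendsto (fun z : ℕ => hh F a z) atTop (𝓝 Sa))
    (hSb : Tendsto (fun z : ℕ => hh F (a + h) z) atTop (𝓝 Sb))
    (ha : |Sa - hh F a w| ≤ κ * hh F a w) (hb : |Sb - hh F (a + h) w| ≤ κ * hh F (a + h) w) :
    ∃ S : ℝ, Tendsto (fun z : ℕ => g2 F a (a + h) z) atTop (𝓝 S) ∧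
      |S - g2 F a (a + h) w| ≤ 4 * κ * g2 F a (a + h) w := by
  have hw1 : 1 ≤ w := by omega
  have hg0 := g2_nonneg F a (a + h) w
  have hzero : g2 F a (a + h) w = 0 → ∃ S : ℝ, Tendsto (fun z : ℕ => g2 F a (a + h) z) atTop (𝓝 S) ∧
      |S - g2 F a (a + h) w| ≤ 4 * κ * g2 F a (a + h) w := by
    intro e1
    refine ⟨0, ?_, by rw [e1]; simp⟩
    apply tendsto_const_nhds.congr'
    filter_upwards [eventually_ge_atTop w] with z hz
    rw [g2_mul F a (a + h) w z hz, e1, zero_mul]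
  by_cases hza : hh F a w = 0
  · exact hzero (hh_zero_g2 F a (a + h) w hw1 hza)
  by_cases hzb : hh F (a + h) w = 0
  · exact hzero (hh_zero_g2' F a (a + h) w hw1 hzb)
  have hapos : 0 < hh F a w := lt_of_le_of_ne (hh_nonneg F a w hw1) (Ne.symm hza)
  have hbpos : 0 < hh F (a + h) w := lt_of_le_of_ne (hh_nonneg F (a + h) w hw1) (Ne.symm hzb)
  obtain ⟨K, hK1, hK2⟩ := kp_lim F a h hh0 w hd hl0 hl h4 κ hκ0 (by linarith) h1 h2
  have hform : ∀ z : ℕ, w ≤ z → g2 F a (a + h) z = g2 F a (a + h) w * ((hh F a z / hh F a w) * (hh F (a + h) z / hh F (a + h) w) *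
      ∏ p ∈ (Ioc w z).filter Nat.Prime, kp F a (a + h) p) := by
    intro z hz
    rw [g2_mul F a (a + h) w z hz, hh_mul F a w z hz, hh_mul F (a + h) w z hz, mul_div_cancel_left₀ _ hza,
      mul_div_cancel_left₀ _ hzb]
    congr 1
    rw [← prod_mul_distrib, ← prod_mul_distrib]
    apply prod_congr rfl
    intro p hp
    rw [mem_filter, mem_Ioc] at hp
    rw [← one_sub_xp F a p hp.2, ← one_sub_xp F (a + h) p hp.2]
    unfold kp
    obtain ⟨a1, a2, a3⟩ := rho_bd F a p hp.2 hd hl0 (by omega) (by omega)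
    obtain ⟨b1, b2, b3⟩ := rho_bd F (a + h) p hp.2 hd hl0 (by omega) (by omega)
    have hx : 1 - (rho F a p : ℝ) / p ≠ 0 := by linarith
    have hy : 1 - (rho F (a + h) p : ℝ) / p ≠ 0 := by linarith
    have hp2 : (2 : ℝ) ≤ p := by exact_mod_cast hp.2.two_le
    have hq : 1 - 1 / (p : ℝ) ≠ 0 := by
      have : 1 / (p : ℝ) ≤ 1 / 2 := one_div_le_one_div_of_le (by norm_num) hp2
      linarith
    generalize (1 - (r2 F a (a + h) p : ℝ) / p) = R
    generalize 1 - (rho F a p : ℝ) / p = X at hx ⊢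
    generalize 1 - (rho F (a + h) p : ℝ) / p = Y at hy ⊢
    generalize 1 - 1 / (p : ℝ) = U at hq ⊢
    field_simp
  refine ⟨g2 F a (a + h) w * ((Sa / hh F a w) * (Sb / hh F (a + h) w) * K), ?_, ?_⟩
  · have h5 : Tendsto (fun z : ℕ => g2 F a (a + h) w * ((hh F a z / hh F a w) * (hh F (a + h) z / hh F (a + h) w) *
      ∏ p ∈ (Ioc w z).filter Nat.Prime, kp F a (a + h) p)) atTop
      (𝓝 (g2 F a (a + h) w * ((Sa / hh F a w) * (Sb / hh F (a + h) w) * K))) :=
      (((hSa.div_const _).mul (hSb.div_const _)).mul hK1).const_mul _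
    apply h5.congr'
    filter_upwards [eventually_ge_atTop w] with z hz
    exact (hform z hz).symm
  · have hx : |Sa / hh F a w - 1| ≤ κ := by
      have e1 : Sa / hh F a w - 1 = (Sa - hh F a w) / hh F a w := by field_simp
      rw [e1, abs_div, abs_of_pos hapos, div_le_iff₀ hapos]
      exact ha
    have hy : |Sb / hh F (a + h) w - 1| ≤ κ := by
      have e1 : Sb / hh F (a + h) w - 1 = (Sb - hh F (a + h) w) / hh F (a + h) w := by field_simp
      rw [e1, abs_div, abs_of_pos hbpos, div_le_iff₀ hbpos]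
      exact hb
    generalize Sa / hh F a w = x at hx ⊢
    generalize Sb / hh F (a + h) w = y at hy ⊢
    generalize g2 F a (a + h) w = g at hg0 ⊢
    rw [abs_le] at hx hy hK2
    have e1 : g * (x * y * K) - g = (x * y * K - 1) * g := by ring
    rw [e1, abs_mul, abs_of_nonneg hg0]
    apply mul_le_mul_of_nonneg_right _ hg0
    have hx1 : x ≤ 1 + κ := by linarith
    have hx0 : 1 - κ ≤ x := by linarith
    have hy1 : y ≤ 1 + κ := by linarith
    have hy0 : 1 - κ ≤ y := by linarith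
    have hk1 : K ≤ 1 + κ := by linarith
    have hk0 : 1 - κ ≤ K := by linarith
    have hκ1 : 0 ≤ 1 - κ := by linarith
    have hxy1 : x * y ≤ (1 + κ) * (1 + κ) := mul_le_mul hx1 hy1 (by linarith) (by linarith)
    have hxy0 : (1 - κ) * (1 - κ) ≤ x * y := mul_le_mul hx0 hy0 hκ1 (by linarith)
    have hxyk1 : x * y * K ≤ ((1 + κ) * (1 + κ)) * (1 + κ) :=
      mul_le_mul hxy1 hk1 (by linarith) (by positivity)
    have hxyk0 : ((1 - κ) * (1 - κ)) * (1 - κ) ≤ x * y * K :=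
      mul_le_mul hxy0 hk0 hκ1 (le_trans (by positivity) hxy0)
    rw [abs_le]
    constructor
    · nlinarith [mul_nonneg hκ0.le hκ0.le, mul_nonneg (mul_nonneg hκ0.le hκ0.le) hκ1]
    · nlinarith [mul_nonneg hκ0.le hκ0.le, mul_nonneg (mul_nonneg hκ0.le hκ0.le) hκ0.le]

end Run7.h994.PR
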