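import Pool.Agent.Run7.h994.PR.Core
import Pool.Agent.Run7.h994.PR.Lim
import Pool.Agent.Run7.h994.PR.Li
import Pool.Agent.N792.RX8
import Pool.Agent.N792.T9P

/-!
Project PR (helper994): the pairs `n² + a`, `n² + a + h`, full singular series.
-/

set_option autoImplicit false

namespace Run7.h994.PR

open Finset Filter Topology Polynomial
open Pool.Agent.H373R2.T7 (pz Vz mem_pz Vz_pos)
open Pool.Agent.TH204.WR (rho hh hh_nonneg)
open Pool.Agent.N792 (x8 partialC Vc V1 adm_one)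
open Run7.h757.BP.Fin (eps_one gcdProd_one)

lemma rho_x2 (c : ℤ) (p : ℕ) : rho (X ^ 2 : ℤ[X]) c p = Pool.Agent.N792.rho 1 0 c p := by
  unfold rho Pool.Agent.N792.rho Pool.Agent.N792.fv
  congr 1
  refine filter_congr fun x _ => ?_
  rw [Polynomial.eval_pow, Polynomial.eval_X, one_mul, zero_mul, add_zero]

lemma hh_x2 (c : ℤ) (z : ℕ) : hh (X ^ 2 : ℤ[X]) c z = Vc 1 0 c z / V1 z := by
  unfold hh Vc V1 Vz pz
  rw [div_eq_inv_mul]
  congr 1
  refine prod_congr rfl fun p _ => ?_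
  rw [rho_x2]

lemma hh_x2_lim (c : ℕ) (hc : 1 ≤ c) (S : ℝ) (h : Tendsto (fun y => partialC 1 0 c y) atTop (𝓝 S)) :
    Tendsto (fun z : ℕ => hh (X ^ 2 : ℤ[X]) c z) atTop (𝓝 S) := by
  apply h.congr'
  filter_upwards [eventually_ge_atTop 2] with z hz
  rw [hh_x2, Pool.Agent.N792.SingTail.V_ratio (adm_one c hc) hz (by omega), eps_one, gcdProd_one, one_mul, one_mul]

/-- the property of the pairs of the theorem -/
def GoodX (η c : ℝ) (N a h : ℕ) : Prop :=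
  ∃ S : ℝ, c ≤ S ∧ Tendsto (fun z : ℕ => g2 (X ^ 2) a (a + h) z) atTop (𝓝 S) ∧
    (1 - η) * (S / 4 * ∫ t in (2 : ℝ)..(N : ℝ), 1 / Real.log t ^ 2) ≤ P2 (X ^ 2) a (a + h) N

open Classical in
theorem pairs_x2 (hFM : S_FM2e (X ^ 2) (1 / 2)) (hUP : S_UP2 (X ^ 2)) (hSQ : S_SQ2 (X ^ 2)) (hAV : S_AV2 (X ^ 2))
    (η : ℝ) (hη : 0 < η) :
    ∃ c B : ℝ, 0 < c ∧ 0 < B ∧ ∀ ε : ℝ, 0 < ε → ∃ N0 : ℕ, ∀ N : ℕ, N0 ≤ N → ∀ A H : ℕ,
      (N : ℝ) ^ (1 / 2 + ε) ≤ A → A ≤ N → B * Real.log N ≤ H → H ≤ A →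
      c * (A * H) ≤ (#(((Icc 1 A) ×ˢ (Icc 1 H)).filter (fun i => GoodX η c N i.1 i.2)) : ℝ) := by
  have hdeg : (X ^ 2 : ℤ[X]).natDegree = 2 := Polynomial.natDegree_X_pow 2
  have hlead : (X ^ 2 : ℤ[X]).leadingCoeff = 1 := (Polynomial.monic_X_pow 2).leadingCoeff
  obtain ⟨η₁, hη₁⟩ : ∃ η₁ : ℝ, η₁ = min η (1 / 2) := ⟨_, rfl⟩
  have hη₁0 : 0 < η₁ := by rw [hη₁]; exact lt_min hη (by norm_num)
  have hη₁1 : η₁ ≤ 1 / 2 := by rw [hη₁]; exact min_le_right _ _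
  have hη₁2 : η₁ ≤ η := by rw [hη₁]; exact min_le_left _ _
  obtain ⟨E, c1, B, hc1, hB, hcore⟩ := core2 (X ^ 2) (by rw [hdeg]) (1 / 2) le_rfl hFM hUP hSQ hAV (η₁ / 2)
    (by positivity) (by linarith)
  obtain ⟨κ, hκ⟩ : ∃ κ : ℝ, κ = η₁ / 16 := ⟨_, rfl⟩
  have hκ0 : 0 < κ := by rw [hκ]; positivity
  have hκ32 : κ ≤ 1 / 32 := by rw [hκ]; linarith
  obtain ⟨x0, hx8⟩ := x8 1 one_pos 0 3 (E + 20)
  refine ⟨c1 / 2, B, by positivity, hB, fun ε hε => ?_⟩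
  obtain ⟨N1, hcore⟩ := hcore ε hε
  have hlimL : Tendsto (fun N : ℕ => Real.log (N : ℝ)) atTop atTop :=
    Real.tendsto_log_atTop.comp tendsto_natCast_atTop_atTop
  have hlimp : ∀ p : ℝ, 0 < p → Tendsto (fun N : ℕ => (N : ℝ) ^ p) atTop atTop := fun p hp =>
    (tendsto_rpow_atTop hp).comp tendsto_natCast_atTop_atTop
  obtain ⟨M1, hM1⟩ := eventually_atTop.1 (li2_upper 2 κ hκ0)
  obtain ⟨M2, hM2⟩ := eventually_atTop.1 (rpow_ge_log' (1 / 6) (by norm_num) (E + 20) (2 ^ (E + 20)) (by positivity))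
  obtain ⟨M3, hM3⟩ := eventually_atTop.1 (hlimL.eventually_ge_atTop (100 / κ + 8 / c1 + 10))
  obtain ⟨M4, hM4⟩ := eventually_atTop.1 ((hlimp ε hε).eventually_ge_atTop 2)
  refine ⟨N1 + M1 + M2 + M3 + M4 + x0 + 10, fun N hN A H hA1 hA2 hH1 hH2 => ?_⟩
  have g1 := hM1 N (by omega)
  have g2' := hM2 N (by omega)
  have g3 := hM3 N (by omega)
  have g4 := hM4 N (by omega)
  have hgood := hcore N (by omega) A H hA1 (by
    rw [hdeg]
    norm_num
    exact_mod_cast hA2) hH1 hH2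
  obtain ⟨L, hL⟩ : ∃ L : ℝ, L = Real.log N := ⟨_, rfl⟩
  rw [← hL] at g1 g2' g3 hH1
  have hNR : (10 : ℝ) ≤ N := by exact_mod_cast (by omega : 10 ≤ N)
  have hN0 : (0 : ℝ) < N := by linarith
  have hN1 : (1 : ℝ) ≤ N := by linarith
  have h100 : 0 < 100 / κ := by positivity
  have h8c : 0 < 8 / c1 := by positivity
  have hL10 : 10 ≤ L := by linarith
  have hL0 : 0 < L := by linarith
  have hHpos : (0 : ℝ) < H := lt_of_lt_of_le (by positivity) hH1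
  have hHpos' : 0 < H := by exact_mod_cast hHpos
  have hAR : (A : ℝ) ≤ N := by exact_mod_cast hA2
  have hHR : (H : ℝ) ≤ A := by exact_mod_cast hH2
  have hApos : (0 : ℝ) < A := by linarith
  -- `2 N`
  obtain ⟨LX, hLX⟩ : ∃ LX : ℝ, LX = Real.log ((2 * N : ℕ) : ℝ) := ⟨_, rfl⟩
  have hLXe : LX = Real.log 2 + L := by
    rw [hLX]
    push_cast
    rw [Real.log_mul (by norm_num) hN0.ne', ← hL]
  have hlog2a : 0 < Real.log 2 := Real.log_pos (by norm_num)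
  have hlog2b : Real.log 2 < 1 := by
    have := Real.log_two_lt_d9
    linarith
  have hLX1 : L ≤ LX := by linarith
  have hLX2 : LX ≤ 2 * L := by linarith
  have hLX0 : 0 < LX := by linarith
  have hLX10 : 10 ≤ LX := by linarith
  obtain ⟨w, hw⟩ : ∃ w : ℕ, w = ⌊LX ^ (E + 20)⌋₊ := ⟨_, rfl⟩
  have hwle : (w : ℝ) ≤ LX ^ (E + 20) := by rw [hw]; exact Nat.floor_le (by positivity)
  have hpow1 : ∀ i j : ℕ, i ≤ j → LX ^ i ≤ LX ^ j := fun i j hij => pow_le_pow_right₀ (by linarith) hij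
  have hwge : LX ^ (E + 19) ≤ w := by
    have h1 : LX ^ (E + 20) < w + 1 := by rw [hw]; exact Nat.lt_floor_add_one _
    have h2 : LX ^ (E + 20) = LX * LX ^ (E + 19) := by ring
    have h3 : 1 ≤ LX ^ (E + 19) := one_le_pow₀ (by linarith)
    have h4 : 2 * LX ^ (E + 19) ≤ LX * LX ^ (E + 19) := by gcongr; linarith
    linarith
  have hwN : (w : ℝ) ≤ (N : ℝ) ^ (1 / 6 : ℝ) := by
    calc (w : ℝ) ≤ LX ^ (E + 20) := hwle
      _ ≤ (2 * L) ^ (E + 20) := pow_le_pow_left₀ hLX0.le hLX2 _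
      _ = 2 ^ (E + 20) * L ^ (E + 20) := mul_pow _ _ _
      _ ≤ _ := g2'
  have hw6 : w ^ 6 ≤ N := by
    have h1 : ((w ^ 6 : ℕ) : ℝ) ≤ N := by
      push_cast
      calc (w : ℝ) ^ 6 ≤ ((N : ℝ) ^ (1 / 6 : ℝ)) ^ 6 := by gcongr
        _ = (N : ℝ) := by
            rw [← Real.rpow_natCast, ← Real.rpow_mul hN0.le]
            norm_num
    exact_mod_cast h1
  obtain ⟨Ex, hE1, hE2, hE3⟩ := hx8 (2 * N) (by omega) (A + H) (by
      push_cast
      have h1 : (2 * (N : ℝ)) ^ (1 / 2 : ℝ) ≤ 2 * (N : ℝ) ^ (1 / 2 : ℝ) := by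
        rw [Real.mul_rpow (by norm_num) hN0.le]
        apply mul_le_mul_of_nonneg_right _ (by positivity)
        calc (2 : ℝ) ^ (1 / 2 : ℝ) ≤ 2 ^ (1 : ℝ) := Real.rpow_le_rpow_of_exponent_le (by norm_num) (by norm_num)
          _ = 2 := Real.rpow_one _
      have h2 : 2 * (N : ℝ) ^ (1 / 2 : ℝ) ≤ (N : ℝ) ^ (1 / 2 + ε) := by
        rw [Real.rpow_add hN0, mul_comm]
        gcongr
      linarith) (by omega) w w (by
      rw [← hLX]
      exact (hpow1 _ _ (by omega)).trans hwge) (by rw [← hLX]; exact hwle) le_rfl (by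
      push_cast
      calc (w : ℝ) ≤ (N : ℝ) ^ (1 / 6 : ℝ) := hwN
        _ ≤ (2 * (N : ℝ)) ^ (1 / 6 : ℝ) := Real.rpow_le_rpow hN0.le (by linarith) (by norm_num)
        _ ≤ (2 * (N : ℝ)) ^ (1 / 5 : ℝ) := Real.rpow_le_rpow_of_exponent_le (by linarith) (by norm_num))
  rw [← hLX] at hE2 hE3
  have hwbig : LX * LX ≤ w := by
    refine le_trans ?_ hwge
    calc LX * LX = LX ^ 2 := by ring
      _ ≤ _ := hpow1 _ _ (by omega)
  have hw100 : (100 : ℝ) ≤ w := by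
    refine le_trans ?_ hwbig
    nlinarith
  have hκLX : 100 ≤ κ * LX := by
    have h1 : 100 / κ ≤ LX := by linarith
    rw [div_le_iff₀ hκ0] at h1
    linarith
  have hL3 : 1 / LX ^ 3 ≤ κ := by
    rw [div_le_iff₀ (by positivity)]
    have h1 : LX ≤ LX ^ 3 := le_self_pow₀ (by linarith) (by norm_num)
    have h2 : κ * LX ≤ κ * LX ^ 3 := by gcongr
    linarith
  have hsing : ∀ a : ℕ, a ∈ Icc 1 (A + H) → a ∉ Ex → ∃ S : ℝ, Tendsto (fun z : ℕ => hh (X ^ 2 : ℤ[X]) a z) atTop (𝓝 S) ∧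
      |S - hh (X ^ 2 : ℤ[X]) a w| ≤ κ * hh (X ^ 2 : ℤ[X]) a w := by
    intro a ha haE
    obtain ⟨-, h2⟩ := hE3 a ha haE
    have ha1 := (mem_Icc.1 ha).1
    obtain ⟨S, hS0, hS1, hS2⟩ := h2 (adm_one a ha1)
    rw [eps_one, gcdProd_one, one_mul, mul_one, ← hh_x2] at hS2
    refine ⟨S, hh_x2_lim a ha1 S hS1, hS2.trans ?_⟩
    calc hh (X ^ 2 : ℤ[X]) a w / LX ^ 3 = 1 / LX ^ 3 * hh (X ^ 2 : ℤ[X]) a w := by ring
      _ ≤ κ * hh (X ^ 2 : ℤ[X]) a w := mul_le_mul_of_nonneg_right hL3 (hh_nonneg _ _ _ (by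
          have : (1 : ℝ) ≤ w := by linarith
          exact_mod_cast this))
  -- the good pairs
  obtain ⟨G, hG⟩ : ∃ G : Finset (ℕ × ℕ), G = ((Icc 1 A) ×ˢ (Icc 1 H)).filter (fun i => Good2 (X ^ 2) (η₁ / 2) c1 E N i.1 i.2) :=
    ⟨_, rfl⟩
  rw [← hG] at hgood
  obtain ⟨Bd, hBd⟩ : ∃ Bd : Finset (ℕ × ℕ), Bd = ((Icc 1 A) ×ˢ (Icc 1 H)).filter (fun i => i.1 ∈ Ex ∨ i.1 + i.2 ∈ Ex) :=
    ⟨_, rfl⟩
  have hsub : G \ Bd ⊆ ((Icc 1 A) ×ˢ (Icc 1 H)).filter (fun i => GoodX η (c1 / 2) N i.1 i.2) := by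
    intro i hi
    rw [Finset.mem_sdiff, hG, hBd, mem_filter, mem_filter] at hi
    obtain ⟨⟨hi1, hi2⟩, hi3⟩ := hi
    rw [mem_filter]
    refine ⟨hi1, ?_⟩
    have hi4 : i.1 ∉ Ex ∧ i.1 + i.2 ∉ Ex := by
      rw [not_and, not_or] at hi3
      exact hi3 hi1
    rw [mem_product, mem_Icc, mem_Icc] at hi1
    obtain ⟨⟨j1, j2⟩, j3, j4⟩ := hi1
    obtain ⟨Sa, hSa1, hSa2⟩ := hsing i.1 (by rw [mem_Icc]; omega) hi4.1
    obtain ⟨Sb, hSb1, hSb2⟩ := hsing (i.1 + i.2) (by rw [mem_Icc]; omega) hi4.2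
    simp only [cast_add'] at hSb1 hSb2
    have hlogh : Real.log (i.2 : ℝ) ≤ L := by
      rw [hL]
      apply Real.log_le_log (by exact_mod_cast (by omega : 0 < i.2))
      exact_mod_cast (by omega : i.2 ≤ N)
    obtain ⟨S, hS1, hS2⟩ := lim2 (X ^ 2) (i.1 : ℤ) i.2 (by omega) w (by rw [hdeg]; norm_num) (by rw [hlead]; norm_num)
      (by
        rw [hlead]
        have : (1 : ℝ) ≤ w := by linarith
        norm_num
        exact_mod_cast this) (by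
        rw [hdeg]
        have : (8 : ℝ) ≤ w := by linarith
        norm_num
        exact_mod_cast this) κ hκ0 (by linarith) (by
        rw [hdeg]
        have h1 : κ * LX ≤ κ * w := by
          have : LX ≤ w := by nlinarith
          gcongr
        push_cast
        linarith) (by
        rw [hdeg]
        have h1 : κ * (LX * LX) ≤ κ * w := by gcongr
        have h2 : 100 * LX ≤ κ * LX * LX := by gcongr
        push_cast
        linarith) Sa Sb hSa1 hSb1 hSa2 hSb2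
    obtain ⟨k1, k2⟩ := hi2 w (by
      rw [← hL]
      calc L ^ E ≤ LX ^ E := pow_le_pow_left₀ hL0.le hLX1 _
        _ ≤ LX ^ (E + 19) := hpow1 _ _ (by omega)
        _ ≤ w := hwge) hw6
    rw [hdeg, ← hL] at k2
    have hg0 := g2_nonneg (X ^ 2) (i.1 : ℤ) ((i.1 : ℤ) + i.2) w
    generalize g2 (X ^ 2) (i.1 : ℤ) ((i.1 : ℤ) + i.2) w = g at hS2 k1 k2 hg0
    rw [abs_le] at hS2
    refine ⟨S, ?_, hS1, ?_⟩
    · have h1 : 4 * κ * g ≤ 4 * (1 / 32) * g := by gcongr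
      linarith
    · refine le_trans ?_ k2
      have hI0 := li2_nonneg (N := N) (by omega) 2
      have hS0 : 0 ≤ S := by
        have h1 : 4 * κ * g ≤ 4 * (1 / 32) * g := by gcongr
        linarith
      have hSg : S ≤ (1 + 4 * κ) * g := by linarith
      have h1 : (1 - η) * (S / 4 * ∫ t in (2 : ℝ)..(N : ℝ), 1 / Real.log t ^ 2) ≤
          (1 - η₁) * (((1 + 4 * κ) * g) / 4 * ((1 + κ) * (N / L ^ 2))) := by
        have h2 : (1 - η) * (S / 4 * ∫ t in (2 : ℝ)..(N : ℝ), 1 / Real.log t ^ 2) ≤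
            (1 - η₁) * (S / 4 * ∫ t in (2 : ℝ)..(N : ℝ), 1 / Real.log t ^ 2) := by
          apply mul_le_mul_of_nonneg_right (by linarith)
          positivity
        refine h2.trans ?_
        have h3 : 0 ≤ 1 - η₁ := by linarith
        gcongr
      refine h1.trans ?_
      have h4 : (1 - η₁) * (1 + 4 * κ) * (1 + κ) ≤ 1 - η₁ / 2 := by
        rw [hκ]
        nlinarith [mul_pos hη₁0 hη₁0, mul_pos (mul_pos hη₁0 hη₁0) hη₁0]
      have h5 : (N : ℝ) / (((2 : ℕ) : ℝ) * L) ^ 2 = N / L ^ 2 / 4 := by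
        push_cast
        field_simp
        norm_num
      rw [h5]
      calc (1 - η₁) * (((1 + 4 * κ) * g) / 4 * ((1 + κ) * (N / L ^ 2))) =
          ((1 - η₁) * (1 + 4 * κ) * (1 + κ)) * (g * (N / L ^ 2 / 4)) := by ring
        _ ≤ (1 - η₁ / 2) * (g * (N / L ^ 2 / 4)) := by gcongr
  -- the bad pairs are few
  have hBdc : (#Bd : ℝ) ≤ c1 / 2 * (A * H) := by
    have h1 : Bd ⊆ (Ex ×ˢ (Icc 1 H)) ∪ (((Icc 1 H) ×ˢ Ex).image (fun q => (q.2 - q.1, q.1))) := by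
      intro i hi
      rw [hBd, mem_filter, mem_product, mem_Icc, mem_Icc] at hi
      obtain ⟨⟨⟨i1, i2⟩, i3, i4⟩, i5⟩ := hi
      rw [mem_union]
      rcases i5 with i5 | i5
      · left
        rw [mem_product, mem_Icc]
        exact ⟨i5, i3, i4⟩
      · right
        rw [mem_image]
        refine ⟨(i.2, i.1 + i.2), ?_, ?_⟩
        · rw [mem_product, mem_Icc]
          exact ⟨⟨i3, i4⟩, i5⟩
        · ext
          · simp
          · simp
    have h2 : #Bd ≤ #Ex * H + H * #Ex := by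
      refine (card_le_card h1).trans ((card_union_le _ _).trans ?_)
      apply add_le_add
      · rw [card_product, Nat.card_Icc, Nat.add_sub_cancel]
      · refine card_image_le.trans ?_
        rw [card_product, Nat.card_Icc, Nat.add_sub_cancel]
    have h3 : (#Bd : ℝ) ≤ #Ex * H + H * #Ex := by exact_mod_cast h2
    refine h3.trans ?_
    have h4 : (#Ex : ℝ) ≤ 2 * A * (1 / LX ^ 3) := by
      refine hE2.trans ?_
      push_cast
      rw [div_eq_mul_one_div]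
      apply mul_le_mul_of_nonneg_right (by linarith) (by positivity)
    have h5 : 1 / LX ^ 3 ≤ c1 / 8 := by
      rw [div_le_div_iff₀ (by positivity) (by norm_num)]
      have h6 : 8 / c1 ≤ LX := by linarith
      rw [div_le_iff₀ hc1] at h6
      have h7 : LX ≤ LX ^ 3 := le_self_pow₀ (by linarith) (by norm_num)
      have h8 : LX * c1 ≤ LX ^ 3 * c1 := by gcongr
      linarith
    have h6 : (#Ex : ℝ) ≤ 2 * A * (c1 / 8) := h4.trans (by gcongr)
    calc (#Ex : ℝ) * H + H * #Ex = 2 * (H * #Ex) := by ring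
      _ ≤ 2 * (H * (2 * A * (c1 / 8))) := by gcongr
      _ = _ := by ring
  have hcard : (#(G \ Bd) : ℝ) ≤ (#(((Icc 1 A) ×ˢ (Icc 1 H)).filter (fun i => GoodX η (c1 / 2) N i.1 i.2)) : ℝ) := by
    exact_mod_cast card_le_card hsub
  have hcard2 : (#G : ℝ) ≤ #(G \ Bd) + #Bd := by
    have h1 : G ⊆ (G \ Bd) ∪ Bd := by
      intro i hi
      rw [mem_union, Finset.mem_sdiff]
      tauto
    have h2 := (card_le_card h1).trans (card_union_le _ _)
    exact_mod_cast h2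
  linarith

end Run7.h994.PR
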