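import Pool.Agent.Run7.h994.PR.Stm
import Pool.Agent.TH204.WR.W13

/-!
Project PR (helper994): the truncated singular series of a pair hardly depends on the cutoff if the two truncated singular
series of the single polynomials do not.
-/

set_option autoImplicit false

namespace Run7.h994.PR

open Finset Filter Topology
open Pool.Agent.H373R2.T7 (pz Vz mem_pz Vz_pos)
open Pool.Agent.TH204.WR (rho hh xp hh_mul hh_nonneg rho_le rho_le_deg' prod_nonneg')
open scoped Polynomial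

lemma Q_eval' (F : ℤ[X]) (a b x : ℤ) : (Q F a b).eval x = (F.eval x + a) * (F.eval x + b) := by
  simp [Q]

lemma r2_eq' (F : ℤ[X]) (a b : ℤ) (p : ℕ) :
    r2 F a b p = #((range p).filter (fun x : ℕ => (p : ℤ) ∣ (F.eval (x : ℤ) + a) * (F.eval (x : ℤ) + b))) := by
  unfold r2 rho
  congr 1
  refine filter_congr fun x _ => ?_
  rw [Q_eval', add_zero]

lemma r2_add (F : ℤ[X]) (a b : ℤ) (p : ℕ) (hp : p.Prime) (h : ¬ (p : ℤ) ∣ b - a) :
    r2 F a b p = rho F a p + rho F b p := by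
  classical
  rw [r2_eq']
  unfold rho
  rw [← card_union_of_disjoint]
  · congr 1
    ext x
    rw [mem_union, mem_filter, mem_filter, mem_filter, (Nat.prime_iff_prime_int.1 hp).dvd_mul]
    tauto
  · rw [disjoint_left]
    intro x h1 h2
    rw [mem_filter] at h1 h2
    apply h
    have h3 := dvd_sub h2.2 h1.2
    have e1 : F.eval (x : ℤ) + b - (F.eval (x : ℤ) + a) = b - a := by ring
    rwa [e1] at h3

lemma r2_dvd (F : ℤ[X]) (a b : ℤ) (p : ℕ) (hp : p.Prime) (h : (p : ℤ) ∣ b - a) :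
    r2 F a b p = rho F a p ∧ rho F b p = rho F a p := by
  have h1 : ∀ x : ℕ, ((p : ℤ) ∣ F.eval (x : ℤ) + b) ↔ ((p : ℤ) ∣ F.eval (x : ℤ) + a) := by
    intro x
    apply dvd_iff_dvd_of_dvd_sub
    have e1 : F.eval (x : ℤ) + b - (F.eval (x : ℤ) + a) = b - a := by ring
    rw [e1]
    exact h
  constructor
  · rw [r2_eq']
    unfold rho
    congr 1
    refine filter_congr fun x _ => ?_
    rw [(Nat.prime_iff_prime_int.1 hp).dvd_mul, h1 x, or_self]
  · unfold rho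
    congr 1
    exact filter_congr fun x _ => h1 x

/-- the local correction -/
noncomputable def kp (F : ℤ[X]) (a b : ℤ) (p : ℕ) : ℝ :=
  (1 - (r2 F a b p : ℝ) / p) / ((1 - (rho F a p : ℝ) / p) * (1 - (rho F b p : ℝ) / p))

/-- the local bound for the roots -/
lemma rho_bd (F : ℤ[X]) (a : ℤ) (p : ℕ) (hp : p.Prime) (hd : 1 ≤ F.natDegree) (hl0 : F.leadingCoeff ≠ 0)
    (hl : F.leadingCoeff.natAbs < p) (h4 : 4 * F.natDegree ≤ p) :
    0 ≤ (rho F a p : ℝ) / p ∧ (rho F a p : ℝ) / p ≤ F.natDegree / p ∧ (F.natDegree : ℝ) / p ≤ 1 / 4 := by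
  have hp0 : (0 : ℝ) < p := by exact_mod_cast hp.pos
  have h1 : (rho F a p : ℝ) ≤ F.natDegree := by exact_mod_cast rho_le_deg' F a p hp hd hl hl0
  refine ⟨by positivity, by gcongr, ?_⟩
  rw [div_le_div_iff₀ hp0 (by norm_num)]
  have : ((4 * F.natDegree : ℕ) : ℝ) ≤ p := by exact_mod_cast h4
  push_cast at this
  linarith

lemma kp_not (F : ℤ[X]) (a b : ℤ) (p : ℕ) (hp : p.Prime) (hd : 1 ≤ F.natDegree) (hl0 : F.leadingCoeff ≠ 0)
    (hl : F.leadingCoeff.natAbs < p) (h4 : 4 * F.natDegree ≤ p) (h : ¬ (p : ℤ) ∣ b - a) :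
    1 - 4 * (F.natDegree : ℝ) ^ 2 / (p : ℝ) ^ 2 ≤ kp F a b p ∧ kp F a b p ≤ 1 := by
  obtain ⟨a1, a2, a3⟩ := rho_bd F a p hp hd hl0 hl h4
  obtain ⟨b1, b2, b3⟩ := rho_bd F b p hp hd hl0 hl h4
  have hp0 : (0 : ℝ) < p := by exact_mod_cast hp.pos
  unfold kp
  rw [r2_add F a b p hp h]
  push_cast
  rw [add_div]
  obtain ⟨x, hx⟩ : ∃ x : ℝ, x = (rho F a p : ℝ) / p := ⟨_, rfl⟩
  obtain ⟨y, hy⟩ : ∃ y : ℝ, y = (rho F b p : ℝ) / p := ⟨_, rfl⟩
  obtain ⟨D, hD⟩ : ∃ D : ℝ, D = (F.natDegree : ℝ) / p := ⟨_, rfl⟩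
  rw [← hx, ← hD] at a2
  rw [← hx] at a1
  rw [← hy, ← hD] at b2
  rw [← hy] at b1
  rw [← hD] at a3
  rw [← hx, ← hy]
  have e1 : 4 * (F.natDegree : ℝ) ^ 2 / (p : ℝ) ^ 2 = 4 * D ^ 2 := by rw [hD]; field_simp
  rw [e1]
  have h1 : 0 < (1 - x) * (1 - y) := mul_pos (by linarith) (by linarith)
  have h2 : 9 / 16 ≤ (1 - x) * (1 - y) := by nlinarith
  have h3 : x * y ≤ D ^ 2 := by nlinarith
  constructor
  · rw [le_div_iff₀ h1]
    have e2 : 1 - (x + y) = (1 - x) * (1 - y) - x * y := by ring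
    rw [e2, sub_mul, one_mul]
    have h5 : 4 * D ^ 2 * (9 / 16) ≤ 4 * D ^ 2 * ((1 - x) * (1 - y)) := by gcongr
    nlinarith [sq_nonneg D]
  · rw [div_le_one h1]
    nlinarith

lemma kp_dvd (F : ℤ[X]) (a b : ℤ) (p : ℕ) (hp : p.Prime) (hd : 1 ≤ F.natDegree) (hl0 : F.leadingCoeff ≠ 0)
    (hl : F.leadingCoeff.natAbs < p) (h4 : 4 * F.natDegree ≤ p) (h : (p : ℤ) ∣ b - a) :
    1 ≤ kp F a b p ∧ kp F a b p ≤ 1 + 2 * F.natDegree / p := by
  obtain ⟨a1, a2, a3⟩ := rho_bd F a p hp hd hl0 hl h4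
  obtain ⟨h5, h6⟩ := r2_dvd F a b p hp h
  unfold kp
  rw [h5, h6]
  obtain ⟨x, hx⟩ : ∃ x : ℝ, x = (rho F a p : ℝ) / p := ⟨_, rfl⟩
  obtain ⟨D, hD⟩ : ∃ D : ℝ, D = (F.natDegree : ℝ) / p := ⟨_, rfl⟩
  rw [← hx, ← hD] at a2
  rw [← hx] at a1
  rw [← hD] at a3
  rw [← hx]
  have e1 : 2 * (F.natDegree : ℝ) / p = 2 * D := by rw [hD]; ring
  rw [e1]
  have h1 : 0 < 1 - x := by linarith
  have e2 : (1 - x) / ((1 - x) * (1 - x)) = 1 / (1 - x) := by field_simp
  rw [e2]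
  constructor
  · rw [le_div_iff₀ h1]
    linarith
  · rw [div_le_iff₀ h1]
    nlinarith

/-- the truncated series of a pair over a range of primes -/
lemma g2_mul (F : ℤ[X]) (a b : ℤ) (y z : ℕ) (hyz : y ≤ z) :
    g2 F a b z = g2 F a b y * ∏ p ∈ (Ioc y z).filter Nat.Prime, ((1 - (r2 F a b p : ℝ) / p) / (1 - 1 / (p : ℝ)) ^ 2) := by
  have hu : pz z = pz y ∪ (Ioc y z).filter Nat.Prime := by
    ext p
    rw [mem_union, mem_filter, mem_Ioc, mem_pz, mem_pz]
    constructor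
    · rintro ⟨h1, h2⟩
      rcases Nat.lt_or_ge y p with h3 | h3
      · right; exact ⟨⟨h3, h1⟩, h2⟩
      · left; exact ⟨h3, h2⟩
    · rintro (⟨h1, h2⟩ | ⟨⟨h1, h2⟩, h3⟩)
      · exact ⟨by omega, h2⟩
      · exact ⟨h2, h3⟩
  have hdis : Disjoint (pz y) ((Ioc y z).filter Nat.Prime) := by
    rw [disjoint_left]
    intro p hp hq
    rw [mem_filter, mem_Ioc] at hq
    rw [mem_pz] at hp
    omega
  unfold g2 Vz
  rw [hu, prod_union hdis, prod_union hdis, prod_div_distrib, prod_pow, mul_pow, mul_div_mul_comm]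

lemma one_sub_xp (F : ℤ[X]) (t : ℤ) (p : ℕ) (hp : p.Prime) :
    (1 - (rho F t p : ℝ) / p) / (1 - 1 / (p : ℝ)) = 1 - xp F t p := by
  have hp2 : (2 : ℝ) ≤ p := by exact_mod_cast hp.two_le
  unfold xp
  have h3 : (p : ℝ) - 1 ≠ 0 := by linarith
  have h4 : (p : ℝ) ≠ 0 := by linarith
  have h5 : 1 - 1 / (p : ℝ) = ((p : ℝ) - 1) / p := by field_simp
  rw [h5]
  field_simp
  ring

lemma g2_nonneg (F : ℤ[X]) (a b : ℤ) (z : ℕ) : 0 ≤ g2 F a b z :=
  div_nonneg (prod_nonneg' _ _ _) (sq_nonneg _)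

lemma hh_zero_g2 (F : ℤ[X]) (a b : ℤ) (z : ℕ) (hz : 1 ≤ z) (h : hh F a z = 0) : g2 F a b z = 0 := by
  unfold hh at h
  have hV : Vz z ≠ 0 := (Vz_pos z).ne'
  rcases mul_eq_zero.1 h with h1 | h1
  · exact absurd h1 (inv_ne_zero hV)
  · rw [prod_eq_zero_iff] at h1
    obtain ⟨p, hp, hp0⟩ := h1
    have hpr := (mem_pz.1 hp).2
    have hpp : (0 : ℝ) < p := by exact_mod_cast hpr.pos
    have h2 : (rho F a p : ℝ) = p := by
      rw [sub_eq_zero, eq_comm, div_eq_one_iff_eq hpp.ne'] at hp0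
      exact hp0
    have h3 : rho F a p = p := by exact_mod_cast h2
    have h4 : r2 F a b p = p := by
      apply le_antisymm (show r2 F a b p ≤ p from rho_le _ _ _)
      rw [r2_eq']
      conv_lhs => rw [← h3]
      unfold rho
      apply card_le_card
      intro x hx
      rw [mem_filter] at hx ⊢
      exact ⟨hx.1, hx.2.mul_right _⟩
    unfold g2
    rw [prod_eq_zero hp, zero_div]
    rw [h4, div_self hpp.ne', sub_self]

lemma hh_zero_g2' (F : ℤ[X]) (a b : ℤ) (z : ℕ) (hz : 1 ≤ z) (h : hh F b z = 0) : g2 F a b z = 0 := by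
  have h1 := hh_zero_g2 F b a z hz h
  have h2 : g2 F a b z = g2 F b a z := by
    unfold g2
    congr 1
    apply prod_congr rfl
    intro p _
    congr 3
    rw [r2_eq', r2_eq']
    congr 1
    refine filter_congr fun x _ => ?_
    rw [mul_comm]
  rw [h2, h1]

/-- the primes above `w` dividing `h` are few -/
lemma card_big (h : ℕ) (hh : 0 < h) (S : Finset ℕ) (hS : ∀ p ∈ S, p.Prime ∧ p ∣ h) :
    (#S : ℝ) * Real.log 2 ≤ Real.log h := by
  have h1 : S ⊆ h.primeFactors := by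
    intro p hp
    rw [Nat.mem_primeFactors]
    exact ⟨(hS p hp).1, (hS p hp).2, hh.ne'⟩
  have h2 : 2 ^ #S ≤ h := by
    have h3 : ∏ p ∈ h.primeFactors, p ≤ h := Nat.le_of_dvd hh (Nat.prod_primeFactors_dvd h)
    refine le_trans ?_ h3
    refine le_trans ?_ (prod_le_prod_of_subset_of_one_le' h1 ?_)
    · have := Finset.pow_card_le_prod (s := S) (f := fun p : ℕ => p) (n := 2) (fun p hp => (hS p hp).1.two_le)
      exact this
    · intro p hp _
      exact (Nat.mem_primeFactors.1 hp).1.one_le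
  rw [← Real.log_pow]
  apply Real.log_le_log (by positivity)
  exact_mod_cast h2

lemma sum_inv_sq (w z : ℕ) (hw : 1 ≤ w) : ∑ n ∈ Ioc w z, (1 : ℝ) / (n : ℝ) ^ 2 ≤ (1 : ℝ) / (w : ℝ) := by
  rcases Nat.lt_or_ge z w with h | h
  · rw [Ioc_eq_empty (by omega), sum_empty]
    positivity
  have h6 : ∀ z : ℕ, w ≤ z → ∑ n ∈ Ioc w z, (1 / ((n : ℝ) - 1) - 1 / n) = 1 / (w : ℝ) - 1 / z := by
    intro z hz
    induction z, hz using Nat.le_induction with
    | base => simp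
    | succ z hz ih =>
      rw [sum_Ioc_succ_top hz, ih]
      push_cast
      ring
  have h5 : ∑ n ∈ Ioc w z, 1 / (n : ℝ) ^ 2 ≤ ∑ n ∈ Ioc w z, (1 / ((n : ℝ) - 1) - 1 / n) := by
    refine sum_le_sum fun n hn => ?_
    rw [mem_Ioc] at hn
    have h6 : (2 : ℝ) ≤ n := by exact_mod_cast (by omega : 2 ≤ n)
    have h7 : (n : ℝ) - 1 ≠ 0 := by linarith
    have h8 : (n : ℝ) ≠ 0 := by linarith
    rw [div_sub_div _ _ h7 h8, div_le_div_iff₀ (by positivity) (by apply mul_pos <;> linarith)]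
    nlinarith
  refine h5.trans ?_
  rw [h6 z h]
  have : 0 ≤ 1 / (z : ℝ) := by positivity
  linarith

lemma prod_one_sub_ge {ι : Type*} (S : Finset ι) (f : ι → ℝ) (h0 : ∀ i ∈ S, 0 ≤ f i) (h1 : ∀ i ∈ S, f i ≤ 1) :
    1 - ∑ i ∈ S, f i ≤ ∏ i ∈ S, (1 - f i) := by
  classical
  induction S using Finset.induction_on with
  | empty => simp
  | insert i S hi ih =>
    rw [sum_insert hi, prod_insert hi]
    have h2 := ih (fun j hj => h0 j (mem_insert_of_mem hj)) (fun j hj => h1 j (mem_insert_of_mem hj))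
    have h3 := h0 i (mem_insert_self i S)
    have h4 := h1 i (mem_insert_self i S)
    have h5 : 0 ≤ ∑ j ∈ S, f j := sum_nonneg fun j hj => h0 j (mem_insert_of_mem hj)
    have h6 : (1 - f i) * (1 - ∑ j ∈ S, f j) ≤ (1 - f i) * ∏ j ∈ S, (1 - f j) :=
      mul_le_mul_of_nonneg_left h2 (by linarith)
    nlinarith

/-- the product of the local corrections over `w < p ≤ z` -/
lemma prod_kp (F : ℤ[X]) (a : ℤ) (h : ℕ) (hh : 0 < h) (w z : ℕ) (hd : 1 ≤ F.natDegree) (hl0 : F.leadingCoeff ≠ 0)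
    (hl : F.leadingCoeff.natAbs ≤ w) (h4 : 4 * F.natDegree ≤ w) (κ : ℝ) (hκ0 : 0 < κ) (hκ : κ ≤ 1)
    (h1 : 4 * (F.natDegree : ℝ) ^ 2 ≤ κ * w) (h2 : 8 * (F.natDegree : ℝ) * Real.log h ≤ κ * w) :
    |∏ p ∈ (Ioc w z).filter Nat.Prime, kp F a (a + h) p - 1| ≤ κ := by
  classical
  have hw1 : 1 ≤ w := by omega
  have hw0 : (0 : ℝ) < w := by exact_mod_cast hw1
  obtain ⟨d, hdd⟩ : ∃ d : ℝ, d = (F.natDegree : ℝ) := ⟨_, rfl⟩
  have hd1 : (1 : ℝ) ≤ d := by rw [hdd]; exact_mod_cast hd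
  have hab : ∀ p : ℕ, ((p : ℤ) ∣ (a + (h : ℤ)) - a) ↔ p ∣ h := by
    intro p
    rw [add_sub_cancel_left]
    exact Int.natCast_dvd_natCast
  obtain ⟨P, hP⟩ : ∃ P, P = (Ioc w z).filter Nat.Prime := ⟨_, rfl⟩
  rw [← hP]
  have hPp : ∀ p ∈ P, p.Prime ∧ w < p ∧ p ≤ z := by
    intro p hp
    rw [hP, mem_filter, mem_Ioc] at hp
    exact ⟨hp.2, hp.1.1, hp.1.2⟩
  have hsplit : ∏ p ∈ P, kp F a (a + h) p = (∏ p ∈ P.filter (fun p => p ∣ h), kp F a (a + h) p) *
      ∏ p ∈ P.filter (fun p => ¬ p ∣ h), kp F a (a + h) p := (prod_filter_mul_prod_filter_not _ _ _).symm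
  have hu1 : 1 ≤ ∏ p ∈ P.filter (fun p => p ∣ h), kp F a (a + h) p := by
    rw [← Finset.prod_const_one (s := P.filter (fun p => p ∣ h))]
    apply Finset.prod_le_prod (fun _ _ => zero_le_one)
    intro p hp
    rw [mem_filter] at hp
    obtain ⟨q1, q2, q3⟩ := hPp p hp.1
    exact (kp_dvd F a (a + h) p q1 hd hl0 (by omega) (by omega) ((hab p).2 hp.2)).1
  have hu2 : ∏ p ∈ P.filter (fun p => p ∣ h), kp F a (a + h) p ≤ 1 + κ := by
    have h5 : ∏ p ∈ P.filter (fun p => p ∣ h), kp F a (a + h) p ≤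
        Real.exp (∑ p ∈ P.filter (fun p => p ∣ h), 2 * d / w) := by
      rw [Real.exp_sum]
      apply Finset.prod_le_prod
      · intro p hp
        rw [mem_filter] at hp
        obtain ⟨q1, q2, q3⟩ := hPp p hp.1
        exact zero_le_one.trans (kp_dvd F a (a + h) p q1 hd hl0 (by omega) (by omega) ((hab p).2 hp.2)).1
      · intro p hp
        rw [mem_filter] at hp
        obtain ⟨q1, q2, q3⟩ := hPp p hp.1
        have q4 := (kp_dvd F a (a + h) p q1 hd hl0 (by omega) (by omega) ((hab p).2 hp.2)).2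
        rw [← hdd] at q4
        refine q4.trans ?_
        have q5 : (w : ℝ) ≤ p := by exact_mod_cast q2.le
        have q6 : 2 * d / (p : ℝ) ≤ 2 * d / w := by gcongr
        have := Real.add_one_le_exp (2 * d / (w : ℝ))
        linarith
    refine h5.trans ?_
    rw [sum_const, nsmul_eq_mul]
    have h6 := card_big h hh (P.filter (fun p => p ∣ h)) (fun p hp => by
      rw [mem_filter] at hp
      exact ⟨(hPp p hp.1).1, hp.2⟩)
    have hlog2 : (1 / 2 : ℝ) ≤ Real.log 2 := by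
      have := Real.log_two_gt_d9
      linarith
    have h7 : (#(P.filter (fun p => p ∣ h)) : ℝ) ≤ 2 * Real.log h := by
      have h8 : (#(P.filter (fun p => p ∣ h)) : ℝ) * (1 / 2) ≤ #(P.filter (fun p => p ∣ h)) * Real.log 2 := by gcongr
      linarith
    have h8 : (#(P.filter (fun p => p ∣ h)) : ℝ) * (2 * d / w) ≤ κ / 2 := by
      calc (#(P.filter (fun p => p ∣ h)) : ℝ) * (2 * d / w) ≤ (2 * Real.log h) * (2 * d / w) := by gcongr
        _ = (8 * d * Real.log h) / w / 2 := by ring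
        _ ≤ (κ * w) / w / 2 := by rw [hdd]; gcongr
        _ = κ / 2 := by field_simp
    refine (Real.exp_le_exp.2 h8).trans ?_
    have h9 := Real.abs_exp_sub_one_le (x := κ / 2) (by rw [abs_of_pos (by positivity)]; linarith)
    rw [abs_of_pos (show 0 < κ / 2 by positivity)] at h9
    have := (abs_le.1 h9).2
    linarith
  have hv2 : ∏ p ∈ P.filter (fun p => ¬ p ∣ h), kp F a (a + h) p ≤ 1 := by
    apply prod_le_one
    · intro p hp
      rw [mem_filter] at hp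
      obtain ⟨q1, q2, q3⟩ := hPp p hp.1
      have q4 := (kp_not F a (a + h) p q1 hd hl0 (by omega) (by omega) (fun hc => hp.2 ((hab p).1 hc))).1
      refine le_trans ?_ q4
      have q5 : (4 : ℝ) * F.natDegree ≤ p := by exact_mod_cast (by omega : 4 * F.natDegree ≤ p)
      have q6 : (0 : ℝ) < p := by exact_mod_cast q1.pos
      rw [sub_nonneg, div_le_one (by positivity)]
      rw [← hdd] at q5 ⊢
      nlinarith
    · intro p hp
      rw [mem_filter] at hp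
      obtain ⟨q1, q2, q3⟩ := hPp p hp.1
      exact (kp_not F a (a + h) p q1 hd hl0 (by omega) (by omega) (fun hc => hp.2 ((hab p).1 hc))).2
  have hv1 : 1 - κ ≤ ∏ p ∈ P.filter (fun p => ¬ p ∣ h), kp F a (a + h) p := by
    have h5 : ∏ p ∈ P.filter (fun p => ¬ p ∣ h), (1 - 4 * d ^ 2 / (p : ℝ) ^ 2) ≤
        ∏ p ∈ P.filter (fun p => ¬ p ∣ h), kp F a (a + h) p := by
      apply Finset.prod_le_prod
      · intro p hp
        rw [mem_filter] at hp
        obtain ⟨q1, q2, q3⟩ := hPp p hp.1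
        have q5 : (4 : ℝ) * F.natDegree ≤ p := by exact_mod_cast (by omega : 4 * F.natDegree ≤ p)
        have q6 : (0 : ℝ) < p := by exact_mod_cast q1.pos
        rw [sub_nonneg, div_le_one (by positivity)]
        rw [← hdd] at q5
        nlinarith
      · intro p hp
        rw [mem_filter] at hp
        obtain ⟨q1, q2, q3⟩ := hPp p hp.1
        rw [hdd]
        exact (kp_not F a (a + h) p q1 hd hl0 (by omega) (by omega) (fun hc => hp.2 ((hab p).1 hc))).1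
    refine le_trans ?_ h5
    have h6 := prod_one_sub_ge (P.filter (fun p => ¬ p ∣ h)) (fun p : ℕ => 4 * d ^ 2 / (p : ℝ) ^ 2)
      (fun p _ => by positivity) (fun p hp => by
        rw [mem_filter] at hp
        obtain ⟨q1, q2, q3⟩ := hPp p hp.1
        have q5 : (4 : ℝ) * F.natDegree ≤ p := by exact_mod_cast (by omega : 4 * F.natDegree ≤ p)
        have q6 : (0 : ℝ) < p := by exact_mod_cast q1.pos
        rw [div_le_one (by positivity)]
        rw [← hdd] at q5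
        nlinarith)
    refine le_trans ?_ h6
    have h7 : ∑ p ∈ P.filter (fun p => ¬ p ∣ h), 4 * d ^ 2 / (p : ℝ) ^ 2 ≤ 4 * d ^ 2 * (1 / w) := by
      calc ∑ p ∈ P.filter (fun p => ¬ p ∣ h), 4 * d ^ 2 / (p : ℝ) ^ 2
          ≤ ∑ p ∈ Ioc w z, 4 * d ^ 2 / (p : ℝ) ^ 2 := by
            apply sum_le_sum_of_subset_of_nonneg
            · rw [hP]
              exact (filter_subset _ _).trans (filter_subset _ _)
            · intro p _ _
              positivity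
        _ = 4 * d ^ 2 * ∑ p ∈ Ioc w z, 1 / (p : ℝ) ^ 2 := by
            rw [mul_sum]
            apply sum_congr rfl
            intro p _
            ring
        _ ≤ _ := by
            apply mul_le_mul_of_nonneg_left (sum_inv_sq w z hw1) (by positivity)
    have h8 : 4 * d ^ 2 * (1 / w) ≤ κ := by
      rw [mul_one_div, div_le_iff₀ hw0, hdd]
      exact h1
    linarith
  rw [hsplit, abs_le]
  constructor
  · have : 1 * (1 - κ) ≤ (∏ p ∈ P.filter (fun p => p ∣ h), kp F a (a + h) p) *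
      ∏ p ∈ P.filter (fun p => ¬ p ∣ h), kp F a (a + h) p := mul_le_mul hu1 hv1 (by linarith) (by linarith)
    linarith
  · have : (∏ p ∈ P.filter (fun p => p ∣ h), kp F a (a + h) p) *
      ∏ p ∈ P.filter (fun p => ¬ p ∣ h), kp F a (a + h) p ≤ (1 + κ) * 1 :=
      mul_le_mul hu2 hv2 (by linarith) (by linarith)
    linarith

/-- **TAIL2** -/
theorem tail2 (F : ℤ[X]) (a : ℤ) (h : ℕ) (hh0 : 0 < h) (w z : ℕ) (hwz : w ≤ z) (hd : 1 ≤ F.natDegree)
    (hl0 : F.leadingCoeff ≠ 0)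
    (hl : F.leadingCoeff.natAbs ≤ w) (h4 : 4 * F.natDegree ≤ w) (κ : ℝ) (hκ0 : 0 < κ) (hκ : κ ≤ 1 / 4)
    (h1 : 4 * (F.natDegree : ℝ) ^ 2 ≤ κ * w) (h2 : 8 * (F.natDegree : ℝ) * Real.log h ≤ κ * w)
    (ha : |hh F a z - hh F a w| ≤ κ * hh F a w) (hb : |hh F (a + h) z - hh F (a + h) w| ≤ κ * hh F (a + h) w) :
    |g2 F a (a + h) z - g2 F a (a + h) w| ≤ 4 * κ * g2 F a (a + h) w := by
  have hw1 : 1 ≤ w := by omega
  have hg0 := g2_nonneg F a (a + h) w
  by_cases hza : hh F a w = 0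
  · have e1 := hh_zero_g2 F a (a + h) w hw1 hza
    rw [g2_mul F a (a + h) w z hwz, e1]
    simp
  by_cases hzb : hh F (a + h) w = 0
  · have e1 := hh_zero_g2' F a (a + h) w hw1 hzb
    rw [g2_mul F a (a + h) w z hwz, e1]
    simp
  have hapos : 0 < hh F a w := lt_of_le_of_ne (hh_nonneg F a w hw1) (Ne.symm hza)
  have hbpos : 0 < hh F (a + h) w := lt_of_le_of_ne (hh_nonneg F (a + h) w hw1) (Ne.symm hzb)
  obtain ⟨P, hP⟩ : ∃ P, P = (Ioc w z).filter Nat.Prime := ⟨_, rfl⟩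
  have hRa : |∏ p ∈ P, (1 - xp F a p) - 1| ≤ κ := by
    rw [hh_mul F a w z hwz, ← hP] at ha
    have e1 : hh F a w * ∏ p ∈ P, (1 - xp F a p) - hh F a w = hh F a w * (∏ p ∈ P, (1 - xp F a p) - 1) := by ring
    rw [e1, abs_mul, abs_of_pos hapos, mul_comm κ] at ha
    exact le_of_mul_le_mul_left ha hapos
  have hRb : |∏ p ∈ P, (1 - xp F (a + h) p) - 1| ≤ κ := by
    rw [hh_mul F (a + h) w z hwz, ← hP] at hb
    have e1 : hh F (a + h) w * ∏ p ∈ P, (1 - xp F (a + h) p) - hh F (a + h) w =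
      hh F (a + h) w * (∏ p ∈ P, (1 - xp F (a + h) p) - 1) := by ring
    rw [e1, abs_mul, abs_of_pos hbpos, mul_comm κ] at hb
    exact le_of_mul_le_mul_left hb hbpos
  have hK := prod_kp F a h hh0 w z hd hl0 hl h4 κ hκ0 (by linarith) h1 h2
  rw [← hP] at hK
  have hprod : ∏ p ∈ P, ((1 - (r2 F a (a + h) p : ℝ) / p) / (1 - 1 / (p : ℝ)) ^ 2) =
      (∏ p ∈ P, (1 - xp F a p)) * (∏ p ∈ P, (1 - xp F (a + h) p)) * ∏ p ∈ P, kp F a (a + h) p := by
    rw [← prod_mul_distrib, ← prod_mul_distrib]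
    apply prod_congr rfl
    intro p hp
    rw [hP, mem_filter, mem_Ioc] at hp
    rw [← one_sub_xp F a p hp.2, ← one_sub_xp F (a + h) p hp.2]
    unfold kp
    obtain ⟨a1, a2, a3⟩ := rho_bd F a p hp.2 hd hl0 (by omega) (by omega)
    obtain ⟨b1, b2, b3⟩ := rho_bd F (a + h) p hp.2 hd hl0 (by omega) (by omega)
    have hx : 1 - (rho F a p : ℝ) / p ≠ 0 := by linarith
    have hy : 1 - (rho F (a + h) p : ℝ) / p ≠ 0 := by linarith
    have hp2 : (2 : ℝ) ≤ p := by exact_mod_cast hp.2.two_le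
    have hq : 1 - 1 / (p : ℝ) ≠ 0 := by
      have : 1 / (p : ℝ) ≤ 1 / 2 := one_div_le_one_div_of_le (by norm_num) hp2
      linarith
    generalize (1 - (r2 F a (a + h) p : ℝ) / p) = R
    generalize 1 - (rho F a p : ℝ) / p = X at hx ⊢
    generalize 1 - (rho F (a + h) p : ℝ) / p = Y at hy ⊢
    generalize 1 - 1 / (p : ℝ) = U at hq ⊢
    field_simp
  rw [g2_mul F a (a + h) w z hwz, ← hP, hprod]
  generalize ∏ p ∈ P, (1 - xp F a p) = x at hRa ⊢
  generalize ∏ p ∈ P, (1 - xp F (a + h) p) = y at hRb ⊢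
  generalize ∏ p ∈ P, kp F a (a + h) p = k at hK ⊢
  generalize g2 F a (a + h) w = g at hg0 ⊢
  rw [abs_le] at hRa hRb hK
  have e1 : g * (x * y * k) - g = (x * y * k - 1) * g := by ring
  rw [e1, abs_mul, abs_of_nonneg hg0]
  apply mul_le_mul_of_nonneg_right _ hg0
  have hx1 : x ≤ 1 + κ := by linarith
  have hx0 : 1 - κ ≤ x := by linarith
  have hy1 : y ≤ 1 + κ := by linarith
  have hy0 : 1 - κ ≤ y := by linarith
  have hk1 : k ≤ 1 + κ := by linarith
  have hk0 : 1 - κ ≤ k := by linarith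
  have hκ1 : 0 ≤ 1 - κ := by linarith
  have hxy1 : x * y ≤ (1 + κ) * (1 + κ) := mul_le_mul hx1 hy1 (by linarith) (by linarith)
  have hxy0 : (1 - κ) * (1 - κ) ≤ x * y := mul_le_mul hx0 hy0 hκ1 (by linarith)
  have hxyk1 : x * y * k ≤ ((1 + κ) * (1 + κ)) * (1 + κ) :=
    mul_le_mul hxy1 hk1 (by linarith) (by positivity)
  have hxyk0 : ((1 - κ) * (1 - κ)) * (1 - κ) ≤ x * y * k :=
    mul_le_mul hxy0 hk0 hκ1 (le_trans (by positivity) hxy0)
  rw [abs_le]
  constructor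
  · nlinarith [mul_nonneg hκ0.le hκ0.le, mul_nonneg (mul_nonneg hκ0.le hκ0.le) hκ1]
  · nlinarith [mul_nonneg hκ0.le hκ0.le, mul_nonneg (mul_nonneg hκ0.le hκ0.le) hκ0.le]

end Run7.h994.PR
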